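import Pool.Agent.Lib.H95I.Glue

/-!
# Covers of abelian subgroups

An abelian subgroup `A` of a group `Δ` has the covering property `CoverLifts A` if every finite
abelian group `B` mapping onto `A` is the derived subgroup of a group over `Δ`.
-/

set_option autoImplicit false

namespace Pool.H95I

open scoped commutatorElement

/-! ### Covers with a characteristic chain -/

theorem castHom_eq_zero_iff {n m : ℕ} (hn : 0 < n) (hm : 0 < m) (z : ZMod (n * m)) :
    ZMod.castHom (dvd_mul_right n m) (ZMod n) z = 0 ↔ m • z = 0 := by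
  have : NeZero (n * m) := ⟨(Nat.mul_pos hn hm).ne'⟩
  obtain ⟨v, rfl⟩ : ∃ v : ℕ, (v : ZMod (n * m)) = z := ⟨z.val, ZMod.natCast_zmod_val z⟩
  rw [map_natCast, nsmul_eq_mul, ← Nat.cast_mul, ZMod.natCast_eq_zero_iff,
    ZMod.natCast_eq_zero_iff, mul_comm n m]
  exact (Nat.mul_dvd_mul_iff_left hm).symm

/-- A cover whose kernel is the `m`-torsion. -/
theorem exists_cover_torsion (A : Type) [CommGroup A] [Finite A] {m : ℕ} (hm : 0 < m) :
    ∃ (B : Type) (_ : CommGroup B) (_ : Finite B) (f : B →* A), Function.Surjective f ∧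
      ∀ z, f z = 1 ↔ z ^ m = 1 := by
  obtain ⟨ι, iι, n, hn, ⟨e⟩⟩ := CommGroup.equiv_prod_multiplicative_zmod_of_finite A
  have hne : ∀ i, NeZero (n i) := fun i => ⟨by have := hn i; omega⟩
  have hne2 : ∀ i, NeZero (n i * m) := fun i =>
    ⟨(Nat.mul_pos (by have := hn i; omega) hm).ne'⟩
  let g : ∀ i, Multiplicative (ZMod (n i * m)) →* Multiplicative (ZMod (n i)) := fun i =>
    AddMonoidHom.toMultiplicative
      (ZMod.castHom (dvd_mul_right (n i) m) (ZMod (n i))).toAddMonoidHom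
  have hg : ∀ i z, g i z = Multiplicative.ofAdd
      (ZMod.castHom (dvd_mul_right (n i) m) (ZMod (n i)) z.toAdd) := fun _ _ => rfl
  let f0 : ((i : ι) → Multiplicative (ZMod (n i * m))) →* ((i : ι) → Multiplicative (ZMod (n i))) :=
    MonoidHom.pi fun i => (g i).comp (Pi.evalMonoidHom _ i)
  have hf0 : ∀ z i, f0 z i = g i (z i) := fun _ _ => rfl
  refine ⟨(i : ι) → Multiplicative (ZMod (n i * m)), inferInstance, inferInstance,
    e.symm.toMonoidHom.comp f0, ?_, ?_⟩
  · intro a
    have h1 : ∀ i, ∃ z, g i z = e a i := by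
      intro i
      obtain ⟨z, hz⟩ := ZMod.castHom_surjective (dvd_mul_right (n i) m) (e a i).toAdd
      exact ⟨Multiplicative.ofAdd z, by rw [hg]; exact congrArg Multiplicative.ofAdd hz⟩
    choose z hz using h1
    refine ⟨z, ?_⟩
    change e.symm (f0 z) = a
    rw [MulEquiv.symm_apply_eq]
    funext i
    rw [hf0, hz]
  · intro z
    change e.symm (f0 z) = 1 ↔ _
    rw [MulEquiv.symm_apply_eq, map_one, funext_iff, funext_iff]
    apply forall_congr'
    intro i
    rw [hf0, hg, Pi.pow_apply]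
    have h1 := castHom_eq_zero_iff (n := n i) (by have := hn i; omega) hm (z i).toAdd
    exact h1

/-- A cover in which the members of a chain are the images of torsion subgroups. -/
theorem exists_cover_chain (A : Type) [CommGroup A] [Finite A] (c : ℕ → Subgroup A)
    (hc : Monotone c) (r : ℕ) :
    ∃ (B : Type) (_ : CommGroup B) (_ : Finite B) (f : B →* A) (m : ℕ → ℕ),
      Function.Surjective f ∧ ∀ i < r, ∀ a, a ∈ c i ↔ ∃ b, f b = a ∧ b ^ m i = 1 := by
  induction r with
  | zero =>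
    exact ⟨A, inferInstance, inferInstance, MonoidHom.id A, fun _ => 0,
      Function.surjective_id, fun i hi => absurd hi (Nat.not_lt_zero i)⟩
  | succ r ih =>
    obtain ⟨B, iB, fB, f, m, hf, hm⟩ := ih
    obtain ⟨Z, iZ, fZ, g, hg, hgz⟩ :=
      exists_cover_torsion (A ⧸ c r) (m := Nat.card B) Nat.card_pos
    let S : Subgroup (B × Z) :=
      { carrier := {t | QuotientGroup.mk' (c r) (f t.1) = g t.2}
        one_mem' := by
          change QuotientGroup.mk' (c r) (f 1) = g 1
          rw [map_one, map_one, map_one]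
        mul_mem' := fun {a b} ha hb => by
          change QuotientGroup.mk' (c r) (f (a.1 * b.1)) = g (a.2 * b.2)
          rw [map_mul, map_mul, map_mul, ha, hb]
        inv_mem' := fun {a} ha => by
          change QuotientGroup.mk' (c r) (f a.1⁻¹) = g a.2⁻¹
          rw [map_inv, map_inv, map_inv, ha] }
    have hS : ∀ t : B × Z, t ∈ S ↔ QuotientGroup.mk' (c r) (f t.1) = g t.2 := fun _ => Iff.rfl
    have h1 : ∀ b : B, f b ∈ c r → (b, (1 : Z)) ∈ S := by
      intro b hb
      rw [hS]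
      change QuotientGroup.mk' (c r) (f b) = g 1
      rw [map_one, ← MonoidHom.mem_ker, QuotientGroup.ker_mk']
      exact hb
    refine ⟨S, inferInstance, inferInstance, (f.comp (MonoidHom.fst B Z)).comp S.subtype,
      fun i => if i < r then m i else Nat.card B, ?_, ?_⟩
    · intro a
      obtain ⟨b, rfl⟩ := hf a
      obtain ⟨z, hz⟩ := hg (QuotientGroup.mk' (c r) (f b))
      exact ⟨⟨(b, z), hz.symm⟩, rfl⟩
    · intro i hi a
      by_cases hir : i < r
      · simp only [hir, if_true]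
        rw [hm i hir a]
        constructor
        · rintro ⟨b, rfl, hb⟩
          have h2 : f b ∈ c r := hc hir.le ((hm i hir _).2 ⟨b, rfl, hb⟩)
          refine ⟨⟨(b, 1), h1 b h2⟩, rfl, ?_⟩
          apply Subtype.ext
          exact Prod.ext hb (one_pow _)
        · rintro ⟨t, rfl, ht⟩
          refine ⟨(t : B × Z).1, rfl, ?_⟩
          exact congrArg (fun s : S => (s : B × Z).1) ht
      · have hir' : i = r := by omega
        subst hir'
        simp only [hir, if_false]
        constructor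
        · intro ha
          obtain ⟨b, rfl⟩ := hf a
          refine ⟨⟨(b, 1), h1 b ha⟩, rfl, ?_⟩
          apply Subtype.ext
          exact Prod.ext (pow_card_eq_one') (one_pow _)
        · rintro ⟨t, rfl, ht⟩
          have h2 : (t : B × Z).2 ^ Nat.card B = 1 :=
            congrArg (fun s : S => (s : B × Z).2) ht
          rw [← hgz] at h2
          have h3 := (hS t).1 t.2
          rw [h2, ← MonoidHom.mem_ker, QuotientGroup.ker_mk'] at h3
          exact h3

/-! ### The covering property -/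

section

variable {Δ : Type} [Group Δ]

/-- The covering property of a subgroup `A` of `Δ`: for every finite abelian group `B` with a
homomorphism `ρ` to `Δ` with image `A` there are a group `Q`, an isomorphism `ι` of `B` onto the
derived subgroup of `Q` and a homomorphism `π` from `Q` to `Δ` with `π ∘ ι = ρ`. -/
def CoverLifts (A : Subgroup Δ) : Prop :=
  ∀ (B : Type) [CommGroup B] [Finite B] (ρ : B →* Δ), ρ.range = A →
    ∃ (Q : Type) (_ : Group Q) (π : Q →* Δ) (ι : B →* Q),
      Function.Injective ι ∧ ι.range = commutator Q ∧ ∀ b, π (ι b) = ρ b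

/-- The condition at the prime `p` on a pair `A ≤ N` of subgroups: `N` centralizes the `p`-part of
`A`, or acts on it by power maps and some element acts as a `k`-th power with `k` not congruent to
`1` modulo `p`. -/
def PCond (A N : Subgroup Δ) (p : ℕ) : Prop :=
  (∀ n ∈ N, ∀ a ∈ A, (∃ r, a ^ p ^ r = 1) → n * a = a * n) ∨
    ((∀ n ∈ N, ∃ k : ℕ, ∀ a ∈ A, (∃ r, a ^ p ^ r = 1) → n * a * n⁻¹ = a ^ k) ∧
      ∃ n ∈ N, ∃ k : ℕ, (∀ a ∈ A, (∃ r, a ^ p ^ r = 1) → n * a * n⁻¹ = a ^ k) ∧
        ¬ k ≡ 1 [MOD p])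

/-- The local conditions give the covering property. -/
theorem coverLifts_of_pcond {A N : Subgroup Δ} (hN : ⁅N, N⁆ = A)
    (hp : ∀ p : ℕ, p.Prime → PCond A N p) : CoverLifts A := by
  intro B _ _ ρ hρ
  have hAN : A ≤ N := by rw [← hN]; exact Subgroup.commutator_le_self N
  have hρN : ∀ b, ρ b ∈ N := by
    intro b
    apply hAN
    rw [← hρ]
    exact ⟨b, rfl⟩
  have hρA : ∀ b, ρ b ∈ A := by
    intro b
    rw [← hρ]
    exact ⟨b, rfl⟩
  let ρ' : B →* N := ρ.codRestrict N hρN
  have hρ' : ρ'.range = commutator N := by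
    apply Subgroup.map_injective N.subtype_injective
    rw [Subgroup.map_subtype_commutator, hN, ← hρ]
    ext θ
    constructor
    · rintro ⟨_, ⟨h, rfl⟩, rfl⟩
      exact ⟨h, rfl⟩
    · rintro ⟨h, rfl⟩
      exact ⟨_, ⟨h, rfl⟩, rfl⟩
  have hsc : ∀ (p : ℕ) (n : N) (k : ℕ),
      (∀ a ∈ A, (∃ r, a ^ p ^ r = 1) → (n : Δ) * a * (n : Δ)⁻¹ = a ^ k) →
      ∀ b : B, (∃ r, b ^ p ^ r = 1) → n * ρ' b * n⁻¹ = ρ' b ^ k := by
    intro p n k hk b hb
    obtain ⟨r, hr⟩ := hb
    apply Subtype.ext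
    exact hk (ρ b) (hρA b) ⟨r, by rw [← map_pow, hr, map_one]⟩
  have hl := lifts_of_local ρ' hρ' (by
    intro p hpp
    rcases hp p hpp with hT | ⟨hF1, f, hfN, k, hF2, hF3⟩
    · left
      intro b hb n
      obtain ⟨r, hr⟩ := hb
      apply Subtype.ext
      exact (hT n n.2 (ρ b) (hρA b) ⟨r, by rw [← map_pow, hr, map_one]⟩).symm
    · right
      refine ⟨?_, ⟨f, hfN⟩, k, hsc p ⟨f, hfN⟩ k hF2, hF3⟩
      intro n
      obtain ⟨k', hk'⟩ := hF1 n n.2
      exact ⟨k', hsc p n k' hk'⟩)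
  obtain ⟨Q, iQ, π, ι, hπ, hι, hιr, hcomp⟩ := hl
  refine ⟨Q, iQ, N.subtype.comp π, ι, hι, hιr, ?_⟩
  intro b
  have h1 : π (ι b) = ρ' b := by rw [← hcomp]; rfl
  rw [MonoidHom.comp_apply, h1]
  rfl

/-- If `A` has the covering property then every chain of subgroups of `A` is normalized by some
group with derived subgroup `A`. -/
theorem CoverLifts.chain {A : Subgroup Δ} [Finite A] (hA : ∀ a ∈ A, ∀ b ∈ A, a * b = b * a)
    (hcl : CoverLifts A) (c : ℕ → Subgroup Δ) (hc : Monotone c) (hcA : ∀ i, c i ≤ A) (r : ℕ) :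
    ∃ N : Subgroup Δ, ⁅N, N⁆ = A ∧ ∀ i < r, ∀ n ∈ N, ∀ x ∈ c i, n * x * n⁻¹ ∈ c i := by
  let iA : CommGroup A :=
    { (inferInstance : Group A) with
      mul_comm := fun a b => Subtype.ext (hA a a.2 b b.2) }
  let cA : ℕ → Subgroup A := fun i => (c i).subgroupOf A
  have hcA' : ∀ i (a : A), a ∈ cA i ↔ (a : Δ) ∈ c i := fun _ _ => Iff.rfl
  have hmono : Monotone cA := fun i j hij a ha => hc hij ha
  obtain ⟨B, iB, fB, f, m, hf, hm⟩ := exists_cover_chain A cA hmono r
  let ρ : B →* Δ := A.subtype.comp f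
  have hρ : ρ.range = A := by
    rw [MonoidHom.range_comp, MonoidHom.range_eq_top.2 hf, ← MonoidHom.range_eq_map,
      Subgroup.range_subtype]
  obtain ⟨Q, iQ, π, ι, hι, hιr, hπι⟩ := hcl B ρ hρ
  refine ⟨π.range, ?_, ?_⟩
  · rw [MonoidHom.range_eq_map, ← Subgroup.map_commutator, ← commutator_def, ← hιr, ← hρ]
    ext x
    constructor
    · rintro ⟨_, ⟨b, rfl⟩, rfl⟩
      exact ⟨b, (hπι b).symm⟩
    · rintro ⟨b, rfl⟩
      exact ⟨ι b, ⟨b, rfl⟩, hπι b⟩
  · rintro i hi _ ⟨q, rfl⟩ x hx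
    obtain ⟨b, hb, hbm⟩ := (hm i hi ⟨x, hcA i hx⟩).1 hx
    have h2 : q * ι b * q⁻¹ ∈ ι.range := by
      have h3 : ι b ∈ commutator Q := by rw [← hιr]; exact ⟨b, rfl⟩
      rw [hιr]
      exact (inferInstance : (commutator Q).Normal).conj_mem _ h3 q
    obtain ⟨b', hb'⟩ := h2
    have h3 : b' ^ m i = 1 := by
      apply hι
      rw [map_pow, hb', conj_pow, ← map_pow, hbm, map_one, mul_one, mul_inv_cancel]
    have h4 : f b' ∈ cA i := (hm i hi _).2 ⟨b', rfl, h3⟩
    have h5 : ρ b' = π q * x * (π q)⁻¹ := by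
      have h6 : ρ b = x := congrArg (fun t : A => (t : Δ)) hb
      rw [← hπι, hb', map_mul, map_mul, map_inv, hπι, h6]
    rw [← h5]
    exact h4

/-- The covering property implies that `A` is a derived subgroup. -/
theorem CoverLifts.exists_derived {A : Subgroup Δ} [Finite A]
    (hA : ∀ a ∈ A, ∀ b ∈ A, a * b = b * a) (hcl : CoverLifts A) : ∃ N : Subgroup Δ, ⁅N, N⁆ = A := by
  obtain ⟨N, hN, -⟩ := hcl.chain hA (fun _ => ⊥) (fun _ _ _ => le_rfl) (fun _ => bot_le) 0
  exact ⟨N, hN⟩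

theorem conj_mem_of_commutator_eq {A N : Subgroup Δ} (hN : ⁅N, N⁆ = A)
    {n a : Δ} (hn : n ∈ N) (ha : a ∈ A) : n * a * n⁻¹ ∈ A := by
  have hAN : A ≤ N := by rw [← hN]; exact Subgroup.commutator_le_self N
  have h1 : ⁅n, a⁆ ∈ A := by
    rw [← hN]
    exact Subgroup.commutator_mem_commutator hn (hAN ha)
  have h2 : n * a * n⁻¹ = ⁅n, a⁆ * a := by
    rw [commutatorElement_def]
    group
  rw [h2]
  exact A.mul_mem h1 ha

/-- For squarefree order all local conditions hold. -/
theorem pcond_of_squarefree {A N : Subgroup Δ} [Finite A]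
    (hA : ∀ a ∈ A, ∀ b ∈ A, a * b = b * a)
    (hN : ⁅N, N⁆ = A) (hsq : Squarefree (Nat.card A)) {p : ℕ} (hp : p.Prime) :
    PCond A N p := by
  let iA : CommGroup A :=
    { (inferInstance : Group A) with
      mul_comm := fun a b => Subtype.ext (hA a a.2 b b.2) }
  have hzg : IsZGroup A := IsZGroup.of_squarefree hsq
  have hcyc : IsCyclic A := inferInstance
  have hc0 : (Nat.card A : ℤ) ≠ 0 := by
    exact_mod_cast (Nat.card_pos (α := A)).ne'
  have hpow : ∀ n ∈ N, ∃ k : ℕ, ∀ a ∈ A, n * a * n⁻¹ = a ^ k := by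
    intro n hn
    let σ : A →* A :=
      { toFun := fun a => ⟨n * (a : Δ) * n⁻¹, conj_mem_of_commutator_eq hN hn a.2⟩
        map_one' := by
          apply Subtype.ext
          change n * 1 * n⁻¹ = 1
          rw [mul_one, mul_inv_cancel]
        map_mul' := by
          intro a b
          apply Subtype.ext
          change n * ((a : Δ) * b) * n⁻¹ = (n * (a : Δ) * n⁻¹) * (n * (b : Δ) * n⁻¹)
          group }
    obtain ⟨z, hz⟩ := MonoidHom.map_cyclic σ
    refine ⟨(z % Nat.card A).toNat, ?_⟩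
    intro a ha
    have h1 := hz ⟨a, ha⟩
    have h2 : (⟨a, ha⟩ : A) ^ z = (⟨a, ha⟩ : A) ^ (z % Nat.card A).toNat := by
      rw [← zpow_natCast, Int.toNat_of_nonneg (Int.emod_nonneg _ hc0)]
      rw [← zpow_mod_natCard]
    rw [h2] at h1
    exact congrArg (fun t : A => (t : Δ)) h1
  by_cases h : ∃ n ∈ N, ∃ k : ℕ, (∀ a ∈ A, (∃ r, a ^ p ^ r = 1) → n * a * n⁻¹ = a ^ k) ∧
      ¬ k ≡ 1 [MOD p]
  · right
    refine ⟨?_, h⟩
    intro n hn
    obtain ⟨k, hk⟩ := hpow n hn
    exact ⟨k, fun a ha _ => hk a ha⟩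
  · left
    push Not at h
    intro n hn a ha hr
    obtain ⟨k, hk⟩ := hpow n hn
    have h1 : k ≡ 1 [MOD p] := h n hn k (fun a ha _ => hk a ha)
    obtain ⟨r, hr⟩ := hr
    have h2 : orderOf a ∣ p ^ r := orderOf_dvd_iff_pow_eq_one.2 hr
    have h3 : orderOf a ∣ Nat.card A := by
      have h3 := orderOf_dvd_natCard (⟨a, ha⟩ : A)
      rwa [← Subgroup.orderOf_coe] at h3
    have h4 : orderOf a ∣ p := by
      obtain ⟨s, -, hs⟩ := (Nat.dvd_prime_pow hp).1 h2
      have hsq' : Squarefree (p ^ s) := by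
        rw [← hs]
        exact hsq.squarefree_of_dvd h3
      have h5 : s ≤ 1 := by
        by_contra h6
        have h7 : p * p ∣ p ^ s := by
          rw [← pow_two]
          exact pow_dvd_pow p (by omega)
        exact hp.one_lt.ne' (Nat.isUnit_iff.1 (hsq' p h7))
      rw [hs]
      calc p ^ s ∣ p ^ 1 := pow_dvd_pow p h5
        _ = p := pow_one p
    have h5 : a ^ k = a ^ 1 := by
      rw [pow_eq_pow_iff_modEq]
      exact h1.of_dvd h4
    rw [← mul_inv_eq_iff_eq_mul, hk a ha, h5, pow_one]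

/-- For squarefree order the covering property is the property of being a derived subgroup. -/
theorem coverLifts_iff_of_squarefree {A : Subgroup Δ} [Finite A]
    (hA : ∀ a ∈ A, ∀ b ∈ A, a * b = b * a) (hsq : Squarefree (Nat.card A)) :
    CoverLifts A ↔ ∃ N : Subgroup Δ, ⁅N, N⁆ = A :=
  ⟨fun h => h.exists_derived hA,
    fun ⟨_, hN⟩ => coverLifts_of_pcond hN fun _ hp => pcond_of_squarefree hA hN hsq hp⟩

end

end Pool.H95I
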