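import Pool.Agent.Lib.H95I.ZTriv
import Pool.Agent.Lib.H95I.Cover
import Pool.Agent.Lib.Helper71.Integ.Perfect

/-!
# The outer action on the derived subgroup and integrability
-/

set_option autoImplicit false

namespace Pool.H95I

open scoped commutatorElement
open Pool.Helper71.Integ

section

variable {K H : Type} [Group K] [Group H]

/-- The inner automorphisms. -/
abbrev Inn (K : Type) [Group K] : Subgroup (MulAut K) := (MulAut.conj : K →* MulAut K).range

/-- The projection to the outer automorphism group. -/
abbrev mkOut (K : Type) [Group K] : MulAut K →* Out K := QuotientGroup.mk' (Inn K)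

theorem mkOut_eq_one (θ : MulAut K) : mkOut K θ = 1 ↔ θ ∈ Inn K := by
  rw [← MonoidHom.mem_ker, QuotientGroup.ker_mk']

/-- Transport of automorphisms along an isomorphism. -/
def transport {A B : Type} [Group A] [Group B] (e : A ≃* B) : MulAut A →* MulAut B :=
  (MulAut.congr e).toMonoidHom

/-- The action of `H` by conjugation on its derived subgroup, transported to `K`. -/
noncomputable def act (e : commutator H ≃* K) : H →* MulAut K :=
  (transport e).comp (cn H)

theorem act_eq_congr (e : commutator H ≃* K) (h : H) : act e h = MulAut.congr e (cn H h) := rfl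

theorem act_apply (e : commutator H ≃* K) (h : H) (k : K) :
    ((e.symm (act e h k) : commutator H) : H) = h * (e.symm k : commutator H) * h⁻¹ := by
  have h1 : act e h k = e (MulAut.conjNormal h (e.symm k)) := rfl
  rw [h1, MulEquiv.symm_apply_apply, MulAut.conjNormal_apply]

theorem act_eq_iff (e : commutator H ≃* K) (h : H) (θ : MulAut K) :
    act e h = θ ↔ ∀ k, ((e.symm (θ k) : commutator H) : H) =
      h * (e.symm k : commutator H) * h⁻¹ := by
  constructor
  · rintro rfl k
    exact act_apply e h k
  · intro hk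
    ext k
    apply e.symm.injective
    apply Subtype.ext
    rw [hk, act_apply]

theorem act_comm (e : commutator H ≃* K) (y : commutator H) :
    act e (y : H) = MulAut.conj (e y) := by
  rw [act_eq_iff]
  intro k
  rw [MulAut.conj_apply, map_mul, map_mul, map_inv, MulEquiv.symm_apply_apply]
  rfl

theorem act_symm (e : commutator H ≃* K) (k : K) :
    act e ((e.symm k : commutator H) : H) = MulAut.conj k := by
  rw [act_comm, MulEquiv.apply_symm_apply]

theorem map_act (e : commutator H ≃* K) : (commutator H).map (act e) = Inn K := by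
  ext θ
  constructor
  · rintro ⟨y, hy, rfl⟩
    exact ⟨e ⟨y, hy⟩, (act_comm e ⟨y, hy⟩).symm⟩
  · rintro ⟨k, rfl⟩
    exact ⟨e.symm k, (e.symm k).2, act_symm e k⟩

theorem range_act_comm (e : commutator H ≃* K) : ⁅(act e).range, (act e).range⁆ = Inn K := by
  rw [MonoidHom.range_eq_map, ← Subgroup.map_commutator, ← commutator_def, map_act]

/-- The outer action of `H` on its derived subgroup, transported to `K`. -/
noncomputable def outAct (e : commutator H ≃* K) : H →* Out K := (mkOut K).comp (act e)

theorem outAct_apply (e : commutator H ≃* K) (h : H) : outAct e h = mkOut K (act e h) := rfl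

theorem outAct_of_mem (e : commutator H ≃* K) {h : H} (hh : h ∈ commutator H) :
    outAct e h = 1 := by
  rw [outAct_apply, mkOut_eq_one, ← map_act e]
  exact ⟨h, hh, rfl⟩

theorem outAct_range_comm (e : commutator H ≃* K) :
    ∀ a ∈ (outAct e).range, ∀ b ∈ (outAct e).range, a * b = b * a := by
  rintro _ ⟨a, rfl⟩ _ ⟨b, rfl⟩
  rw [← commutatorElement_eq_one_iff_mul_comm, ← map_commutatorElement]
  exact outAct_of_mem e (Subgroup.commutator_mem_commutator (Subgroup.mem_top a)
    (Subgroup.mem_top b))

/-- The outer action factors through the abelianization. -/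
noncomputable def outAb (e : commutator H ≃* K) : Abelianization H →* Out K :=
  QuotientGroup.lift (commutator H) (outAct e) fun _ hh => outAct_of_mem e hh

theorem outAb_of (e : commutator H ≃* K) (h : H) :
    outAb e (Abelianization.of h) = outAct e h := rfl

theorem of_surjective (b : Abelianization H) : ∃ h, Abelianization.of h = b :=
  QuotientGroup.mk_surjective b

theorem outAb_range (e : commutator H ≃* K) : (outAb e).range = (outAct e).range := by
  ext x
  constructor
  · rintro ⟨b, rfl⟩
    obtain ⟨h, rfl⟩ := of_surjective b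
    exact ⟨h, rfl⟩
  · rintro ⟨h, rfl⟩
    exact ⟨Abelianization.of h, rfl⟩

/-- An integral of `H` gives a group over `Out K` with derived subgroup the abelianization. -/
theorem exists_lift_of_isIntegrable (hH : IsIntegrable H) (e : commutator H ≃* K) :
    ∃ (Q : Type) (_ : Group Q) (π : Q →* Out K) (ι : Abelianization H →* Q),
      Function.Injective ι ∧ ι.range = commutator Q ∧ ∀ b, π (ι b) = outAb e b := by
  obtain ⟨L, iL, ⟨f⟩⟩ := hH
  let ψ₀ : L →* MulAut H :=
    (MulAut.congr f).toMonoidHom.comp (MulAut.conjNormal (H := commutator L))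
  have key : ∀ y : commutator L, ψ₀ (y : L) = MulAut.conj (f y) := by
    intro y
    ext x
    simp only [ψ₀, MonoidHom.coe_comp, Function.comp_apply, MulEquiv.toMonoidHom_eq_coe,
      MonoidHom.coe_coe, MulAut.congr_apply, MulAut.conj_apply]
    have h2 : (MulAut.conjNormal (y : L) : MulAut (commutator L))
        (f.symm x) = y * f.symm x * y⁻¹ := by
      apply Subtype.ext
      simp [MulAut.conjNormal_apply]
    simp [MulEquiv.trans_apply, h2]
  let F : MulAut H →* MulAut K := (MulAut.congr e).toMonoidHom.comp (resComm H)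
  have hF : ∀ h, F (MulAut.conj h) = act e h := by
    intro h
    ext k
    have h2 : resComm H (MulAut.conj h) (e.symm k) = MulAut.conjNormal h (e.symm k) := by
      apply Subtype.ext
      rw [resComm_apply, MulAut.conj_apply, MulAut.conjNormal_apply]
    have h3 : F (MulAut.conj h) k = e (resComm H (MulAut.conj h) (e.symm k)) := rfl
    rw [h3, h2]
    rfl
  let ψ : L →* MulAut K := F.comp ψ₀
  let j : H →* L := (commutator L).subtype.comp f.symm.toMonoidHom
  have hj : ∀ h, j h = (f.symm h : commutator L) := fun _ => rfl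
  have hψj : ∀ h, ψ (j h) = act e h := by
    intro h
    change F (ψ₀ ((f.symm h : commutator L) : L)) = _
    rw [key, MulEquiv.apply_symm_apply, hF]
  have hjinj : Function.Injective j := by
    intro a b hab
    exact f.symm.injective (Subtype.ext hab)
  have hjr : j.range = commutator L := by
    ext x
    constructor
    · rintro ⟨h, rfl⟩
      exact (f.symm h).2
    · intro hx
      exact ⟨f ⟨x, hx⟩, by rw [hj, MulEquiv.symm_apply_apply]⟩
  have hD : (commutator H).map j = ⁅commutator L, commutator L⁆ := by
    rw [commutator_def H, Subgroup.map_commutator, ← MonoidHom.range_eq_map, hjr]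
  let D : Subgroup L := ⁅commutator L, commutator L⁆
  let Q : Type := L ⧸ D
  let π : Q →* Out K := QuotientGroup.lift D ((mkOut K).comp ψ) (by
    intro x hx
    change x ∈ (⁅commutator L, commutator L⁆ : Subgroup L) at hx
    rw [← hD] at hx
    obtain ⟨h, hh, rfl⟩ := hx
    change mkOut K (ψ (j h)) = 1
    rw [hψj, mkOut_eq_one, ← map_act e]
    exact ⟨h, hh, rfl⟩)
  let ι : Abelianization H →* Q := QuotientGroup.lift (commutator H) ((QuotientGroup.mk' D).comp j)
    (by
      intro h hh
      change QuotientGroup.mk' D (j h) = 1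
      rw [← MonoidHom.mem_ker, QuotientGroup.ker_mk']
      change j h ∈ (⁅commutator L, commutator L⁆ : Subgroup L)
      rw [← hD]
      exact ⟨h, hh, rfl⟩)
  have hιof : ∀ h, ι (Abelianization.of h) = QuotientGroup.mk' D (j h) := fun _ => rfl
  refine ⟨Q, inferInstance, π, ι, ?_, ?_, ?_⟩
  · rw [injective_iff_map_eq_one]
    intro b hb
    obtain ⟨h, rfl⟩ := of_surjective b
    rw [hιof, ← MonoidHom.mem_ker, QuotientGroup.ker_mk'] at hb
    change j h ∈ (⁅commutator L, commutator L⁆ : Subgroup L) at hb
    rw [← hD] at hb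
    obtain ⟨h', hh', hjh⟩ := hb
    rw [← hjinj hjh, ← MonoidHom.mem_ker, Abelianization.ker_of]
    exact hh'
  · have h1 : (commutator L).map (QuotientGroup.mk' D) = commutator Q := by
      have h2 := Subgroup.map_commutator (⊤ : Subgroup L) ⊤ (QuotientGroup.mk' D)
      rw [Subgroup.map_top_of_surjective _ (QuotientGroup.mk'_surjective D)] at h2
      exact h2
    rw [← h1]
    have h3 : ι.range = j.range.map (QuotientGroup.mk' D) := by
      ext x
      constructor
      · rintro ⟨b, rfl⟩
        obtain ⟨h, rfl⟩ := of_surjective b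
        exact ⟨j h, ⟨h, rfl⟩, rfl⟩
      · rintro ⟨_, ⟨h, rfl⟩, rfl⟩
        exact ⟨Abelianization.of h, rfl⟩
    rw [h3, hjr]
  · intro b
    obtain ⟨h, rfl⟩ := of_surjective b
    rw [hιof, outAb_of]
    change mkOut K (ψ (j h)) = _
    rw [hψj, outAct_apply]

/-- The lift gives an integral if the centre meets the derived subgroup trivially. -/
theorem isIntegrable_of_lift [Finite H] (hZ : Subgroup.center H ⊓ commutator H = ⊥)
    (e : commutator H ≃* K) {Q : Type} [Group Q] (π : Q →* Out K) (ι : Abelianization H →* Q)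
    (hι : Function.Injective ι) (hιr : ι.range = commutator Q)
    (hπι : ∀ b, π (ι b) = outAb e b) : IsIntegrable H := by
  let R : MulAut H →* MulAut K := (MulAut.congr e).toMonoidHom.comp (resComm H)
  have hRdef : ∀ θ, R θ = MulAut.congr e (resComm H θ) := fun _ => rfl
  have hres : ∀ h, resComm H (MulAut.conj h) = cn H h := by
    intro h
    ext d
    rw [resComm_apply, MulAut.conj_apply, cn_coe]
  have hR : ∀ h, R (MulAut.conj h) = act e h := by
    intro h
    rw [hRdef, hres, act_eq_congr]
  have hsurj : ∀ q : Q, ∃ θ : MulAut H, mkOut K (R θ) = π q ∧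
      ∀ h, ι (Abelianization.of (θ h)) = q * ι (Abelianization.of h) * q⁻¹ := by
    intro q
    obtain ⟨α₀, hα₀⟩ : ∃ α₀ : MulAut K, mkOut K α₀ = π q := QuotientGroup.mk_surjective (π q)
    have hex : ∀ b, ∃ b', ι b' = q * ι b * q⁻¹ := by
      intro b
      have h1 : ι b ∈ commutator Q := by rw [← hιr]; exact ⟨b, rfl⟩
      have h2 := (inferInstance : (commutator Q).Normal).conj_mem _ h1 q
      rw [← hιr] at h2
      exact h2
    choose β₀ hβ₀ using hex
    let β : Abelianization H →* Abelianization H :=
      { toFun := β₀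
        map_one' := by
          apply hι
          rw [hβ₀, map_one, mul_one, mul_inv_cancel]
        map_mul' := by
          intro a b
          apply hι
          rw [hβ₀, map_mul, map_mul, hβ₀, hβ₀]
          group }
    have hβ : ∀ b, ι (β b) = q * ι b * q⁻¹ := hβ₀
    have hβi : Function.Injective β := by
      rw [injective_iff_map_eq_one]
      intro b hb
      have h1 := hβ b
      rw [hb, map_one] at h1
      apply hι
      rw [map_one]
      calc ι b = q⁻¹ * (q * ι b * q⁻¹) * q := by group
        _ = q⁻¹ * 1 * q := by rw [← h1]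
        _ = 1 := by group
    let α : MulAut (commutator H) := (MulAut.congr e).symm α₀
    have hα : MulAut.congr e α = α₀ := MulEquiv.apply_symm_apply _ _
    obtain ⟨θ, hθ1, hθ2⟩ := exists_aut hZ α β hβi (by
      intro h₁
      obtain ⟨h₂', hh₂'⟩ := of_surjective (β (Abelianization.of h₁))
      have h1 : mkOut K (act e h₂') = mkOut K (α₀ * act e h₁ * α₀⁻¹) := by
        have h2 : outAb e (Abelianization.of h₂') = π (q * ι (Abelianization.of h₁) * q⁻¹) := by
          rw [← hπι, hh₂', hβ]
        rw [outAb_of, outAct_apply, map_mul, map_mul, map_inv, hπι, outAb_of, outAct_apply,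
          ← hα₀] at h2
        rw [h2, map_mul, map_mul, map_inv]
      have h2 : α₀ * act e h₁ * α₀⁻¹ * (act e h₂')⁻¹ ∈ Inn K := by
        rw [← mkOut_eq_one, map_mul, map_inv, h1, mul_inv_cancel]
      obtain ⟨k, hk⟩ := h2
      refine ⟨(e.symm k : commutator H) * h₂', ?_, ?_⟩
      · rw [map_mul, (of_eq_one_iff _).2 (e.symm k).2, one_mul, hh₂']
      · apply (MulAut.congr e).injective
        rw [map_mul, map_mul, hα, ← act_eq_congr, ← act_eq_congr, map_mul, act_symm, hk]
        group)
    refine ⟨θ, ?_, ?_⟩
    · have h1 : resComm H θ = α := by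
        ext d
        rw [resComm_apply]
        exact hθ1 d
      rw [hRdef, h1, hα, hα₀]
    · intro h
      rw [hθ2, hβ]
  have hker : ∀ θ : MulAut H, mkOut K (R θ) = 1 →
      (∀ h, ι (Abelianization.of (θ h)) = ι (Abelianization.of h)) →
      ∃ d ∈ commutator H, θ = MulAut.conj d := by
    intro θ h1 h2
    rw [mkOut_eq_one] at h1
    obtain ⟨k, hk⟩ := h1
    let d : commutator H := e.symm k
    have h3 : resComm H θ = cn H (d : H) := by
      apply (MulAut.congr e).injective
      rw [← hRdef, ← hk, ← act_eq_congr, act_symm]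
    obtain ⟨u, hu, hθ⟩ := exists_conj_of_trivial hZ ((MulAut.conj (d : H))⁻¹ * θ) (by
        intro x hx
        have h4 := congrArg (fun f : MulAut (commutator H) => ((f ⟨x, hx⟩ : commutator H) : H)) h3
        rw [resComm_apply, cn_coe] at h4
        change (MulAut.conj (d : H))⁻¹ (θ x) = x
        rw [← map_inv, MulAut.conj_apply, inv_inv]
        change θ x = d * x * (d : H)⁻¹ at h4
        rw [h4]
        group) (by
        intro h
        rw [← of_eq_one_iff, map_mul, map_inv]
        change Abelianization.of ((MulAut.conj (d : H))⁻¹ (θ h)) * _ = 1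
        rw [← map_inv, MulAut.conj_apply, inv_inv, map_mul, map_mul, map_inv,
          (of_eq_one_iff _).2 d.2, inv_one, one_mul, mul_one, hι (h2 h), mul_inv_cancel])
    refine ⟨d * u, (commutator H).mul_mem d.2 (mem_zd.1 hu).1, ?_⟩
    rw [map_mul, ← hθ, mul_inv_cancel_left]
  let T : Type := MulAut H × Q
  let X : Subgroup T :=
    { carrier := {t | mkOut K (R t.1) = π t.2 ∧
        ∀ h, ι (Abelianization.of (t.1 h)) = t.2 * ι (Abelianization.of h) * t.2⁻¹}
      one_mem' := ⟨by
        change mkOut K (R 1) = π 1
        rw [map_one, map_one, map_one], fun h => by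
        change ι (Abelianization.of h) = 1 * ι (Abelianization.of h) * 1⁻¹
        rw [one_mul, inv_one, mul_one]⟩
      mul_mem' := fun {a b} ha hb => ⟨by
        change mkOut K (R (a.1 * b.1)) = π (a.2 * b.2)
        rw [map_mul, map_mul, map_mul, ha.1, hb.1], fun h => by
        change ι (Abelianization.of (a.1 (b.1 h))) =
          a.2 * b.2 * ι (Abelianization.of h) * (a.2 * b.2)⁻¹
        rw [ha.2, hb.2]
        group⟩
      inv_mem' := fun {a} ha => ⟨by
        change mkOut K (R a.1⁻¹) = π a.2⁻¹
        rw [map_inv, map_inv, map_inv, ha.1], fun h => by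
        change ι (Abelianization.of (a.1⁻¹ h)) = a.2⁻¹ * ι (Abelianization.of h) * a.2⁻¹⁻¹
        have h1 := ha.2 (a.1⁻¹ h)
        have h2 : a.1 (a.1⁻¹ h) = h := by
          change (a.1 * a.1⁻¹) h = h
          rw [mul_inv_cancel]
          rfl
        rw [h2] at h1
        rw [h1]
        group⟩ }
  have hX : ∀ t : T, t ∈ X ↔ mkOut K (R t.1) = π t.2 ∧
      ∀ h, ι (Abelianization.of (t.1 h)) = t.2 * ι (Abelianization.of h) * t.2⁻¹ :=
    fun _ => Iff.rfl
  let j : H →* T := MonoidHom.prod MulAut.conj (ι.comp Abelianization.of)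
  have hj : ∀ h, j h = (MulAut.conj h, ι (Abelianization.of h)) := fun _ => rfl
  have hjX : ∀ h, j h ∈ X := by
    intro h
    rw [hX]
    refine ⟨?_, ?_⟩
    · change mkOut K (R (MulAut.conj h)) = π (ι (Abelianization.of h))
      rw [hR, hπι, outAb_of, outAct_apply]
    · intro x
      change ι (Abelianization.of (MulAut.conj h x)) = ι (Abelianization.of h) *
        ι (Abelianization.of x) * (ι (Abelianization.of h))⁻¹
      rw [MulAut.conj_apply, map_mul, map_mul, map_inv, map_mul, map_mul, map_inv]
  have hjinj : Function.Injective j := by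
    rw [injective_iff_map_eq_one]
    intro h hh
    have h1 : MulAut.conj h = 1 := congrArg Prod.fst hh
    have h2 : ι (Abelianization.of h) = 1 := congrArg Prod.snd hh
    have h3 : Abelianization.of h = 1 := by
      apply hι
      rw [h2, map_one]
    rw [of_eq_one_iff] at h3
    have h4 : h ∈ Subgroup.center H := by
      rw [Subgroup.mem_center_iff]
      intro x
      have h5 : MulAut.conj h x = x := by rw [h1]; rfl
      rw [MulAut.conj_apply, mul_inv_eq_iff_eq_mul] at h5
      exact h5.symm
    have h5 : h ∈ Subgroup.center H ⊓ commutator H := ⟨h4, h3⟩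
    rw [hZ, Subgroup.mem_bot] at h5
    exact h5
  have hkerX : ∀ t ∈ X, t.2 = 1 → ∃ d ∈ commutator H, t = j d := by
    intro t ht ht2
    obtain ⟨h1, h2⟩ := (hX t).1 ht
    rw [ht2] at h1 h2
    obtain ⟨d, hd, hθ⟩ := hker t.1 (by rw [h1, map_one]) (fun h => by
      rw [h2 h, one_mul, inv_one, mul_one])
    refine ⟨d, hd, ?_⟩
    rw [hj, (of_eq_one_iff d).2 hd, map_one]
    exact Prod.ext hθ ht2
  have hsnd : X.map (MonoidHom.snd (MulAut H) Q) = ⊤ := by
    rw [eq_top_iff]
    intro q _
    obtain ⟨θ, h1, h2⟩ := hsurj q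
    exact ⟨(θ, q), ⟨h1, h2⟩, rfl⟩
  have hDsnd : (⁅X, X⁆).map (MonoidHom.snd (MulAut H) Q) = commutator Q := by
    rw [Subgroup.map_commutator, hsnd, commutator_def]
  have hjD : ∀ d ∈ commutator H, j d ∈ ⁅X, X⁆ := by
    intro d hd
    have h1 : (commutator H).map j ≤ ⁅X, X⁆ := by
      rw [commutator_def, Subgroup.map_commutator]
      have h2 : (⊤ : Subgroup H).map j ≤ X := by
        rintro _ ⟨h, -, rfl⟩
        exact hjX h
      exact Subgroup.commutator_mono h2 h2
    exact h1 ⟨d, hd, rfl⟩
  have hXX : ⁅X, X⁆ = j.range := by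
    apply le_antisymm
    · intro x hx
      have hxX : x ∈ X := Subgroup.commutator_le_self X hx
      have h1 : x.2 ∈ ι.range := by
        rw [hιr, ← hDsnd]
        exact ⟨x, hx, rfl⟩
      obtain ⟨b, hb⟩ := h1
      obtain ⟨h, rfl⟩ := of_surjective b
      obtain ⟨d, hd, hxd⟩ := hkerX (x * (j h)⁻¹) (X.mul_mem hxX (X.inv_mem (hjX h))) (by
        change x.2 * (ι (Abelianization.of h))⁻¹ = 1
        rw [hb, mul_inv_cancel])
      refine ⟨d * h, ?_⟩
      rw [map_mul, ← hxd, inv_mul_cancel_right]
    · rintro _ ⟨h, rfl⟩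
      have h1 : ι (Abelianization.of h) ∈ (⁅X, X⁆).map (MonoidHom.snd (MulAut H) Q) := by
        rw [hDsnd, ← hιr]
        exact ⟨_, rfl⟩
      obtain ⟨x, hx, hxh⟩ := h1
      have hxX : x ∈ X := Subgroup.commutator_le_self X hx
      have hx2 : x.2 = ι (Abelianization.of h) := hxh
      obtain ⟨d, hd, hxd⟩ := hkerX (x⁻¹ * j h) (X.mul_mem (X.inv_mem hxX) (hjX h)) (by
        change x.2⁻¹ * ι (Abelianization.of h) = 1
        rw [hx2, inv_mul_cancel])
      have h2 : j h = x * j d := by rw [← hxd, mul_inv_cancel_left]
      rw [h2]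
      exact Subgroup.mul_mem _ hx (hjD d hd)
  refine ⟨X, inferInstance, ⟨?_⟩⟩
  have e1 : commutator X ≃* (commutator X).map X.subtype :=
    Subgroup.equivMapOfInjective (commutator X) X.subtype X.subtype_injective
  have e2 : (commutator X).map X.subtype = j.range := by
    rw [Subgroup.map_subtype_commutator, hXX]
  exact (e1.trans (MulEquiv.subgroupCongr e2)).trans (MonoidHom.ofInjective hjinj).symm

end

end Pool.H95I
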