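import Pool.Agent.Lib.H95I.Exact

/-!
# A cyclic characteristic section of the centre
-/

set_option autoImplicit false

namespace Pool.H95I

open scoped commutatorElement
open Pool.Helper71.Integ

section

variable {K H : Type} [Group K] [Group H]

theorem map_mem_center (θ : MulAut K) {z : K} (hz : z ∈ Subgroup.center K) :
    θ z ∈ Subgroup.center K := by
  rw [Subgroup.mem_center_iff] at hz ⊢
  intro g
  obtain ⟨g', rfl⟩ := θ.surjective g
  rw [← map_mul, ← map_mul, hz]

/-- The restriction of an automorphism to the centre. -/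
def resCenter (θ : MulAut K) : Subgroup.center K →* Subgroup.center K where
  toFun z := ⟨θ z, map_mem_center θ z.2⟩
  map_one' := Subtype.ext (map_one θ)
  map_mul' a b := Subtype.ext (map_mul θ (a : K) b)

theorem resCenter_apply (θ : MulAut K) (z : Subgroup.center K) :
    (resCenter θ z : K) = θ z := rfl

/-- Products of commutators of automorphisms act trivially on cyclic characteristic sections. -/
theorem comm_trivial_on_section (C₁ C₂ : Subgroup K) [hC₁ : C₁.Characteristic]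
    [hC₂ : C₂.Characteristic] (hle : C₂ ≤ Subgroup.center K) (c₀ : K)
    (hc₀ : ∀ c ∈ C₂, ∃ k : ℤ, c * (c₀ ^ k)⁻¹ ∈ C₁) (hc₀' : c₀ ∈ C₂) (θ : MulAut K)
    (hθ : θ ∈ commutator (MulAut K)) (c : K) (hc : c ∈ C₂) : θ c * c⁻¹ ∈ C₁ := by
  have hm₁ : ∀ (η : MulAut K) (x : K), x ∈ C₁ → η x ∈ C₁ := by
    intro η x hx
    have h1 := Subgroup.characteristic_iff_map_le.1 hC₁ η
    exact h1 ⟨x, hx, rfl⟩
  have hm₂ : ∀ (η : MulAut K) (x : K), x ∈ C₂ → η x ∈ C₂ := by
    intro η x hx
    have h1 := Subgroup.characteristic_iff_map_le.1 hC₂ η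
    exact h1 ⟨x, hx, rfl⟩
  have hn : ∀ (x y : K), x ∈ C₁ → y * x * y⁻¹ ∈ C₁ := by
    intro x y hx
    exact hm₁ (MulAut.conj y) x hx
  have key : ∀ η : MulAut K, ∃ a : ℤ, ∀ c ∈ C₂, η c * (c ^ a)⁻¹ ∈ C₁ := by
    intro η
    obtain ⟨a, ha⟩ := hc₀ (η c₀) (hm₂ η c₀ hc₀')
    refine ⟨a, fun c hc => ?_⟩
    obtain ⟨k, hk⟩ := hc₀ c hc
    have hcomm : ∀ x ∈ C₂, ∀ y, x * y = y * x := fun x hx y =>
      ((Subgroup.mem_center_iff.1 (hle hx)) y).symm
    -- work in the quotient by `C₁`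
    let q : K →* K ⧸ C₁ := QuotientGroup.mk' C₁
    have hq : ∀ x, q x = 1 ↔ x ∈ C₁ := by
      intro x
      rw [← MonoidHom.mem_ker, QuotientGroup.ker_mk']
    have h1 : q (η c₀) = q c₀ ^ a := by
      rw [← hq, map_mul, map_inv, mul_inv_eq_one, map_zpow] at ha
      exact ha
    have h2 : q c = q c₀ ^ k := by
      rw [← hq, map_mul, map_inv, mul_inv_eq_one, map_zpow] at hk
      exact hk
    have h3 : q (η c) = q (η c₀) ^ k := by
      have h4 := hm₁ η _ hk
      rw [← hq, map_mul, map_inv, map_zpow, map_mul, map_inv, mul_inv_eq_one, map_zpow] at h4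
      exact h4
    rw [← hq, map_mul, map_inv, map_zpow, mul_inv_eq_one, h3, h1, h2, ← zpow_mul, ← zpow_mul,
      mul_comm]
  let q : K →* K ⧸ C₁ := QuotientGroup.mk' C₁
  have hq : ∀ x, q x = 1 ↔ x ∈ C₁ := by
    intro x
    rw [← MonoidHom.mem_ker, QuotientGroup.ker_mk']
  have hq' : ∀ x y, x * y⁻¹ ∈ C₁ ↔ q x = q y := by
    intro x y
    rw [← hq, map_mul, map_inv, mul_inv_eq_one]
  have hqη : ∀ (η : MulAut K) x y, q x = q y → q (η x) = q (η y) := by
    intro η x y h
    rw [← hq'] at h ⊢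
    have := hm₁ η _ h
    rwa [map_mul, map_inv] at this
  let T : Subgroup (MulAut K) :=
    { carrier := {η | ∀ c ∈ C₂, q (η c) = q c}
      one_mem' := fun c _ => rfl
      mul_mem' := fun {a b} ha hb c hc => by
        change q (a (b c)) = q c
        rw [ha _ (hm₂ b c hc), hb c hc]
      inv_mem' := fun {a} ha c hc => by
        have h1 := ha (a⁻¹ c) (hm₂ a⁻¹ c hc)
        have h2 : a (a⁻¹ c) = c := by
          change (a * a⁻¹) c = c
          rw [mul_inv_cancel]
          rfl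
        rw [h2] at h1
        exact h1.symm }
  have hT : commutator (MulAut K) ≤ T := by
    rw [commutator_def, Subgroup.commutator_le]
    intro η _ ζ _ c hc
    obtain ⟨a, ha⟩ := key η
    obtain ⟨b, hb⟩ := key ζ
    have hab : ∀ c ∈ C₂, q (η (ζ c)) = q (ζ (η c)) := by
      intro c hc
      have h1 := (hq' _ _).1 (hb c hc)
      have h2 := (hq' _ _).1 (ha c hc)
      have h3 := hqη η _ _ h1
      have h4 := hqη ζ _ _ h2
      rw [h3, h4, map_zpow, map_zpow, map_zpow, map_zpow, h1, h2, map_zpow, map_zpow, ← zpow_mul,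
        ← zpow_mul, mul_comm]
    let d : K := (η⁻¹ * ζ⁻¹) c
    have hd : d ∈ C₂ := hm₂ _ c hc
    have h1 : ⁅η, ζ⁆ c = η (ζ d) := by
      rw [commutatorElement_def]
      rfl
    have h2 : ζ (η d) = c := by
      change (ζ * η * (η⁻¹ * ζ⁻¹)) c = c
      have h3 : ζ * η * (η⁻¹ * ζ⁻¹) = 1 := by group
      rw [h3]
      rfl
    change q (⁅η, ζ⁆ c) = q c
    rw [h1, hab d hd, h2]
  exact (hq' _ _).2 (hT hθ c hc)

theorem act_mem_of_isIntegrable (hH : IsIntegrable H) (e : commutator H ≃* K) (h : H) :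
    act e h ∈ commutator (MulAut K) := by
  have h1 := map_mem_commutator ((MulAut.congr e).toMonoidHom.comp (resComm H)) (hH.conj_mem h)
  have h2 : (MulAut.congr e).toMonoidHom.comp (resComm H) (MulAut.conj h) = act e h := by
    have h3 : resComm H (MulAut.conj h) = cn H h := by
      ext d
      rw [resComm_apply, MulAut.conj_apply, cn_coe]
    rw [act_eq_congr, ← h3]
    rfl
  rw [h2] at h1
  exact h1

/-- If the centre of `K` has a cyclic characteristic section then every integrable group with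
derived subgroup `K` has a central element in its derived subgroup. -/
theorem center_of_isIntegrable [Finite K] (C₁ C₂ : Subgroup K) [hC₁ : C₁.Characteristic]
    [hC₂ : C₂.Characteristic] (hle : C₂ ≤ Subgroup.center K) (c₀ : K)
    (hc₀ : ∀ c ∈ C₂, ∃ k : ℤ, c * (c₀ ^ k)⁻¹ ∈ C₁) (hc₀' : c₀ ∈ C₂) (hne : ¬ C₂ ≤ C₁)
    (hH : IsIntegrable H) (e : commutator H ≃* K) :
    Subgroup.center H ⊓ commutator H ≠ ⊥ := by
  have hact : ∀ h, act e h ∈ commutator (MulAut K) := act_mem_of_isIntegrable hH e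
  let Γ : Set (Subgroup.center K →* Subgroup.center K) := {g | ∃ h : H, g = resCenter (act e h)}
  let iC : CommGroup (Subgroup.center K) :=
    { (inferInstance : Group (Subgroup.center K)) with
      mul_comm := fun a b => Subtype.ext ((Subgroup.mem_center_iff.1 b.2 a)) }
  have hex : ∃ u ∈ C₂.subgroupOf (Subgroup.center K), u ≠ 1 ∧ ∀ g ∈ Γ, g u = u := by
    refine exists_fixed (V := Subgroup.center K) Γ ?_ (C₁.subgroupOf (Subgroup.center K))
      (C₂.subgroupOf (Subgroup.center K)) ?_ ?_ ?_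
    · rintro _ ⟨h, rfl⟩ _ ⟨h', rfl⟩ z
      apply Subtype.ext
      change (act e h * act e h') z = (act e h' * act e h) z
      have h1 : ⁅act e h', act e h⁆ ∈ Inn K := by
        rw [← range_act_comm e]
        exact Subgroup.commutator_mem_commutator ⟨h', rfl⟩ ⟨h, rfl⟩
      obtain ⟨k, hk⟩ := h1
      have h2 : act e h' * act e h = ⁅act e h', act e h⁆ * (act e h * act e h') := by
        rw [commutatorElement_def]
        group
      rw [h2, ← hk]
      change _ = MulAut.conj k ((act e h * act e h') z)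
      rw [MulAut.conj_apply]
      have h3 := Subgroup.mem_center_iff.1 (map_mem_center (act e h * act e h') z.2) k
      rw [h3, mul_inv_cancel_right]
    · intro h
      apply hne
      intro x hx
      exact h (x := ⟨x, hle hx⟩) hx
    · rintro _ ⟨h, rfl⟩ w hw
      have h1 := Subgroup.characteristic_iff_map_le.1 hC₂ (act e h)
      exact h1 ⟨w, hw, rfl⟩
    · rintro _ ⟨h, rfl⟩ w hw
      exact comm_trivial_on_section C₁ C₂ hle c₀ hc₀ hc₀' (act e h) (hact h) w hw
  obtain ⟨u, hu, hu1, huf⟩ := hex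
  have hfix : ∀ h, act e h u = u := fun h => congrArg Subtype.val (huf _ ⟨h, rfl⟩)
  intro hbot
  apply hu1
  have h1 : ((e.symm (u : K) : commutator H) : H) ∈ Subgroup.center H ⊓ commutator H := by
    refine Subgroup.mem_inf.2 ⟨?_, (e.symm (u : K)).2⟩
    rw [Subgroup.mem_center_iff]
    intro h
    have h2 := act_apply e h u
    rw [hfix] at h2
    rw [eq_mul_inv_iff_mul_eq] at h2
    exact h2.symm
  rw [hbot, Subgroup.mem_bot] at h1
  have h2 : e.symm (u : K) = 1 := Subtype.ext h1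
  have h3 : (u : K) = 1 := by
    rw [← e.apply_symm_apply (u : K), h2, map_one]
  exact Subtype.ext h3

/-- The criterion when the centre of `K` has a cyclic characteristic section. -/
theorem propertyD_iff_of_section {G : Type} [Group G] [Finite G] (e : commutator G ≃* K)
    (C₁ C₂ : Subgroup K) [hC₁ : C₁.Characteristic]
    [hC₂ : C₂.Characteristic] (hle : C₂ ≤ Subgroup.center K) (c₀ : K)
    (hc₀ : ∀ c ∈ C₂, ∃ k : ℤ, c * (c₀ ^ k)⁻¹ ∈ C₁) (hc₀' : c₀ ∈ C₂) (hne : ¬ C₂ ≤ C₁) :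
    PropertyD G ↔ ¬ SecondDerived K := by
  have hfin : Finite K := Finite.of_equiv _ e.toEquiv
  constructor
  · rintro hD ⟨L, iL, fL, ⟨f⟩⟩
    have hI : IsIntegrable (commutator L) := ⟨L, iL, ⟨MulEquiv.refl _⟩⟩
    have h1 := center_of_isIntegrable C₁ C₂ hle c₀ hc₀ hc₀' hne hI f
    rcases (propertyD_iff e).1 hD with h2 | h2
    · exact h2 ⟨L, iL, fL, ⟨f⟩⟩
    · exact h1 (h2 (commutator L) f).1
  · exact propertyD_of_not_secondDerived e

/-- If `H` acts on its derived subgroup by inner automorphisms then the derived subgroup is the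
product of its derived subgroup and its centre. -/
theorem sup_eq_top_of_inner (e : commutator H ≃* K) (hin : ∀ h, act e h ∈ Inn K) :
    commutator K ⊔ Subgroup.center K = ⊤ := by
  have hdec : ∀ h : H, ∃ d ∈ commutator H, ∃ c : H, h = d * c ∧
      ∀ x ∈ commutator H, c * x = x * c := by
    intro h
    obtain ⟨k, hk⟩ := hin h
    refine ⟨e.symm k, (e.symm k).2, ((e.symm k : commutator H) : H)⁻¹ * h, ?_, ?_⟩
    · rw [mul_inv_cancel_left]
    · have h2 : act e (((e.symm k : commutator H) : H)⁻¹ * h) = 1 := by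
        rw [map_mul, map_inv, act_symm, hk, inv_mul_cancel]
      rw [act_eq_congr] at h2
      have h3 : cn H (((e.symm k : commutator H) : H)⁻¹ * h) = 1 := by
        apply (MulAut.congr e).injective
        rw [h2, map_one]
      intro x hx
      have h4 := cn_coe (((e.symm k : commutator H) : H)⁻¹ * h) ⟨x, hx⟩
      rw [h3] at h4
      rw [← mul_inv_eq_iff_eq_mul]
      exact h4.symm
  let W : Subgroup H :=
    ((commutator K ⊔ Subgroup.center K).map e.symm.toMonoidHom).map (commutator H).subtype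
  have hW : ∀ d : commutator H, e d ∈ commutator K ⊔ Subgroup.center K → (d : H) ∈ W := by
    intro d hd
    refine ⟨d, ⟨e d, hd, ?_⟩, rfl⟩
    exact e.symm_apply_apply d
  have hle : commutator H ≤ W := by
    rw [commutator_def, Subgroup.commutator_le]
    intro a _ b _
    obtain ⟨d, hd, c, rfl, hc⟩ := hdec a
    obtain ⟨d', hd', c', rfl, hc'⟩ := hdec b
    have h0 : ⁅c, c'⁆ ∈ commutator H :=
      Subgroup.commutator_mem_commutator (Subgroup.mem_top _) (Subgroup.mem_top _)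
    have h00 : ⁅d, d'⁆ ∈ commutator H :=
      Subgroup.commutator_mem_commutator (Subgroup.mem_top _) (Subgroup.mem_top _)
    have h1 : ⁅d * c, d' * c'⁆ = ⁅d, d'⁆ * ⁅c, c'⁆ := by
      rw [commutatorElement_def, commutatorElement_def, commutatorElement_def]
      have e1 : c * d' = d' * c := hc d' hd'
      have e2 : c' * d⁻¹ = d⁻¹ * c' := hc' _ ((commutator H).inv_mem hd)
      have e3 : c * d⁻¹ = d⁻¹ * c := hc _ ((commutator H).inv_mem hd)
      have e4 : c⁻¹ * d'⁻¹ = d'⁻¹ * c⁻¹ := by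
        rw [← mul_inv_rev, ← mul_inv_rev, e1]
      have e5 : c'⁻¹ * d'⁻¹ = d'⁻¹ * c'⁻¹ := by
        rw [← mul_inv_rev, ← mul_inv_rev, hc' d' hd']
      have e6 : c * (c' * (c⁻¹ * (d'⁻¹ * c'⁻¹))) = d'⁻¹ * (c * c' * c⁻¹ * c'⁻¹) := by
        have f1 : c' * d'⁻¹ = d'⁻¹ * c' := hc' _ ((commutator H).inv_mem hd')
        have f2 : c * d'⁻¹ = d'⁻¹ * c := hc _ ((commutator H).inv_mem hd')
        calc c * (c' * (c⁻¹ * (d'⁻¹ * c'⁻¹))) = c * (c' * ((c⁻¹ * d'⁻¹) * c'⁻¹)) := by group
          _ = c * (c' * ((d'⁻¹ * c⁻¹) * c'⁻¹)) := by rw [e4]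
          _ = c * ((c' * d'⁻¹) * (c⁻¹ * c'⁻¹)) := by group
          _ = c * ((d'⁻¹ * c') * (c⁻¹ * c'⁻¹)) := by rw [f1]
          _ = (c * d'⁻¹) * (c' * c⁻¹ * c'⁻¹) := by group
          _ = (d'⁻¹ * c) * (c' * c⁻¹ * c'⁻¹) := by rw [f2]
          _ = d'⁻¹ * (c * c' * c⁻¹ * c'⁻¹) := by group
      calc d * c * (d' * c') * (d * c)⁻¹ * (d' * c')⁻¹
          = d * ((c * d') * (c' * (c⁻¹ * d⁻¹) * (c'⁻¹ * d'⁻¹))) := by group
        _ = d * ((d' * c) * (c' * (c⁻¹ * d⁻¹) * (d'⁻¹ * c'⁻¹))) := by rw [e1, e5]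
        _ = d * (d' * (c * (c' * (c⁻¹ * d⁻¹))) * (d'⁻¹ * c'⁻¹)) := by group
        _ = d * (d' * (c * (c' * (d⁻¹ * c⁻¹))) * (d'⁻¹ * c'⁻¹)) := by
            have f3 : c⁻¹ * d⁻¹ = d⁻¹ * c⁻¹ := by
              rw [← mul_inv_rev, ← mul_inv_rev, hc d hd]
            rw [f3]
        _ = d * (d' * (c * ((c' * d⁻¹) * c⁻¹)) * (d'⁻¹ * c'⁻¹)) := by group
        _ = d * (d' * ((c * d⁻¹) * (c' * c⁻¹)) * (d'⁻¹ * c'⁻¹)) := by rw [e2]; group
        _ = d * (d' * ((d⁻¹ * c) * (c' * c⁻¹)) * (d'⁻¹ * c'⁻¹)) := by rw [e3]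
        _ = d * d' * d⁻¹ * (c * (c' * (c⁻¹ * (d'⁻¹ * c'⁻¹)))) := by group
        _ = d * d' * d⁻¹ * (d'⁻¹ * (c * c' * c⁻¹ * c'⁻¹)) := by rw [e6]
        _ = d * d' * d⁻¹ * d'⁻¹ * (c * c' * c⁻¹ * c'⁻¹) := by group
    have h2 : (⟨⁅d, d'⁆, h00⟩ : commutator H) = ⁅(⟨d, hd⟩ : commutator H), ⟨d', hd'⟩⁆ := by
      apply Subtype.ext
      rfl
    have h3 : e ⟨⁅d, d'⁆, h00⟩ ∈ commutator K := by
      rw [h2, map_commutatorElement]
      exact Subgroup.commutator_mem_commutator (Subgroup.mem_top _) (Subgroup.mem_top _)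
    have h4 : e ⟨⁅c, c'⁆, h0⟩ ∈ Subgroup.center K := by
      rw [Subgroup.mem_center_iff]
      intro k
      obtain ⟨x, rfl⟩ := e.surjective k
      rw [← map_mul, ← map_mul]
      congr 1
      apply Subtype.ext
      change (x : H) * ⁅c, c'⁆ = ⁅c, c'⁆ * x
      have f1 : c * (x : H) = x * c := hc x x.2
      have f2 : c' * (x : H) = x * c' := hc' x x.2
      have g1 : Commute (x : H) c := f1.symm
      have g2 : Commute (x : H) c' := f2.symm
      rw [commutatorElement_def]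
      exact ((g1.mul_right g2).mul_right g1.inv_right).mul_right g2.inv_right
    rw [h1]
    exact W.mul_mem (hW _ (Subgroup.mem_sup_left h3)) (hW _ (Subgroup.mem_sup_right h4))
  rw [eq_top_iff]
  intro k _
  obtain ⟨y, ⟨k', hk', hky⟩, hy⟩ := hle (e.symm k).2
  have h1 : y = e.symm k := Subtype.ext hy
  have h2 : e.symm k' = e.symm k := by
    rw [← h1, ← hky]
    rfl
  rw [← e.symm.injective h2]
  exact hk'

/-- If `Out K` is abelian and `K` is not the product of its derived subgroup and its centre then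
`K` is not a second derived subgroup. -/
theorem not_secondDerived_of_out_comm (hO : ∀ a b : MulAut K, ⁅a, b⁆ ∈ Inn K)
    (hK : commutator K ⊔ Subgroup.center K ≠ ⊤) : ¬ SecondDerived K := by
  rintro ⟨L, iL, fL, ⟨e⟩⟩
  have hI : IsIntegrable (commutator L) := ⟨L, iL, ⟨MulEquiv.refl _⟩⟩
  apply hK
  apply sup_eq_top_of_inner e
  intro h
  have h1 := act_mem_of_isIntegrable hI e h
  have h2 : commutator (MulAut K) ≤ Inn K := by
    rw [commutator_def, Subgroup.commutator_le]
    exact fun a _ b _ => hO a b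
  exact h2 h1

end

end Pool.H95I
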