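import Mathlib

/-!
# Central lifts of derived subgroups

`Lifts Γ B ρ`: the surjection `ρ : B → Γ'` from an abelian group extends to a surjection `Q → Γ` from a
group `Q` with `Q' ≅ B`. Here: the case in which `Γ'` is central.
-/

set_option autoImplicit false

namespace Pool.H95I

open scoped commutatorElement

/-- There are a group `Q`, an embedding of `B` in `Q` with image `Q'` and a surjection from `Q` onto `Γ`
extending `ρ`. -/
def Lifts (Γ B : Type) [Group Γ] [CommGroup B] (ρ : B →* Γ) : Prop :=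
  ∃ (Q : Type) (_ : Group Q) (π : Q →* Γ) (ι : B →* Q), Function.Surjective π ∧
    Function.Injective ι ∧ ι.range = commutator Q ∧ π.comp ι = ρ

/-- The central extension of `V` by `B` given by a bilinear map. -/
structure CG {V B : Type} [AddCommGroup V] [CommGroup B] (β : V →+ V →+ Additive B) where
  /-- the central coordinate -/
  b : B
  /-- the coordinate in the quotient -/
  v : V

namespace CG

variable {V B : Type} [AddCommGroup V] [CommGroup B] {β : V →+ V →+ Additive B}

@[ext] theorem ext' {x y : CG β} (h1 : x.b = y.b) (h2 : x.v = y.v) : x = y := by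
  cases x; cases y; simp_all

instance : Mul (CG β) := ⟨fun x y => ⟨x.b * y.b * (β x.v y.v).toMul, x.v + y.v⟩⟩
instance : One (CG β) := ⟨⟨1, 0⟩⟩
instance : Inv (CG β) := ⟨fun x => ⟨x.b⁻¹ * (β x.v x.v).toMul, -x.v⟩⟩

theorem mul_b (x y : CG β) : (x * y).b = x.b * y.b * (β x.v y.v).toMul := rfl
theorem mul_v (x y : CG β) : (x * y).v = x.v + y.v := rfl
theorem one_b : (1 : CG β).b = 1 := rfl
theorem one_v : (1 : CG β).v = 0 := rfl
theorem inv_b (x : CG β) : (x⁻¹).b = x.b⁻¹ * (β x.v x.v).toMul := rfl
theorem inv_v (x : CG β) : (x⁻¹).v = -x.v := rfl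

instance : Group (CG β) :=
  Group.ofLeftAxioms
    (by
      intro x y z
      apply ext'
      · simp only [mul_b, mul_v, map_add, AddMonoidHom.add_apply, toMul_add]
        simp only [mul_assoc, mul_comm, mul_left_comm]
      · simp only [mul_v, add_assoc])
    (by
      intro x
      apply ext'
      · simp [mul_b, one_b, one_v]
      · simp [mul_v, one_v])
    (by
      intro x
      apply ext'
      · simp [mul_b, one_b, inv_b, inv_v]
      · simp [mul_v, one_v, inv_v])

/-- The central embedding of `B`. -/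
def inB (β : V →+ V →+ Additive B) : B →* CG β where
  toFun b := ⟨b, 0⟩
  map_one' := rfl
  map_mul' x y := by
    apply ext'
    · simp [mul_b]
    · simp [mul_v]

theorem inB_b (b : B) : (inB β b).b = b := rfl
theorem inB_v (b : B) : (inB β b).v = 0 := rfl

theorem inB_central (b : B) (x : CG β) : inB β b * x = x * inB β b := by
  apply ext'
  · simp [mul_b, inB_b, inB_v, mul_comm]
  · simp [mul_v, inB_v]

theorem commutator_eq (v w : V) :
    ⁅(⟨1, v⟩ : CG β), (⟨1, w⟩ : CG β)⁆ = inB β ((β v w).toMul * ((β w v).toMul)⁻¹) := by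
  rw [commutatorElement_def, mul_inv_eq_iff_eq_mul, mul_inv_eq_iff_eq_mul]
  apply ext'
  · simp only [mul_b, mul_v, inB_b, inB_v, map_zero, AddMonoidHom.zero_apply, toMul_zero, one_mul,
      mul_one, mul_assoc]
    rw [mul_comm ((β v w).toMul), inv_mul_cancel, one_mul]
  · simp only [mul_v, inB_v, zero_add, add_comm w v]

end CG

section T

variable {Γ B : Type} [Group Γ] [CommGroup B]

/-- A bilinear map on a free abelian group with given values. -/
noncomputable def bil {X : Type} (t : X → X → Additive B) :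
    FreeAbelianGroup X →+ FreeAbelianGroup X →+ Additive B :=
  FreeAbelianGroup.lift fun x => FreeAbelianGroup.lift fun y => t x y

theorem bil_of {X : Type} (t : X → X → Additive B) (x y : X) :
    bil t (FreeAbelianGroup.of x) (FreeAbelianGroup.of y) = t x y := by
  simp [bil]

theorem closure_commute {G : Type} [Group G] (J : Subgroup G) [J.Normal] (S : Set G)
    (h : ∀ s ∈ S, ∀ t ∈ S, ⁅s, t⁆ ∈ J) : ⁅Subgroup.closure S, Subgroup.closure S⁆ ≤ J := by
  have key : ∀ a b : G, ⁅a, b⁆ ∈ J ↔
      (QuotientGroup.mk' J a) * (QuotientGroup.mk' J b) =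
        (QuotientGroup.mk' J b) * (QuotientGroup.mk' J a) := by
    intro a b
    rw [← commutatorElement_eq_one_iff_mul_comm, ← map_commutatorElement, ← MonoidHom.mem_ker,
      QuotientGroup.ker_mk']
  have h1 : ∀ s ∈ S, ∀ b ∈ Subgroup.closure S, ⁅s, b⁆ ∈ J := by
    intro s hs b hb
    have h2 : Subgroup.closure S ≤
        (Subgroup.centralizer {QuotientGroup.mk' J s}).comap (QuotientGroup.mk' J) := by
      rw [Subgroup.closure_le]
      intro t ht
      rw [SetLike.mem_coe, Subgroup.mem_comap, Subgroup.mem_centralizer_iff]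
      intro x hx
      rw [Set.mem_singleton_iff] at hx
      rw [hx]
      exact (key s t).1 (h s hs t ht)
    have h3 := h2 hb
    rw [Subgroup.mem_comap, Subgroup.mem_centralizer_iff] at h3
    exact (key s b).2 (h3 _ rfl)
  rw [Subgroup.commutator_le]
  intro a ha b hb
  have h2 : Subgroup.closure S ≤
      (Subgroup.centralizer {QuotientGroup.mk' J b}).comap (QuotientGroup.mk' J) := by
    rw [Subgroup.closure_le]
    intro t ht
    rw [SetLike.mem_coe, Subgroup.mem_comap, Subgroup.mem_centralizer_iff]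
    intro x hx
    rw [Set.mem_singleton_iff] at hx
    rw [hx]
    exact ((key t b).1 (h1 t ht b hb)).symm
  have h3 := h2 ha
  rw [Subgroup.mem_comap, Subgroup.mem_centralizer_iff] at h3
  exact (key a b).2 (h3 _ rfl).symm

/-- The central case. -/
theorem lifts_of_central (ρ : B →* Γ) (hρ : ρ.range = commutator Γ)
    (hc : ∀ (b : B) (γ : Γ), ρ b * γ = γ * ρ b) : Lifts Γ B ρ := by
  classical
  let X : Type := Γ ⊕ (ρ.ker × Bool)
  let pr : X → Γ := Sum.elim (fun γ => γ) (fun _ => 1)
  have hex : ∀ x y : X, ∃ b : B, ρ b = ⁅pr x, pr y⁆ := by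
    intro x y
    have : ⁅pr x, pr y⁆ ∈ ρ.range := by
      rw [hρ]
      exact Subgroup.commutator_mem_commutator (Subgroup.mem_top _) (Subgroup.mem_top _)
    exact this
  choose h0 hh0 using hex
  let h : X → X → B := fun x y =>
    match x, y with
    | Sum.inr c, Sum.inr d => if c.1 = d.1 then (c.1 : B) else 1
    | _, _ => h0 x y
  have hh : ∀ x y : X, ρ (h x y) = ⁅pr x, pr y⁆ := by
    intro x y
    rcases x with x | c
    · exact hh0 _ _
    · rcases y with y | d
      · exact hh0 _ _
      · have h1 : h (Sum.inr c) (Sum.inr d) = if c.1 = d.1 then (c.1 : B) else 1 := rfl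
        have h2 : ⁅pr (Sum.inr c), pr (Sum.inr d)⁆ = (1 : Γ) := by
          change ⁅(1 : Γ), (1 : Γ)⁆ = 1
          simp
        rw [h1, h2]
        split_ifs
        · exact (MonoidHom.mem_ker).1 c.1.2
        · exact map_one ρ
  let _ : LinearOrder X := linearOrderOfSTO (WellOrderingRel (α := X))
  let t : X → X → Additive B := fun x y => if x < y then Additive.ofMul (h x y) else 0
  let β := bil t
  let E := CG β
  let g : X → Γ × E := fun x => (pr x, ⟨1, FreeAbelianGroup.of x⟩)
  let s : X → X → B := fun x y => (t x y).toMul * ((t y x).toMul)⁻¹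
  have hgs : ∀ x y, ⁅g x, g y⁆ = (⁅pr x, pr y⁆, CG.inB β (s x y)) := by
    intro x y
    have h1 : ⁅g x, g y⁆ = (⁅pr x, pr y⁆,
        ⁅(⟨1, FreeAbelianGroup.of x⟩ : E), (⟨1, FreeAbelianGroup.of y⟩ : E)⁆) := rfl
    rw [h1, CG.commutator_eq]
    change _ = (⁅pr x, pr y⁆, CG.inB β ((t x y).toMul * ((t y x).toMul)⁻¹))
    rw [show β (FreeAbelianGroup.of x) (FreeAbelianGroup.of y) = t x y from bil_of t x y,
      show β (FreeAbelianGroup.of y) (FreeAbelianGroup.of x) = t y x from bil_of t y x]
  have hslt : ∀ x y, x < y → s x y = h x y := by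
    intro x y hxy
    change (t x y).toMul * ((t y x).toMul)⁻¹ = _
    have h1 : t x y = Additive.ofMul (h x y) := if_pos hxy
    have h2 : t y x = 0 := if_neg (not_lt.2 hxy.le)
    rw [h1, h2]; simp
  have hsgt : ∀ x y, y < x → s x y = (h y x)⁻¹ := by
    intro x y hxy
    change (t x y).toMul * ((t y x).toMul)⁻¹ = _
    have h1 : t y x = Additive.ofMul (h y x) := if_pos hxy
    have h2 : t x y = 0 := if_neg (not_lt.2 hxy.le)
    rw [h1, h2]; simp
  have hsρ : ∀ x y, ρ (s x y) = ⁅pr x, pr y⁆ := by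
    intro x y
    rcases lt_trichotomy x y with hxy | hxy | hxy
    · rw [hslt x y hxy, hh]
    · subst hxy
      have : s x x = 1 := by
        change (t x x).toMul * ((t x x).toMul)⁻¹ = 1
        simp
      rw [this, map_one, commutatorElement_self]
    · rw [hsgt x y hxy, map_inv, hh, commutatorElement_inv]
  let j : B →* Γ × E := MonoidHom.prod ρ (CG.inB β)
  have hj : ∀ b, j b = (ρ b, CG.inB β b) := fun _ => rfl
  have hjc : ∀ b (q : Γ × E), j b * q = q * j b := by
    rintro b ⟨γ, e⟩
    rw [hj, Prod.mk_mul_mk, Prod.mk_mul_mk, hc, CG.inB_central]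
  have hjinj : Function.Injective j := by
    intro b c hbc
    have := congrArg (fun q => (Prod.snd q).b) hbc
    exact this
  have hJ : j.range.Normal := by
    refine ⟨?_⟩
    rintro _ ⟨b, rfl⟩ q
    refine ⟨b, ?_⟩
    rw [← hjc, mul_assoc, mul_inv_cancel, mul_one]
  let Q : Subgroup (Γ × E) := Subgroup.closure (Set.range g)
  have hD : ⁅Q, Q⁆ = j.range := by
    apply le_antisymm
    · apply closure_commute
      rintro _ ⟨x, rfl⟩ _ ⟨y, rfl⟩
      exact ⟨s x y, by rw [hj, hgs, hsρ]⟩
    · let B1 : Subgroup B := ⁅Q, Q⁆.comap j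
      have hs1 : ∀ x y, s x y ∈ B1 := by
        intro x y
        change j (s x y) ∈ ⁅Q, Q⁆
        rw [hj, hsρ, ← hgs]
        exact Subgroup.commutator_mem_commutator (Subgroup.subset_closure ⟨x, rfl⟩)
          (Subgroup.subset_closure ⟨y, rfl⟩)
      have hker : ρ.ker ≤ B1 := by
        intro c hc'
        have hne : (Sum.inr (⟨c, hc'⟩, false) : X) ≠ Sum.inr (⟨c, hc'⟩, true) := by simp
        have hh1 : ∀ i j : Bool, h (Sum.inr (⟨c, hc'⟩, i)) (Sum.inr (⟨c, hc'⟩, j)) = c := by
          intro i j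
          change (if (⟨c, hc'⟩ : ρ.ker) = ⟨c, hc'⟩ then c else 1) = c
          rw [if_pos rfl]
        rcases lt_or_gt_of_ne hne with hlt | hlt
        · have := hs1 (Sum.inr (⟨c, hc'⟩, false)) (Sum.inr (⟨c, hc'⟩, true))
          rwa [hslt _ _ hlt, hh1] at this
        · have := hs1 (Sum.inr (⟨c, hc'⟩, true)) (Sum.inr (⟨c, hc'⟩, false))
          rwa [hslt _ _ hlt, hh1] at this
      have himg : commutator Γ ≤ B1.map ρ := by
        rw [commutator_def, Subgroup.commutator_le]
        intro γ _ δ _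
        exact ⟨s (Sum.inl γ) (Sum.inl δ), hs1 _ _, hsρ _ _⟩
      rintro _ ⟨b, rfl⟩
      have h1 : ρ b ∈ commutator Γ := by rw [← hρ]; exact ⟨b, rfl⟩
      obtain ⟨c, hc1, hc2⟩ := himg h1
      have h2 : b * c⁻¹ ∈ B1 := by
        apply hker
        rw [MonoidHom.mem_ker, map_mul, map_inv, hc2, mul_inv_cancel]
      have h3 : b ∈ B1 := by
        have := B1.mul_mem h2 hc1
        rwa [inv_mul_cancel_right] at this
      exact h3
  have hJQ : ∀ b, j b ∈ Q := by
    intro b
    have h1 : j b ∈ ⁅Q, Q⁆ := by rw [hD]; exact ⟨b, rfl⟩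
    exact Subgroup.commutator_le_self Q h1
  refine ⟨Q, inferInstance, (MonoidHom.fst Γ E).comp Q.subtype, j.codRestrict Q hJQ, ?_, ?_, ?_, ?_⟩
  · intro γ
    exact ⟨⟨g (Sum.inl γ), Subgroup.subset_closure ⟨_, rfl⟩⟩, rfl⟩
  · intro b c hbc
    exact hjinj (congrArg Subtype.val hbc)
  · apply Subgroup.map_injective Q.subtype_injective
    rw [Subgroup.map_subtype_commutator, hD]
    ext x
    constructor
    · rintro ⟨_, ⟨b, rfl⟩, rfl⟩
      exact ⟨b, rfl⟩
    · rintro ⟨b, rfl⟩
      exact ⟨_, ⟨b, rfl⟩, rfl⟩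
  · rfl

end T

end Pool.H95I
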