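import Pool.Agent.Lib.H95I.Centre

/-!
# Consequences of the exact criterion
-/

set_option autoImplicit false

namespace Pool.H95I

open scoped commutatorElement
open Pool.Helper71.Integ

section

variable {K H : Type} [Group K] [Group H]

theorem center_inf_of_centreless (e : commutator H ≃* K) (hZ : Subgroup.center K = ⊥) :
    Subgroup.center H ⊓ commutator H = ⊥ := by
  rw [eq_bot_iff]
  intro z hz
  obtain ⟨hz1, hz2⟩ := Subgroup.mem_inf.1 hz
  have h1 : e ⟨z, hz2⟩ ∈ Subgroup.center K := by
    rw [Subgroup.mem_center_iff]
    intro k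
    obtain ⟨x, rfl⟩ := e.surjective k
    rw [← map_mul, ← map_mul]
    congr 1
    exact Subtype.ext (Subgroup.mem_center_iff.1 hz1 x)
  rw [hZ, Subgroup.mem_bot] at h1
  have h2 : (⟨z, hz2⟩ : commutator H) = 1 := by
    apply e.injective
    rw [h1, map_one]
  exact Subgroup.mem_bot.2 (congrArg Subtype.val h2)

theorem conj_injective (hZ : Subgroup.center K = ⊥) :
    Function.Injective (MulAut.conj : K →* MulAut K) := by
  rw [injective_iff_map_eq_one]
  intro k hk
  have h1 : k ∈ Subgroup.center K := by
    rw [Subgroup.mem_center_iff]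
    intro x
    have h2 : MulAut.conj k x = x := by rw [hk]; rfl
    rw [MulAut.conj_apply] at h2
    exact (mul_inv_eq_iff_eq_mul.1 h2).symm
  rw [hZ, Subgroup.mem_bot] at h1
  exact h1

/-- For centreless `K` every group `M` of automorphisms with `M' = Inn K` is its own action. -/
theorem exists_equiv (hZ : Subgroup.center K = ⊥) (M : Subgroup (MulAut K))
    (hM : ⁅M, M⁆ = Inn K) : ∃ e : commutator M ≃* K, (act e).range = M := by
  have h0 : (commutator M).map M.subtype = Inn K := by
    rw [Subgroup.map_subtype_commutator, hM]
  let e : commutator M ≃* K :=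
    ((Subgroup.equivMapOfInjective (commutator M) M.subtype M.subtype_injective).trans
      (MulEquiv.subgroupCongr h0)).trans (MonoidHom.ofInjective (conj_injective hZ)).symm
  have he : ∀ k : K, (((e.symm k : commutator M) : M) : MulAut K) = MulAut.conj k := by
    intro k
    let y : commutator M := e.symm k
    have h1 : (MonoidHom.ofInjective (conj_injective hZ)) (e y) =
        (MulEquiv.subgroupCongr h0)
          ((Subgroup.equivMapOfInjective (commutator M) M.subtype M.subtype_injective) y) := by
      change (MonoidHom.ofInjective (conj_injective hZ))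
        ((MonoidHom.ofInjective (conj_injective hZ)).symm _) = _
      rw [MulEquiv.apply_symm_apply]
      rfl
    have h2 : e y = k := e.apply_symm_apply k
    have h3 := congrArg (fun t : Inn K => (t : MulAut K)) h1
    simp only [h2] at h3
    exact h3.symm
  have hact : ∀ m : M, act e m = (m : MulAut K) := by
    intro m
    rw [act_eq_iff]
    intro k
    apply Subtype.ext
    rw [he]
    change MulAut.conj ((m : MulAut K) k) =
      (m : MulAut K) * (((e.symm k : commutator M) : M) : MulAut K) * (m : MulAut K)⁻¹
    rw [he]
    ext x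
    simp [MulAut.conj_apply]
  refine ⟨e, ?_⟩
  ext θ
  constructor
  · rintro ⟨m, rfl⟩
    rw [hact]
    exact m.2
  · intro hθ
    exact ⟨⟨θ, hθ⟩, hact _⟩

theorem outAct_range (e : commutator H ≃* K) :
    (outAct e).range = (act e).range.map (mkOut K) := MonoidHom.range_comp _ _

/-- An integrable group acts on its derived subgroup as the derived subgroup of a group of
automorphisms. -/
theorem exists_of_isIntegrable (hH : IsIntegrable H) (e : commutator H ≃* K) :
    ∃ N : Subgroup (MulAut K), ⁅N, N⁆ = (act e).range := by
  obtain ⟨N, hN⟩ := hH.exists_subgroup ((MulAut.congr e).toMonoidHom.comp (resComm H))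
  refine ⟨N, ?_⟩
  rw [hN]
  have h1 : ((MulAut.congr e).toMonoidHom.comp (resComm H)).comp MulAut.conj = act e := by
    ext h k
    have h2 : resComm H (MulAut.conj h) (e.symm k) = MulAut.conjNormal h (e.symm k) := by
      apply Subtype.ext
      rw [resComm_apply, MulAut.conj_apply, MulAut.conjNormal_apply]
    have h3 : ((MulAut.congr e).toMonoidHom.comp (resComm H)).comp MulAut.conj h k =
        e (resComm H (MulAut.conj h) (e.symm k)) := rfl
    rw [h3, h2]
    rfl
  rw [h1]

/-- A centreless finite group is a second derived subgroup if and only if its inner automorphism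
group is one in the automorphism group. -/
theorem secondDerived_iff_centreless [Finite K] (hZ : Subgroup.center K = ⊥) :
    SecondDerived K ↔ ∃ M N : Subgroup (MulAut K), ⁅M, M⁆ = Inn K ∧ ⁅N, N⁆ = M := by
  constructor
  · rintro ⟨L, iL, fL, ⟨e⟩⟩
    have hI : IsIntegrable (commutator L) := ⟨L, iL, ⟨MulEquiv.refl _⟩⟩
    obtain ⟨N, hN⟩ := exists_of_isIntegrable hI e
    exact ⟨_, N, range_act_comm e, hN⟩
  · rintro ⟨M, N, hM, hN⟩
    have hf1 : Finite (MulAut K) :=
      Finite.of_injective (fun f : MulAut K => (f : K → K)) DFunLike.coe_injective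
    obtain ⟨e, -⟩ := exists_equiv hZ M hM
    have h0 : (commutator N).map N.subtype = M := by
      rw [Subgroup.map_subtype_commutator, hN]
    let f : commutator N ≃* M :=
      (Subgroup.equivMapOfInjective (commutator N) N.subtype N.subtype_injective).trans
        (MulEquiv.subgroupCongr h0)
    obtain ⟨g⟩ := Pool.H88D.comm_equiv f
    exact ⟨N, inferInstance, inferInstance, ⟨g.trans e⟩⟩

end

section

variable {G K : Type} [Group G] [Finite G] [Group K]

/-- The criterion for centreless `K`. -/
theorem propertyD_iff_centreless (e : commutator G ≃* K) (hZ : Subgroup.center K = ⊥) :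
    PropertyD G ↔
      (∀ M N : Subgroup (MulAut K), ⁅M, M⁆ = Inn K → ⁅N, N⁆ ≠ M) ∨
      ∀ M : Subgroup (MulAut K), ⁅M, M⁆ = Inn K → CoverLifts (M.map (mkOut K)) := by
  have hfin : Finite K := Finite.of_equiv _ e.toEquiv
  have hf1 : Finite (MulAut K) :=
    Finite.of_injective (fun f : MulAut K => (f : K → K)) DFunLike.coe_injective
  have hs : ¬ SecondDerived K ↔
      ∀ M N : Subgroup (MulAut K), ⁅M, M⁆ = Inn K → ⁅N, N⁆ ≠ M := by
    rw [secondDerived_iff_centreless hZ]
    push Not
    rfl
  rw [propertyD_iff e, hs]
  apply or_congr Iff.rfl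
  constructor
  · intro h M hM
    obtain ⟨f, hf⟩ := exists_equiv hZ M hM
    have h1 := (h M f).2
    rwa [outAct_range, hf] at h1
  · intro h H _ _ f
    refine ⟨center_inf_of_centreless f hZ, ?_⟩
    rw [outAct_range]
    exact h _ (range_act_comm f)

end

end Pool.H95I
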