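import Mathlib

/-!
# Commuting endomorphisms of finite abelian groups
-/

set_option autoImplicit false

namespace Pool.H95I

section

variable {V : Type} [CommGroup V]

/-- The map `g - 1`. -/
def dif (g : V →* V) : V →* V where
  toFun v := g v * v⁻¹
  map_one' := by rw [map_one, inv_one, mul_one]
  map_mul' a b := by
    rw [map_mul, mul_inv, mul_mul_mul_comm]

theorem dif_apply (g : V →* V) (v : V) : dif g v = g v * v⁻¹ := rfl

theorem dif_iter_mem {W : Subgroup V} {g : V →* V} (hg : ∀ w ∈ W, g w ∈ W) (n : ℕ) {w : V}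
    (hw : w ∈ W) : (dif g)^[n] w ∈ W := by
  induction n with
  | zero => exact hw
  | succ n ih =>
    rw [Function.iterate_succ_apply', dif_apply]
    exact W.mul_mem (hg _ ih) (W.inv_mem ih)

theorem dif_comm {g g' : V →* V} (h : ∀ v, g (g' v) = g' (g v)) (v : V) :
    dif g (g' v) = g' (dif g v) := by
  rw [dif_apply, dif_apply, map_mul, map_inv, h]

theorem dif_iter_comm {g g' : V →* V} (h : ∀ v, g (g' v) = g' (g v)) (n : ℕ) (v : V) :
    (dif g)^[n] (g' v) = g' ((dif g)^[n] v) := by
  induction n with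
  | zero => rfl
  | succ n ih =>
    rw [Function.iterate_succ_apply', ih, dif_comm h, Function.iterate_succ_apply']

/-- Commuting unipotent endomorphisms have a common fixed point. -/
theorem exists_fixed_of_nil [Finite V] (Γ : Set (V →* V))
    (hΓ : ∀ g ∈ Γ, ∀ g' ∈ Γ, ∀ v, g (g' v) = g' (g v)) (W : Subgroup V) (hW : W ≠ ⊥)
    (hinv : ∀ g ∈ Γ, ∀ w ∈ W, g w ∈ W) (hnil : ∀ g ∈ Γ, ∃ n, ∀ w ∈ W, (dif g)^[n] w = 1) :
    ∃ u ∈ W, u ≠ 1 ∧ ∀ g ∈ Γ, g u = u := by
  induction W using WellFoundedLT.induction with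
  | ind W ih =>
    by_cases hall : ∀ g ∈ Γ, ∀ w ∈ W, g w = w
    · obtain ⟨u, hu⟩ := Subgroup.ne_bot_iff_exists_ne_one.1 hW
      exact ⟨u, u.2, fun h => hu (Subtype.ext h), fun g hg => hall g hg u u.2⟩
    · push Not at hall
      obtain ⟨g, hg, w, hw, hgw⟩ := hall
      have hlt : W ⊓ (dif g).ker < W := by
        refine lt_of_le_of_ne inf_le_left ?_
        intro h
        have h1 : w ∈ (dif g).ker := by
          have : w ∈ W ⊓ (dif g).ker := by rw [h]; exact hw
          exact this.2
        rw [MonoidHom.mem_ker, dif_apply, mul_inv_eq_one] at h1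
        exact hgw h1
      have hne : W ⊓ (dif g).ker ≠ ⊥ := by
        classical
        have hex := hnil g hg
        have h0 := Nat.find_spec hex
        have hmin := fun m => @Nat.find_min _ _ hex m
        generalize Nat.find hex = n at h0 hmin
        cases n with
        | zero =>
          exfalso
          apply hW
          rw [eq_bot_iff]
          intro x hx
          exact Subgroup.mem_bot.2 (h0 x hx)
        | succ n =>
          have h1 := hmin n (Nat.lt_succ_self n)
          push Not at h1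
          obtain ⟨x, hx, hx1⟩ := h1
          intro hbot
          apply hx1
          have h2 : (dif g)^[n] x ∈ W ⊓ (dif g).ker := by
            refine Subgroup.mem_inf.2 ⟨dif_iter_mem (hinv g hg) n hx, ?_⟩
            rw [MonoidHom.mem_ker]
            have h2 := h0 x hx
            rw [Function.iterate_succ_apply'] at h2
            exact h2
          rw [hbot] at h2
          exact Subgroup.mem_bot.1 h2
      obtain ⟨u, hu, hu1, huf⟩ := ih _ hlt hne
        (by
          intro g' hg' x hxx
          obtain ⟨hx, hxk⟩ := Subgroup.mem_inf.1 hxx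
          refine Subgroup.mem_inf.2 ⟨hinv g' hg' x hx, ?_⟩
          rw [MonoidHom.mem_ker] at hxk ⊢
          rw [dif_comm (hΓ g hg g' hg'), hxk, map_one])
        (by
          intro g' hg'
          obtain ⟨n, hn⟩ := hnil g' hg'
          exact ⟨n, fun x hx => hn x hx.1⟩)
      exact ⟨u, hu.1, hu1, huf⟩

/-- Commuting endomorphisms that act trivially on a section have a common fixed point. -/
theorem exists_fixed [Finite V] (Γ : Set (V →* V))
    (hΓ : ∀ g ∈ Γ, ∀ g' ∈ Γ, ∀ v, g (g' v) = g' (g v)) (V₁ W : Subgroup V) (hW : ¬ W ≤ V₁)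
    (hinv : ∀ g ∈ Γ, ∀ w ∈ W, g w ∈ W) (htriv : ∀ g ∈ Γ, ∀ w ∈ W, g w * w⁻¹ ∈ V₁) :
    ∃ u ∈ W, u ≠ 1 ∧ ∀ g ∈ Γ, g u = u := by
  induction W using WellFoundedLT.induction with
  | ind W ih =>
    by_cases hall : ∀ g ∈ Γ, ∃ n, ∀ w ∈ W, (dif g)^[n] w = 1
    · refine exists_fixed_of_nil Γ hΓ W ?_ hinv hall
      rintro rfl
      exact hW bot_le
    · push Not at hall
      obtain ⟨g, hg, hgn⟩ := hall
      have hpow : ∀ n : ℕ, ∃ f : V →* V, ∀ v, f v = (dif g)^[n] v := by
        intro n
        induction n with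
        | zero => exact ⟨MonoidHom.id V, fun _ => rfl⟩
        | succ n ihn =>
          obtain ⟨f, hf⟩ := ihn
          refine ⟨(dif g).comp f, fun v => ?_⟩
          rw [MonoidHom.comp_apply, hf, Function.iterate_succ_apply']
      choose f hf using hpow
      have hanti : Antitone fun n => W.map (f n) := by
        apply antitone_nat_of_succ_le
        rintro n _ ⟨w, hw, rfl⟩
        refine ⟨dif g w, ?_, ?_⟩
        · exact dif_iter_mem (hinv g hg) 1 hw
        · rw [hf, hf, ← Function.iterate_succ_apply]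
      obtain ⟨n₀, hn₀⟩ := WellFoundedGT.monotone_chain_condition
        (α := (Subgroup V)ᵒᵈ) ⟨fun n => OrderDual.toDual (W.map (f n)), hanti⟩
      have hst : ∀ m, n₀ ≤ m → W.map (f n₀) = W.map (f m) := fun m hm =>
        OrderDual.toDual.injective (hn₀ m hm)
      let n := n₀ + 1
      have hlt : W ⊓ (f n).ker < W := by
        refine lt_of_le_of_ne inf_le_left ?_
        intro h
        obtain ⟨w, hw, hw1⟩ := hgn n
        have h1 : w ∈ (f n).ker := by
          have : w ∈ W ⊓ (f n).ker := by rw [h]; exact hw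
          exact this.2
        rw [MonoidHom.mem_ker, hf] at h1
        exact hw1 h1
      have hnot : ¬ W ⊓ (f n).ker ≤ V₁ := by
        intro hle
        apply hW
        intro w hw
        have h1 : f n w ∈ W.map (f (n + n)) := by
          rw [← hst (n + n) (by omega), hst n (by omega)]
          exact ⟨w, hw, rfl⟩
        obtain ⟨x, hx, hxw⟩ := h1
        have h2 : f n x ∈ V₁ := by
          rw [hf, Function.iterate_succ_apply', dif_apply]
          exact htriv g hg _ (dif_iter_mem (hinv g hg) n₀ hx)
        have h3 : f n x ∈ W := by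
          rw [hf]
          exact dif_iter_mem (hinv g hg) n hx
        have h4 : w * (f n x)⁻¹ ∈ W ⊓ (f n).ker := by
          refine Subgroup.mem_inf.2 ⟨W.mul_mem hw (W.inv_mem h3), ?_⟩
          rw [MonoidHom.mem_ker, map_mul, map_inv, mul_inv_eq_one, ← hxw]
          rw [hf, hf, hf, ← Function.iterate_add_apply]
        have h5 := V₁.mul_mem (hle h4) h2
        rwa [inv_mul_cancel_right] at h5
      obtain ⟨u, hu, hu1, huf⟩ := ih _ hlt hnot
        (by
          intro g' hg' x hxx
          obtain ⟨hx, hxk⟩ := Subgroup.mem_inf.1 hxx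
          refine Subgroup.mem_inf.2 ⟨hinv g' hg' x hx, ?_⟩
          rw [MonoidHom.mem_ker] at hxk ⊢
          rw [hf] at hxk ⊢
          rw [dif_iter_comm (hΓ g hg g' hg'), hxk, map_one])
        (fun g' hg' x hx => htriv g' hg' x hx.1)
      exact ⟨u, hu.1, hu1, huf⟩

omit [CommGroup V] in
/-- Some power of an endomorphism of a finite group is idempotent. -/
theorem exists_idem [Finite V] (f : V → V) :
    ∃ k, ∀ v, f^[(k + 1) + (k + 1)] v = f^[k + 1] v := by
  have h1 : ¬ Function.Injective fun n : ℕ => f^[n] := not_injective_infinite_finite _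
  simp only [Function.Injective] at h1
  push Not at h1
  obtain ⟨a, b, hab, hne⟩ := h1
  wlog hlt : a < b generalizing a b
  · exact this b a hab.symm hne.symm (by omega)
  obtain ⟨d, rfl⟩ := Nat.exists_eq_add_of_lt hlt
  have h2 : ∀ t m, a ≤ m → f^[m + (d + 1) * t] = f^[m] := by
    intro t
    induction t with
    | zero => intro m _; rfl
    | succ t ih =>
      intro m hm
      obtain ⟨s, rfl⟩ := Nat.exists_eq_add_of_le hm
      have h3 : a + s + (d + 1) * (t + 1) = (s + (d + 1) * t) + (a + d + 1) := by ring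
      have h4 : a + s + (d + 1) * t = (s + (d + 1) * t) + a := by ring
      rw [h3, Function.iterate_add, ← hab, ← Function.iterate_add, ← h4]
      exact ih _ (by omega)
  refine ⟨(d + 1) * (a + 1) - 1, fun v => ?_⟩
  have h5 : (d + 1) * (a + 1) - 1 + 1 = (d + 1) * (a + 1) :=
    Nat.sub_add_cancel (Nat.mul_pos (Nat.succ_pos d) (Nat.succ_pos a))
  rw [h5, h2 (a + 1) ((d + 1) * (a + 1)) (by nlinarith)]

/-- If commuting endomorphisms of a finite abelian group have no common fixed point then the
identity lies in every set of endomorphisms that is closed under products and under composition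
with equivariant endomorphisms and contains the maps `g - 1`. -/
theorem id_mem_of_ideal [Finite V] (Γ : Set (V →* V))
    (hΓ : ∀ g ∈ Γ, ∀ g' ∈ Γ, ∀ v, g (g' v) = g' (g v))
    (hfix : ∀ v, (∀ g ∈ Γ, g v = v) → v = 1) (J : (V →* V) → Prop) (h1 : J 1)
    (hmul : ∀ a b, J a → J b → J (a * b))
    (hcomp : ∀ ψ j : V →* V, (∀ g ∈ Γ, ∀ v, ψ (g v) = g (ψ v)) → J j → J (ψ.comp j))
    (hdif : ∀ g ∈ Γ, J (dif g)) : J (MonoidHom.id V) := by
  have hfin : Finite (V →* V) :=
    Finite.of_injective (fun f : V →* V => (f : V → V)) DFunLike.coe_injective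
  have key : ∀ S : Set (V →* V), S.Finite → S ⊆ Γ → ∃ ψ j : V →* V,
      (∀ g ∈ Γ, ∀ v, ψ (g v) = g (ψ v)) ∧ J j ∧ (∀ v, j v = v * (ψ v)⁻¹) ∧
        ∀ g ∈ S, ∃ n, ∀ v, (dif g)^[n] (ψ v) = 1 := by
    intro S hS
    induction S, hS using Set.Finite.induction_on with
    | empty =>
      intro _
      exact ⟨MonoidHom.id V, 1, fun _ _ _ => rfl, h1, fun v => (mul_inv_cancel v).symm,
        fun g hg => absurd hg (Set.notMem_empty g)⟩
    | @insert g S hgS hS ih =>
      intro hsub
      obtain ⟨ψ, j, hψ, hj, hjψ, hn⟩ := ih (fun x hx => hsub (Set.mem_insert_of_mem g hx))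
      have hg : g ∈ Γ := hsub (Set.mem_insert g S)
      have hpow : ∀ n : ℕ, ∃ f : V →* V, ∀ v, f v = (dif g)^[n] v := by
        intro n
        induction n with
        | zero => exact ⟨MonoidHom.id V, fun _ => rfl⟩
        | succ n ihn =>
          obtain ⟨f, hf⟩ := ihn
          refine ⟨(dif g).comp f, fun v => ?_⟩
          rw [MonoidHom.comp_apply, hf, Function.iterate_succ_apply']
      choose f hf using hpow
      have hfeq : ∀ n, ∀ g' ∈ Γ, ∀ v, f n (g' v) = g' (f n v) := by
        intro n g' hg' v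
        rw [hf, hf]
        exact dif_iter_comm (hΓ g hg g' hg') n v
      obtain ⟨k, hk⟩ := exists_idem (dif g : V → V)
      have hE : J (f (k + 1)) := by
        have h2 : f (k + 1) = (f k).comp (dif g) := by
          ext v
          rw [MonoidHom.comp_apply, hf, hf, Function.iterate_succ_apply]
        rw [h2]
        exact hcomp _ _ (hfeq k) (hdif g hg)
      have hEE : ∀ v, f (k + 1) (f (k + 1) v) = f (k + 1) v := by
        intro v
        rw [hf, hf, ← Function.iterate_add_apply]
        exact hk v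
      have hψf : ∀ n v, ψ ((dif g)^[n] v) = (dif g)^[n] (ψ v) := by
        intro n
        induction n with
        | zero => intro v; rfl
        | succ n ihn =>
          intro v
          rw [Function.iterate_succ_apply, ihn, dif_apply, map_mul, map_inv, hψ g hg,
            ← dif_apply, ← Function.iterate_succ_apply]
      let χ : V →* V :=
        { toFun := fun v => ψ v * (ψ (f (k + 1) v))⁻¹
          map_one' := by rw [map_one, map_one, map_one, inv_one, mul_one]
          map_mul' := fun a b => by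
            rw [map_mul, map_mul, map_mul, mul_inv, mul_mul_mul_comm] }
      have hχ : ∀ v, χ v = ψ v * (ψ (f (k + 1) v))⁻¹ := fun _ => rfl
      have hχ' : ∀ v, χ v = ψ (v * (f (k + 1) v)⁻¹) := fun v => by rw [hχ, map_mul, map_inv]
      refine ⟨χ, j * ψ.comp (f (k + 1)), ?_, hmul _ _ hj (hcomp _ _ hψ hE), ?_, ?_⟩
      · intro g' hg' v
        rw [hχ, hχ, hfeq _ g' hg', hψ g' hg', hψ g' hg', map_mul, map_inv]
      · intro v
        rw [MonoidHom.mul_apply, MonoidHom.comp_apply, hjψ, hχ, mul_inv, inv_inv, mul_assoc]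
      · intro g' hg'
        rcases Set.mem_insert_iff.1 hg' with rfl | hg''
        · refine ⟨k + 1, fun v => ?_⟩
          rw [hχ', ← hψf, ← hf, map_mul, map_inv, hEE, mul_inv_cancel, map_one]
        · obtain ⟨n, hn'⟩ := hn g' hg''
          exact ⟨n, fun v => by rw [hχ']; exact hn' _⟩
  obtain ⟨ψ, j, hψ, hj, hjψ, hn⟩ := key Γ (Set.toFinite Γ) (le_refl _)
  have htriv : ∀ v, ψ v = 1 := by
    by_contra hne
    push Not at hne
    obtain ⟨v, hv⟩ := hne
    have hne' : ψ.range ≠ ⊥ := by
      intro h
      apply hv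
      have h2 : ψ v ∈ ψ.range := ⟨v, rfl⟩
      rw [h] at h2
      exact Subgroup.mem_bot.1 h2
    obtain ⟨u, -, hu1, huf⟩ := exists_fixed_of_nil Γ hΓ ψ.range hne'
      (by
        rintro g hg _ ⟨w, rfl⟩
        exact ⟨g w, hψ g hg w⟩)
      (by
        intro g hg
        obtain ⟨n, hn'⟩ := hn g hg
        refine ⟨n, ?_⟩
        rintro _ ⟨w, rfl⟩
        exact hn' w)
    exact hu1 (hfix u huf)
  have hid : j = MonoidHom.id V := by
    ext v
    rw [hjψ, htriv, inv_one, mul_one]
    rfl
  rw [← hid]
  exact hj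

end

end Pool.H95I
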