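import Pool.Agent.Lib.H95I.Act
import Pool.Agent.Lib.H88D.Main

/-!
# The exact criterion for property (D)
-/

set_option autoImplicit false

namespace Pool.H95I

open scoped commutatorElement
open Pool.Helper71.Integ

section

variable {K H : Type} [Group K] [Group H]

/-- Every finite abelian cover of the image of `H` in `Out K` comes from a finite group. -/
theorem exists_cover [Finite H] (hZ : Subgroup.center H ⊓ commutator H = ⊥)
    (e : commutator H ≃* K) (B : Type) [CommGroup B] [Finite B] (ρ : B →* Out K)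
    (hρ : ρ.range = (outAct e).range) :
    ∃ (H₃ : Type) (_ : Group H₃) (_ : Finite H₃) (e₃ : commutator H₃ ≃* K) (β : H₃ →* B),
      Function.Surjective β ∧ β.ker = commutator H₃ ∧ ∀ h, ρ (β h) = outAct e₃ h := by
  have hf1 : Finite (MulAut H) :=
    Finite.of_injective (fun f : MulAut H => (f : H → H)) DFunLike.coe_injective
  let S₀ : Subgroup (H × B) :=
    { carrier := {t | outAct e t.1 = ρ t.2}
      one_mem' := by
        change outAct e 1 = ρ 1
        rw [map_one, map_one]
      mul_mem' := fun {a b} ha hb => by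
        change outAct e (a.1 * b.1) = ρ (a.2 * b.2)
        rw [map_mul, map_mul, ha, hb]
      inv_mem' := fun {a} ha => by
        change outAct e a.1⁻¹ = ρ a.2⁻¹
        rw [map_inv, map_inv, ha] }
  have hS₀ : ∀ t : H × B, t ∈ S₀ ↔ outAct e t.1 = ρ t.2 := fun _ => Iff.rfl
  let δ : K →* H × B :=
    (MonoidHom.inl H B).comp ((commutator H).subtype.comp e.symm.toMonoidHom)
  have hδ : ∀ k, δ k = (((e.symm k : commutator H) : H), 1) := fun _ => rfl
  have hfst : S₀.map (MonoidHom.fst H B) = ⊤ := by
    rw [eq_top_iff]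
    intro h _
    have h1 : outAct e h ∈ ρ.range := by rw [hρ]; exact ⟨h, rfl⟩
    obtain ⟨b, hb⟩ := h1
    exact ⟨(h, b), hb.symm, rfl⟩
  have hsnd : ∀ x ∈ ⁅S₀, S₀⁆, x.2 = 1 := by
    have h1 : ⁅S₀, S₀⁆ ≤ (MonoidHom.snd H B).ker := by
      rw [Subgroup.commutator_le]
      intro a _ b _
      rw [MonoidHom.mem_ker, map_commutatorElement, commutatorElement_eq_one_iff_mul_comm,
        mul_comm]
    intro x hx
    exact h1 hx
  have hSS₀ : ⁅S₀, S₀⁆ = δ.range := by
    have h0 : (⁅S₀, S₀⁆).map (MonoidHom.fst H B) = commutator H := by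
      rw [Subgroup.map_commutator, hfst, commutator_def]
    ext x
    constructor
    · intro hx
      have h1 : x.1 ∈ commutator H := by
        rw [← h0]
        exact ⟨x, hx, rfl⟩
      refine ⟨e ⟨x.1, h1⟩, ?_⟩
      rw [hδ, MulEquiv.symm_apply_apply]
      exact Prod.ext rfl (hsnd x hx).symm
    · rintro ⟨k, rfl⟩
      have h1 : ((e.symm k : commutator H) : H) ∈ (⁅S₀, S₀⁆).map (MonoidHom.fst H B) := by
        rw [h0]
        exact (e.symm k).2
      obtain ⟨x, hx, hxk⟩ := h1
      have h2 : δ k = x := by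
        rw [hδ]
        exact Prod.ext hxk.symm (hsnd x hx).symm
      rw [h2]
      exact hx
  let T : Type := MulAut H × B
  let j : H × B →* T := MonoidHom.prodMap MulAut.conj (MonoidHom.id B)
  have hj : ∀ t, j t = (MulAut.conj t.1, t.2) := fun _ => rfl
  let S : Subgroup T := S₀.map j
  let κ : K →* T := j.comp δ
  have hκ : ∀ k, κ k = (MulAut.conj ((e.symm k : commutator H) : H), 1) := fun _ => rfl
  have hκinj : Function.Injective κ := by
    rw [injective_iff_map_eq_one]
    intro k hk
    have h1 : MulAut.conj ((e.symm k : commutator H) : H) = 1 := congrArg Prod.fst hk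
    have h2 : ((e.symm k : commutator H) : H) ∈ Subgroup.center H ⊓ commutator H := by
      refine Subgroup.mem_inf.2 ⟨?_, (e.symm k).2⟩
      rw [Subgroup.mem_center_iff]
      intro x
      have h5 : MulAut.conj ((e.symm k : commutator H) : H) x = x := by rw [h1]; rfl
      rw [MulAut.conj_apply, mul_inv_eq_iff_eq_mul] at h5
      exact h5.symm
    rw [hZ, Subgroup.mem_bot] at h2
    have h3 : e.symm k = 1 := Subtype.ext h2
    rw [← e.apply_symm_apply k, h3, map_one]
  have hSS : ⁅S, S⁆ = κ.range := by
    have h9 : κ.range = δ.range.map j := MonoidHom.range_comp _ _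
    rw [h9, ← hSS₀, Subgroup.map_commutator]
  have h0 : (commutator S).map S.subtype = κ.range := by
    rw [Subgroup.map_subtype_commutator, hSS]
  let e₃ : commutator S ≃* K :=
    ((Subgroup.equivMapOfInjective (commutator S) S.subtype S.subtype_injective).trans
      (MulEquiv.subgroupCongr h0)).trans (MonoidHom.ofInjective hκinj).symm
  have he : ∀ k : K, (((e₃.symm k : commutator S) : S) : T) = κ k := by
    intro k
    let y : commutator S := e₃.symm k
    have h1 : (MonoidHom.ofInjective hκinj) (e₃ y) =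
        (MulEquiv.subgroupCongr h0)
          ((Subgroup.equivMapOfInjective (commutator S) S.subtype S.subtype_injective) y) := by
      change (MonoidHom.ofInjective hκinj)
        ((MonoidHom.ofInjective hκinj).symm _) = _
      rw [MulEquiv.apply_symm_apply]
      rfl
    have h2 : e₃ y = k := e₃.apply_symm_apply k
    have h3 := congrArg (fun t : κ.range => (t : T)) h1
    simp only [h2] at h3
    exact h3.symm
  have hact : ∀ (s : S) (t : H × B), t ∈ S₀ → j t = s → act e₃ s = act e t.1 := by
    intro s t _ hts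
    rw [act_eq_iff]
    intro k
    apply Subtype.ext
    rw [he]
    change κ (act e t.1 k) = (s : T) * (((e₃.symm k : commutator S) : S) : T) * (s : T)⁻¹
    rw [he, ← hts]
    change j (δ (act e t.1 k)) = j t * j (δ k) * (j t)⁻¹
    rw [← map_mul, ← map_inv, ← map_mul]
    congr 1
    rw [hδ, hδ, act_apply]
    apply Prod.ext
    · rfl
    · change (1 : B) = t.2 * 1 * t.2⁻¹
      rw [mul_one, mul_inv_cancel]
  let β : S →* B := (MonoidHom.snd (MulAut H) B).comp S.subtype
  have hβ : ∀ s : S, β s = (s : T).2 := fun _ => rfl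
  refine ⟨S, inferInstance, inferInstance, e₃, β, ?_, ?_, ?_⟩
  · intro b
    have h1 : ρ b ∈ (outAct e).range := by rw [← hρ]; exact ⟨b, rfl⟩
    obtain ⟨h, hh⟩ := h1
    exact ⟨⟨j (h, b), ⟨(h, b), hh, rfl⟩⟩, rfl⟩
  · ext s
    rw [MonoidHom.mem_ker, hβ]
    constructor
    · intro hs
      obtain ⟨t, ht, hts⟩ := s.2
      have ht2 : t.2 = 1 := by
        have : (j t).2 = (s : T).2 := by rw [hts]
        rw [← hs, ← this]
        rfl
      have h1 : outAct e t.1 = 1 := by
        rw [(hS₀ t).1 ht, ht2, map_one]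
      rw [outAct_apply, mkOut_eq_one] at h1
      obtain ⟨k, hk⟩ := h1
      have h2 : act e (((e.symm k : commutator H) : H)⁻¹ * t.1) = 1 := by
        rw [map_mul, map_inv, act_symm, hk, inv_mul_cancel]
      rw [act_eq_congr] at h2
      have h3 : cn H (((e.symm k : commutator H) : H)⁻¹ * t.1) = 1 := by
        apply (MulAut.congr e).injective
        rw [h2, map_one]
      obtain ⟨u, hu, hcu⟩ := exists_of_centralizes hZ (((e.symm k : commutator H) : H)⁻¹ * t.1)
        (by
          intro d hd
          have h4 := cn_coe (((e.symm k : commutator H) : H)⁻¹ * t.1) ⟨d, hd⟩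
          rw [h3] at h4
          rw [← mul_inv_eq_iff_eq_mul]
          exact h4.symm)
      have h5 : MulAut.conj t.1 = MulAut.conj (((e.symm k : commutator H) : H) * u) := by
        rw [map_mul, ← hcu, ← map_mul, mul_inv_cancel_left]
      have h6 : ((e.symm k : commutator H) : H) * u ∈ commutator H :=
        (commutator H).mul_mem (e.symm k).2 (mem_zd.1 hu).1
      have h7 : (s : T) ∈ (commutator S).map S.subtype := by
        rw [h0]
        refine ⟨e ⟨_, h6⟩, ?_⟩
        rw [hκ, MulEquiv.symm_apply_apply, ← hts, hj]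
        exact Prod.ext h5.symm ht2.symm
      obtain ⟨s', hs', hss⟩ := h7
      have h8 : s' = s := Subtype.ext hss
      rw [← h8]
      exact hs'
    · intro hs
      exact hom_comm_eq_one β hs
  · intro s
    obtain ⟨t, ht, hts⟩ := s.2
    rw [outAct_apply, hact s t ht hts, hβ, ← hts]
    exact ((hS₀ t).1 ht).symm

/-- If all finite groups with derived subgroup `K` are integrable then all covers lift. -/
theorem coverLifts_of_all [Finite H] (hZ : Subgroup.center H ⊓ commutator H = ⊥)
    (e : commutator H ≃* K)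
    (hall : ∀ (H : Type) [Group H] [Finite H], Nonempty (commutator H ≃* K) → IsIntegrable H) :
    CoverLifts (outAct e).range := by
  intro B _ _ ρ hρ
  obtain ⟨H₃, i₃, f₃, e₃, β, hβs, hβk, hβ⟩ := exists_cover hZ e B ρ hρ
  obtain ⟨Q, iQ, π, ι, hι, hιr, hπι⟩ := exists_lift_of_isIntegrable (hall H₃ ⟨e₃⟩) e₃
  let τ : Abelianization H₃ →* B := Abelianization.lift β
  have hτ : ∀ h, τ (Abelianization.of h) = β h := fun h => Abelianization.lift_apply_of β h
  have hτi : Function.Injective τ := by
    rw [injective_iff_map_eq_one]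
    intro x hx
    obtain ⟨h, rfl⟩ := of_surjective x
    rw [hτ, ← MonoidHom.mem_ker, hβk] at hx
    rw [of_eq_one_iff]
    exact hx
  have hτs : Function.Surjective τ := by
    intro b
    obtain ⟨h, rfl⟩ := hβs b
    exact ⟨Abelianization.of h, hτ h⟩
  let τ' : Abelianization H₃ ≃* B := MulEquiv.ofBijective τ ⟨hτi, hτs⟩
  refine ⟨Q, iQ, π, ι.comp τ'.symm.toMonoidHom, ?_, ?_, ?_⟩
  · exact hι.comp τ'.symm.injective
  · rw [← hιr]
    ext q
    constructor
    · rintro ⟨b, rfl⟩
      exact ⟨τ'.symm b, rfl⟩
    · rintro ⟨x, rfl⟩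
      refine ⟨τ' x, ?_⟩
      change ι (τ'.symm (τ' x)) = _
      rw [MulEquiv.symm_apply_apply]
  · intro b
    obtain ⟨h, rfl⟩ := hβs b
    have h1 : τ'.symm (β h) = Abelianization.of h := by
      rw [MulEquiv.symm_apply_eq]
      exact (hτ h).symm
    change π (ι (τ'.symm (β h))) = _
    rw [h1, hπι, outAb_of, hβ]

theorem isIntegrable_of_coverLifts [Finite H] (hZ : Subgroup.center H ⊓ commutator H = ⊥)
    (e : commutator H ≃* K) (hc : CoverLifts (outAct e).range) : IsIntegrable H := by
  have hfin : Finite (Abelianization H) := Finite.of_surjective _ (QuotientGroup.mk_surjective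
    (s := commutator H))
  obtain ⟨Q, iQ, π, ι, hι, hιr, hπι⟩ := hc (Abelianization H) (outAb e) (outAb_range e)
  exact isIntegrable_of_lift hZ e π ι hι hιr hπι

end

section

variable {G K : Type} [Group G] [Group K]

/-- `K` is the second derived subgroup of a finite group. -/
def SecondDerived (K : Type) [Group K] : Prop :=
  ∃ (L : Type) (_ : Group L), Finite L ∧ Nonempty (commutator (commutator L) ≃* K)

theorem not_isIntegrable_of_not_secondDerived (h : ¬ SecondDerived K) (H : Type) [Group H]
    [Finite H] (f : commutator H ≃* K) : ¬ IsIntegrable H := by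
  refine Pool.H88D.not_integrable_of_no (G := H) ?_ H (MulEquiv.refl _)
  rintro ⟨L, iL, fL, ⟨g⟩⟩
  exact h ⟨L, iL, fL, ⟨g.trans f⟩⟩

theorem propertyD_of_not_secondDerived [Finite G] (e : commutator G ≃* K)
    (h : ¬ SecondDerived K) : PropertyD G := by
  rintro H _ _ ⟨f⟩
  exact iff_of_false (not_isIntegrable_of_not_secondDerived h H (f.trans e))
    (not_isIntegrable_of_not_secondDerived h G e)

theorem all_of_propertyD (e : commutator G ≃* K) (hD : PropertyD G) (h : SecondDerived K)
    (H : Type) [Group H] [Finite H] (hH : Nonempty (commutator H ≃* K)) :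
    IsIntegrable H := by
  obtain ⟨L, iL, fL, ⟨g⟩⟩ := h
  obtain ⟨f⟩ := hH
  exact (hD H ⟨f.trans e.symm⟩).2 ((hD (commutator L) ⟨g.trans e.symm⟩).1
    ⟨L, iL, ⟨MulEquiv.refl _⟩⟩)

/-- The exact criterion. -/
theorem propertyD_iff [Finite G] (e : commutator G ≃* K) :
    PropertyD G ↔ ¬ SecondDerived K ∨
      ∀ (H : Type) [Group H] [Finite H] (f : commutator H ≃* K),
        Subgroup.center H ⊓ commutator H = ⊥ ∧ CoverLifts (outAct f).range := by
  constructor
  · intro hD
    by_cases h : SecondDerived K
    · right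
      intro H _ _ f
      have hZ : Subgroup.center H ⊓ commutator H = ⊥ := by
        by_contra hne
        obtain ⟨H₁, i₁, f₁, ⟨e₁⟩, hn⟩ := Pool.H88D.exists_nonint' H hne
        exact hn (all_of_propertyD e hD h H₁ ⟨e₁.trans f⟩)
      exact ⟨hZ, coverLifts_of_all hZ f fun H' _ _ hH' => all_of_propertyD e hD h H' hH'⟩
    · exact Or.inl h
  · rintro (h | h)
    · exact propertyD_of_not_secondDerived e h
    · rintro H _ _ ⟨f⟩
      exact iff_of_true (isIntegrable_of_coverLifts (h H (f.trans e)).1 _ (h H (f.trans e)).2)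
        (isIntegrable_of_coverLifts (h G e).1 _ (h G e).2)

end

end Pool.H95I
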