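import Pool.Agent.Lib.H95I.Scalar

/-!
# Lifts of derived subgroups: one prime at a time
-/

set_option autoImplicit false

namespace Pool.H95I

open scoped commutatorElement

/-- Idempotent exponents modulo `n`. -/
theorem exists_exponents (n : ℕ) (hn : n ≠ 0) : ∃ e : n.primeFactors → ℕ,
    (∀ p q, p ≠ q → n ∣ e p * e q) ∧ (∀ p, e p * e p ≡ e p [MOD n]) ∧
    (∀ p, n ∣ e p * p.1 ^ n.factorization p.1) ∧
    (∀ (G : Type) [Group G] (x : G), x ^ n = 1 → (∀ p, x ^ e p = 1) → x = 1) := by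
  have hpr : ∀ p : n.primeFactors, p.1.Prime := fun p => Nat.prime_of_mem_primeFactors p.2
  have hcop : ∀ p : n.primeFactors, Nat.Coprime (ordProj[p.1] n) (ordCompl[p.1] n) := fun p =>
    Nat.Coprime.pow_left _ (Nat.coprime_ordCompl (hpr p) hn)
  have hmul : ∀ p : n.primeFactors, ordProj[p.1] n * ordCompl[p.1] n = n := fun p =>
    Nat.ordProj_mul_ordCompl_eq_self n p.1
  let e : n.primeFactors → ℕ := fun p => (Nat.chineseRemainder (hcop p) 1 0 : ℕ)
  have he1 : ∀ p, e p ≡ 1 [MOD ordProj[p.1] n] := fun p =>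
    (Nat.chineseRemainder (hcop p) 1 0).2.1
  have he2 : ∀ p, e p ≡ 0 [MOD ordCompl[p.1] n] := fun p =>
    (Nat.chineseRemainder (hcop p) 1 0).2.2
  have he3 : ∀ p, ordCompl[p.1] n ∣ e p := fun p => (Nat.modEq_zero_iff_dvd).1 (he2 p)
  refine ⟨e, ?_, ?_, ?_, ?_⟩
  · intro p q hpq
    have hne : p.1 ≠ q.1 := fun h => hpq (Subtype.ext h)
    have h1 : Nat.Coprime (ordProj[p.1] n) (ordProj[q.1] n) :=
      Nat.Coprime.pow _ _ ((Nat.coprime_primes (hpr p) (hpr q)).2 hne)
    have h2 : ordProj[p.1] n ∣ ordCompl[q.1] n := by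
      apply h1.dvd_of_dvd_mul_left
      rw [hmul q]
      exact Dvd.intro _ (hmul p)
    have h3 : ordProj[p.1] n ∣ e p * e q := Dvd.dvd.mul_left (h2.trans (he3 q)) _
    have h4 : ordCompl[p.1] n ∣ e p * e q := Dvd.dvd.mul_right (he3 p) _
    have h5 := (hcop p).mul_dvd_of_dvd_of_dvd h3 h4
    rwa [hmul p] at h5
  · intro p
    have h1 : e p * e p ≡ e p [MOD ordProj[p.1] n] := by
      have := (he1 p).mul_right (e p)
      rwa [one_mul] at this
    have h2 : e p * e p ≡ e p [MOD ordCompl[p.1] n] := by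
      have := (he2 p).mul_right (e p)
      rw [zero_mul] at this
      exact this.trans (he2 p).symm
    have h3 := (Nat.modEq_and_modEq_iff_modEq_mul (hcop p)).1 ⟨h1, h2⟩
    rwa [hmul p] at h3
  · intro p
    have h1 : ordCompl[p.1] n * ordProj[p.1] n ∣ e p * ordProj[p.1] n :=
      Nat.mul_dvd_mul_right (he3 p) _
    rw [mul_comm (ordCompl[p.1] n), hmul p] at h1
    exact h1
  · intro G _ x hx hxe
    by_contra hne
    have h1 : orderOf x ≠ 1 := fun h => hne (orderOf_eq_one_iff.1 h)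
    obtain ⟨p, hp, hpd⟩ := Nat.exists_prime_and_dvd h1
    have h2 : p ∣ n := hpd.trans (orderOf_dvd_of_pow_eq_one hx)
    let P : n.primeFactors := ⟨p, Nat.mem_primeFactors.2 ⟨hp, h2, hn⟩⟩
    have h3 : p ∣ e P := hpd.trans (orderOf_dvd_of_pow_eq_one (hxe P))
    have h4 : p ∣ ordProj[p] n := by
      apply dvd_pow_self
      exact (hp.factorization_pos_of_dvd hn h2).ne'
    have h5 : e P ≡ 1 [MOD p] := (he1 P).of_dvd h4
    have h6 : e P ≡ 0 [MOD p] := (Nat.modEq_zero_iff_dvd).2 h3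
    have h7 : p ∣ 1 := (Nat.modEq_zero_iff_dvd).1 (h5.symm.trans h6)
    exact hp.one_lt.ne' (Nat.dvd_one.1 h7)

section

variable {Γ B : Type} [Group Γ] [CommGroup B]

/-- A lift of one part of `ρ`. -/
def PartLifts (Γ B : Type) [Group Γ] [CommGroup B] (ρ : B →* Γ) (e : ℕ) : Prop :=
  ∃ (Δ : Type) (_ : Group Δ) (μ : Γ →* Δ) (Q : Type) (_ : Group Q) (π : Q →* Δ) (ι : B →* Q),
    Function.Surjective μ ∧ Function.Surjective π ∧ ι.range = commutator Q ∧
      (∀ b, ι b = 1 ↔ b ^ e = 1) ∧ (∀ b, π (ι b) = μ (ρ b)) ∧ ∀ a, μ (ρ a) = 1 → ρ a ^ e = 1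

theorem glue {P : Type} [Fintype P] [DecidableEq P] (e : P → ℕ) (n : ℕ)
    (hE1 : ∀ p q, p ≠ q → n ∣ e p * e q) (hE2 : ∀ p, e p * e p ≡ e p [MOD n])
    (hE3 : ∀ (G : Type) [Group G] (x : G), x ^ n = 1 → (∀ p, x ^ e p = 1) → x = 1)
    (ρ : B →* Γ) (hρ : ρ.range = commutator Γ) (hn : ∀ b : B, b ^ n = 1)
    (h : ∀ p, PartLifts Γ B ρ (e p)) : Lifts Γ B ρ := by
  choose Δ iΔ μ Q iQ π ι hμ hπ hιr hιk hcomp hμk using h
  let T : Type := Γ × ((p : P) → Q p)
  let S : Subgroup T :=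
    { carrier := {t | ∀ p, π p (t.2 p) = μ p t.1}
      one_mem' := fun p => by
        change π p 1 = μ p 1
        rw [map_one, map_one]
      mul_mem' := fun {a b} ha hb p => by
        change π p (a.2 p * b.2 p) = μ p (a.1 * b.1)
        rw [map_mul, map_mul, ha p, hb p]
      inv_mem' := fun {a} ha p => by
        change π p (a.2 p)⁻¹ = μ p a.1⁻¹
        rw [map_inv, map_inv, ha p] }
  have hS : ∀ t : T, t ∈ S ↔ ∀ p, π p (t.2 p) = μ p t.1 := fun _ => Iff.rfl
  let j : B →* T := MonoidHom.prod ρ (MonoidHom.pi ι)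
  have hj1 : ∀ b, (j b).1 = ρ b := fun _ => rfl
  have hj2 : ∀ b p, (j b).2 p = ι p b := fun _ _ => rfl
  have hjS : ∀ b, j b ∈ S := fun b p => hcomp p b
  have hjinj : Function.Injective j := by
    rw [injective_iff_map_eq_one]
    intro b hb
    apply hE3 B b (hn b)
    intro p
    rw [← hιk, ← hj2, hb]
    rfl
  have hρn : ∀ b, ρ b ^ n = 1 := fun b => by rw [← map_pow, hn, map_one]
  have hD : ⁅S, S⁆ = j.range := by
    have hle : ∀ x ∈ ⁅S, S⁆, ∃ b, j b = x := by
      intro x hx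
      have hxS : x ∈ S := Subgroup.commutator_le_self S hx
      have h2 : ∀ p, x.2 p ∈ (ι p).range := by
        intro p
        rw [hιr p]
        let f : T →* Q p := (Pi.evalMonoidHom Q p).comp (MonoidHom.snd Γ ((p : P) → Q p))
        have h3 : (⁅S, S⁆).map f ≤ commutator (Q p) := by
          rw [Subgroup.map_commutator, commutator_def]
          exact Subgroup.commutator_mono le_top le_top
        exact h3 ⟨x, hx, rfl⟩
      have h1 : x.1 ∈ ρ.range := by
        rw [hρ]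
        have h3 : (⁅S, S⁆).map (MonoidHom.fst Γ ((p : P) → Q p)) ≤ commutator Γ := by
          rw [Subgroup.map_commutator, commutator_def]
          exact Subgroup.commutator_mono le_top le_top
        exact h3 ⟨x, hx, rfl⟩
      choose c hc using h2
      obtain ⟨a, ha⟩ := h1
      let b : B := ∏ p, c p ^ e p
      have hb : ∀ p, ι p b = x.2 p := by
        intro p
        rw [← hc p]
        have h3 : (b * (c p)⁻¹) ^ e p = 1 := by
          rw [mul_pow]
          have h4 : b ^ e p = c p ^ e p := by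
            change (∏ q, c q ^ e q) ^ e p = c p ^ e p
            rw [← Finset.prod_pow, Finset.prod_eq_single p]
            · rw [← pow_mul]
              exact pow_eq_pow_of_modEq (hE2 p) (hn _)
            · intro q _ hqp
              rw [← pow_mul]
              obtain ⟨m, hm⟩ := hE1 q p hqp
              rw [hm, pow_mul, hn, one_pow]
            · intro hp
              exact absurd (Finset.mem_univ p) hp
          rw [h4, inv_pow, mul_inv_cancel]
        have h5 := (hιk p _).2 h3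
        rw [map_mul, map_inv] at h5
        exact mul_inv_eq_one.1 h5
      refine ⟨b, ?_⟩
      apply Prod.ext
      · rw [hj1, ← ha]
        have h3 : ρ (a * b⁻¹) = 1 := by
          apply hE3 Γ _ (hρn _)
          intro p
          apply hμk p
          rw [map_mul, map_mul, ha, ← hxS p, map_inv, map_inv, ← hcomp p, hb, mul_inv_cancel]
        rw [map_mul, map_inv] at h3
        exact (mul_inv_eq_one.1 h3).symm
      · funext p
        rw [hj2, hb]
    apply le_antisymm
    · intro x hx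
      exact hle x hx
    · let B1 : Subgroup B := ⁅S, S⁆.comap j
      have hmem : ∀ p b, b ^ e p ∈ B1 := by
        intro p b
        let f : T →* Q p := (Pi.evalMonoidHom Q p).comp (MonoidHom.snd Γ ((p : P) → Q p))
        have hf : S.map f = ⊤ := by
          rw [eq_top_iff]
          intro q _
          obtain ⟨γ, hγ⟩ := hμ p (π p q)
          choose r hr using fun p' => hπ p' (μ p' γ)
          refine ⟨(γ, Function.update r p q), ?_, ?_⟩
          · intro p'
            change π p' (Function.update r p q p') = μ p' γ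
            by_cases hpp : p' = p
            · subst hpp
              rw [Function.update_self, hγ]
            · rw [Function.update_of_ne hpp, hr]
          · change Function.update r p q p = q
            rw [Function.update_self]
        have h1 : ι p b ∈ (⁅S, S⁆).map f := by
          rw [Subgroup.map_commutator, hf, ← commutator_def, ← hιr p]
          exact ⟨b, rfl⟩
        obtain ⟨x, hx, hxb⟩ := h1
        obtain ⟨b', rfl⟩ := hle x hx
        have h2 : b' ∈ B1 := hx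
        have h3 : ι p b' = ι p b := hxb
        have h4 : (b' * b⁻¹) ^ e p = 1 := by
          rw [← hιk, map_mul, map_inv, h3, mul_inv_cancel]
        rw [mul_pow, inv_pow, mul_inv_eq_one] at h4
        rw [← h4]
        exact B1.pow_mem h2 _
      rintro _ ⟨b, rfl⟩
      have h1 : (QuotientGroup.mk' B1 b) = 1 := by
        apply hE3 (B ⧸ B1)
        · rw [← map_pow, hn, map_one]
        · intro p
          rw [← map_pow, ← MonoidHom.mem_ker, QuotientGroup.ker_mk']
          exact hmem p b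
      rw [← MonoidHom.mem_ker, QuotientGroup.ker_mk'] at h1
      exact h1
  refine ⟨S, inferInstance, (MonoidHom.fst Γ ((p : P) → Q p)).comp S.subtype,
    j.codRestrict S hjS, ?_, ?_, ?_, ?_⟩
  · intro γ
    choose r hr using fun p' => hπ p' (μ p' γ)
    exact ⟨⟨(γ, r), hr⟩, rfl⟩
  · intro b c hbc
    exact hjinj (congrArg Subtype.val hbc)
  · apply Subgroup.map_injective S.subtype_injective
    rw [Subgroup.map_subtype_commutator, hD]
    ext x
    constructor
    · rintro ⟨_, ⟨b, rfl⟩, rfl⟩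
      exact ⟨b, rfl⟩
    · rintro ⟨b, rfl⟩
      exact ⟨_, ⟨b, rfl⟩, rfl⟩
  · rfl

/-- One part of a lift from a lift of the quotient. -/
theorem partLifts_of {n e : ℕ} (hE2 : e * e ≡ e [MOD n]) (ρ : B →* Γ)
    (hρ : ρ.range = commutator Γ) (hn : ∀ b : B, b ^ n = 1)
    (h : ∀ (Δ : Type) [Group Δ] (μ : Γ →* Δ), Function.Surjective μ →
      ∀ (C : Type) [CommGroup C] (ρ' : C →* Δ), ρ'.range = commutator Δ →
        (∀ c : C, ∃ b : B, ρ' c = μ (ρ (b ^ e)) ∧ ∀ m, b ^ (e * m) = 1 → c ^ m = 1) →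
          Lifts Δ C ρ') : PartLifts Γ B ρ e := by
  let θ : B →* B := powMonoidHom e
  have hθ : ∀ b, θ b = b ^ e := fun _ => rfl
  have hee : ∀ b : B, (b * (b ^ e)⁻¹) ^ e = 1 := by
    intro b
    rw [mul_pow, inv_pow, ← pow_mul, pow_eq_pow_of_modEq hE2 (hn b), mul_inv_cancel]
  let R : Subgroup Γ := θ.ker.map ρ
  have hR : R.Normal := by
    refine ⟨?_⟩
    rintro _ ⟨b, hb, rfl⟩ γ
    have h1 : γ * ρ b * γ⁻¹ ∈ ρ.range := by
      have h2 : ρ b ∈ commutator Γ := by rw [← hρ]; exact ⟨b, rfl⟩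
      rw [hρ]
      exact (inferInstance : (commutator Γ).Normal).conj_mem _ h2 γ
    obtain ⟨c, hc⟩ := h1
    refine ⟨c * (c ^ e)⁻¹, hee c, ?_⟩
    have hb' : b ^ e = 1 := hb
    rw [map_mul, map_inv, map_pow, hc, conj_pow, ← map_pow, hb', map_one, mul_one, mul_inv_cancel,
      inv_one, mul_one]
  let μ : Γ →* Γ ⧸ R := QuotientGroup.mk' R
  have hμ : Function.Surjective μ := QuotientGroup.mk'_surjective R
  have hμR : ∀ γ, μ γ = 1 ↔ γ ∈ R := fun γ => by
    rw [← MonoidHom.mem_ker, QuotientGroup.ker_mk']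
  have hμe : ∀ b, μ (ρ (b ^ e)) = μ (ρ b) := by
    intro b
    have h1 : μ (ρ (b * (b ^ e)⁻¹)) = 1 := (hμR _).2 ⟨_, hee b, rfl⟩
    rw [map_mul, map_mul, map_inv, map_inv] at h1
    exact (mul_inv_eq_one.1 h1).symm
  let C : Type := θ.range
  let ρ' : C →* Γ ⧸ R := (μ.comp ρ).comp θ.range.subtype
  have hρ' : ρ'.range = commutator (Γ ⧸ R) := by
    have h0 : (commutator Γ).map μ = commutator (Γ ⧸ R) := by
      rw [commutator_def, Subgroup.map_commutator, Subgroup.map_top_of_surjective μ hμ,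
        ← commutator_def]
    rw [← h0, ← hρ]
    ext x
    constructor
    · rintro ⟨⟨_, ⟨b, rfl⟩⟩, rfl⟩
      exact ⟨ρ (θ b), ⟨_, rfl⟩, rfl⟩
    · rintro ⟨_, ⟨b, rfl⟩, rfl⟩
      exact ⟨⟨θ b, ⟨b, rfl⟩⟩, hμe b⟩
  obtain ⟨Q, iQ, π, ι, hπ, hι, hιr, hcomp⟩ := h (Γ ⧸ R) μ hμ C ρ' hρ' (by
    rintro ⟨_, ⟨b, rfl⟩⟩
    refine ⟨b, rfl, ?_⟩
    intro m hm
    apply Subtype.ext
    change (b ^ e) ^ m = 1
    rw [← pow_mul, hm])
  refine ⟨Γ ⧸ R, inferInstance, μ, Q, iQ, π, ι.comp θ.rangeRestrict, hμ, hπ, ?_, ?_, ?_, ?_⟩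
  · rw [← hιr]
    ext x
    constructor
    · rintro ⟨b, rfl⟩
      exact ⟨_, rfl⟩
    · rintro ⟨⟨_, ⟨b, rfl⟩⟩, rfl⟩
      exact ⟨b, rfl⟩
  · intro b
    constructor
    · intro hb
      have h1 : θ.rangeRestrict b = 1 := by
        apply hι
        rw [map_one]
        exact hb
      exact congrArg Subtype.val h1
    · intro hb
      have h1 : θ.rangeRestrict b = 1 := Subtype.ext hb
      rw [MonoidHom.comp_apply, h1, map_one]
  · intro b
    have h1 : π (ι (θ.rangeRestrict b)) = ρ' (θ.rangeRestrict b) := by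
      rw [← hcomp]; rfl
    rw [MonoidHom.comp_apply, h1]
    exact hμe b
  · intro a ha
    obtain ⟨b, hb, hab⟩ := (hμR _).1 ha
    have hb' : b ^ e = 1 := hb
    rw [← hab, ← map_pow, hb', map_one]

/-- The condition at the prime `p`: the `p`-part of the image of `ρ` is central, or `Γ` acts on it by power
maps and some element of `Γ` acts as a `k`-th power with `k` not congruent to `1` modulo `p`. -/
def LocalCond (ρ : B →* Γ) (p : ℕ) : Prop :=
  (∀ b : B, (∃ r, b ^ p ^ r = 1) → ∀ γ, ρ b * γ = γ * ρ b) ∨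
    ((∀ γ : Γ, ∃ k : ℕ, ∀ b : B, (∃ r, b ^ p ^ r = 1) → γ * ρ b * γ⁻¹ = ρ b ^ k) ∧
      ∃ (f : Γ) (k : ℕ), (∀ b : B, (∃ r, b ^ p ^ r = 1) → f * ρ b * f⁻¹ = ρ b ^ k) ∧
        ¬ k ≡ 1 [MOD p])

theorem lifts_of_local [Finite B] (ρ : B →* Γ) (hρ : ρ.range = commutator Γ)
    (hl : ∀ p : ℕ, p.Prime → LocalCond ρ p) : Lifts Γ B ρ := by
  classical
  have hn0 : Nat.card B ≠ 0 := Nat.card_ne_zero.2 ⟨inferInstance, inferInstance⟩
  have hn : ∀ b : B, b ^ Nat.card B = 1 := fun b => pow_card_eq_one'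
  obtain ⟨e, hE1, hE2, hE4, hE3⟩ := exists_exponents (Nat.card B) hn0
  refine glue e (Nat.card B) hE1 hE2 hE3 ρ hρ hn ?_
  intro P
  have hp := Nat.prime_of_mem_primeFactors P.2
  let v : ℕ := (Nat.card B).factorization P.1
  have hbe : ∀ b : B, b ^ (e P * P.1 ^ v) = 1 := by
    intro b
    obtain ⟨m, hm⟩ := hE4 P
    rw [hm, pow_mul, hn, one_pow]
  have hbe' : ∀ b : B, ∃ r, (b ^ e P) ^ P.1 ^ r = 1 := fun b =>
    ⟨v, by rw [← pow_mul, hbe]⟩
  apply partLifts_of (hE2 P) ρ hρ hn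
  intro Δ _ μ hμ C _ ρ' hρ' hC
  rcases hl P.1 hp with hT | ⟨hF1, f, kf, hF2, hF3⟩
  · apply lifts_of_central ρ' hρ'
    intro c δ
    obtain ⟨b, hb, -⟩ := hC c
    obtain ⟨γ, rfl⟩ := hμ δ
    rw [hb, ← map_mul, ← map_mul, hT _ (hbe' b)]
  · apply lifts_of_scalar P.1 v hp ρ' hρ'
    · intro c
      obtain ⟨b, -, hb⟩ := hC c
      exact hb _ (hbe b)
    · intro δ
      obtain ⟨γ, rfl⟩ := hμ δ
      obtain ⟨k, hk⟩ := hF1 γ
      refine ⟨k, fun c => ?_⟩
      obtain ⟨b, hb, -⟩ := hC c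
      rw [hb, ← map_inv μ, ← map_mul, ← map_mul, hk _ (hbe' b), map_pow]
    · refine ⟨μ f, kf, fun c => ?_, hF3⟩
      obtain ⟨b, hb, -⟩ := hC c
      rw [hb, ← map_inv μ, ← map_mul, ← map_mul, hF2 _ (hbe' b), map_pow]

end

end Pool.H95I
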