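import Pool.Agent.Lib.H95I.Cor
import Pool.Agent.Lib.Helper71.Integ.Complete

/-!
# Abelian outer automorphism groups
-/

set_option autoImplicit false

namespace Pool.H95I

open scoped commutatorElement
open Pool.Helper71.Integ

/-- `K` is perfect, has trivial centre and only inner automorphisms. -/
def PerfectComplete (K : Type) [Group K] : Prop :=
  commutator K = ⊤ ∧ Subgroup.center K = ⊥ ∧ ∀ θ : MulAut K, ∃ k, ∀ x, θ x = k * x * k⁻¹

section

variable {G K H : Type} [Group G] [Group K] [Group H]

/-- If `H` acts on its derived subgroup by inner automorphisms and its centre meets the derived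
subgroup trivially, then the derived subgroup is perfect and centreless. -/
theorem perfect_of_inner (e : commutator H ≃* K)
    (hin : ∀ h, act e h ∈ Inn K) (hZ : Subgroup.center H ⊓ commutator H = ⊥) :
    commutator K = ⊤ ∧ Subgroup.center K = ⊥ := by
  have h1 : Subgroup.center K = ⊥ := by
    rw [eq_bot_iff]
    intro z hz
    have h2 : ((e.symm z : commutator H) : H) ∈ Subgroup.center H ⊓ commutator H := by
      refine Subgroup.mem_inf.2 ⟨?_, (e.symm z).2⟩
      rw [Subgroup.mem_center_iff]
      intro h
      obtain ⟨k, hk⟩ := hin h
      have h3 := act_apply e h z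
      have h4 : act e h z = z := by
        rw [← hk, MulAut.conj_apply, Subgroup.mem_center_iff.1 hz k, mul_inv_cancel_right]
      rw [h4] at h3
      rw [eq_mul_inv_iff_mul_eq] at h3
      exact h3.symm
    rw [hZ, Subgroup.mem_bot] at h2
    have h3 : e.symm z = 1 := Subtype.ext h2
    rw [Subgroup.mem_bot, ← e.apply_symm_apply z, h3, map_one]
  have h2 := sup_eq_top_of_inner e hin
  rw [h1, sup_bot_eq] at h2
  exact ⟨h2, h1⟩

theorem commutator_eq_top_of_equiv (e : H ≃* K) (h : commutator K = ⊤) : commutator H = ⊤ := by
  apply Subgroup.map_injective (f := e.toMonoidHom) e.injective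
  have h4 : (commutator H).map e.toMonoidHom = commutator K := by
    rw [commutator_def, Subgroup.map_commutator, commutator_def,
      Subgroup.map_top_of_surjective _ e.surjective]
  rw [h4, h, Subgroup.map_top_of_surjective _ e.surjective]

theorem PerfectComplete.of_equiv (e : H ≃* K) (h : PerfectComplete H) : PerfectComplete K := by
  obtain ⟨h1, h2, h3⟩ := h
  refine ⟨?_, ?_, ?_⟩
  · have h4 : (commutator H).map e.toMonoidHom = commutator K := by
      rw [commutator_def, Subgroup.map_commutator, commutator_def,
        Subgroup.map_top_of_surjective _ e.surjective]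
    rw [← h4, h1, Subgroup.map_top_of_surjective _ e.surjective]
  · rw [eq_bot_iff]
    intro z hz
    have h4 : e.symm z ∈ Subgroup.center H := by
      rw [Subgroup.mem_center_iff]
      intro x
      apply e.injective
      rw [map_mul, map_mul, MulEquiv.apply_symm_apply]
      exact Subgroup.mem_center_iff.1 hz (e x)
    rw [h2, Subgroup.mem_bot] at h4
    rw [Subgroup.mem_bot, ← e.apply_symm_apply z, h4, map_one]
  · intro θ
    obtain ⟨k, hk⟩ := h3 ((e.trans θ).trans e.symm)
    refine ⟨e k, fun x => ?_⟩
    have h4 := hk (e.symm x)
    have h5 : ((e.trans θ).trans e.symm) (e.symm x) = e.symm (θ x) := by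
      change e.symm (θ (e (e.symm x))) = _
      rw [MulEquiv.apply_symm_apply]
    rw [h5, MulEquiv.symm_apply_eq, map_mul, map_mul, map_inv, MulEquiv.apply_symm_apply] at h4
    exact h4

/-- The criterion for abelian `Out K`. -/
theorem propertyD_iff_of_out_comm [Finite G] (e : commutator G ≃* K)
    (hO : ∀ a b : Out K, a * b = b * a) :
    PropertyD G ↔ ¬ SecondDerived K ∨ PerfectComplete K := by
  have hfin : Finite K := Finite.of_equiv _ e.toEquiv
  constructor
  · intro hD
    rcases (propertyD_iff e).1 hD with h | h
    · exact Or.inl h
    · right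
      obtain ⟨hZ, hc⟩ := h G e
      have hf1 : Finite (MulAut K) :=
        Finite.of_injective (fun f : MulAut K => (f : K → K)) DFunLike.coe_injective
      have hf2 : Finite (Out K) :=
        Finite.of_surjective _ (QuotientGroup.mk_surjective)
      obtain ⟨N, hN⟩ := hc.exists_derived (outAct_range_comm e)
      have hbot : (outAct e).range = ⊥ := by
        rw [← hN, eq_bot_iff, Subgroup.commutator_le]
        intro a _ b _
        rw [Subgroup.mem_bot, commutatorElement_eq_one_iff_mul_comm]
        exact hO a b
      have hin : ∀ h, act e h ∈ Inn K := by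
        intro h
        rw [← mkOut_eq_one, ← outAct_apply]
        have h1 : outAct e h ∈ (outAct e).range := ⟨h, rfl⟩
        rw [hbot, Subgroup.mem_bot] at h1
        exact h1
      obtain ⟨hp, hc⟩ := perfect_of_inner e hin hZ
      have hs : Group.IsSolvable (Out K) := by
        let _ : CommGroup (Out K) :=
          { (inferInstance : Group (Out K)) with mul_comm := hO }
        infer_instance
      -- transport to the derived subgroup
      let g : MulAut (commutator G) ≃* MulAut K := MulAut.congr e
      have hp' : commutator (commutator G) = ⊤ := commutator_eq_top_of_equiv e hp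
      have hs' : Group.IsSolvable (Out (commutator G)) := by
        have hle : (MulAut.conj : commutator G →* MulAut (commutator G)).range ≤
            (MulAut.conj : K →* MulAut K).range.comap g.toMonoidHom := by
          rintro _ ⟨x, rfl⟩
          refine ⟨e x, ?_⟩
          ext k
          change e x * k * (e x)⁻¹ = e (x * e.symm k * x⁻¹)
          rw [map_mul, map_mul, map_inv, MulEquiv.apply_symm_apply]
        let q : Out (commutator G) →* Out K := QuotientGroup.map _ _ g.toMonoidHom hle
        have hq : Function.Injective q := by
          rw [injective_iff_map_eq_one]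
          intro y hy
          obtain ⟨θ, rfl⟩ := QuotientGroup.mk_surjective y
          have h1 : mkOut K (g θ) = 1 := hy
          rw [mkOut_eq_one] at h1
          obtain ⟨k, hk⟩ := h1
          rw [QuotientGroup.eq_one_iff]
          refine ⟨e.symm k, ?_⟩
          apply g.injective
          rw [← hk]
          ext k'
          change e (e.symm k * e.symm k' * (e.symm k)⁻¹) = k * k' * k⁻¹
          rw [map_mul, map_mul, map_inv, MulEquiv.apply_symm_apply, MulEquiv.apply_symm_apply]
        exact Group.isSolvable_of_isSolvable_injective hq
      obtain ⟨h1, h2⟩ := (propertyD_iff_of_perfect hp' (Or.inl hs')).1 hD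
      exact PerfectComplete.of_equiv e ⟨hp', h1, h2⟩
  · rintro (h | h)
    · exact propertyD_of_not_secondDerived e h
    · obtain ⟨h1, h2, h3⟩ := PerfectComplete.of_equiv e.symm h
      exact propertyD_of_complete h1 h2 h3

end

end Pool.H95I
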