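import Pool.Agent.Lib.H95I.Cocycle

/-!
# Lifts of derived subgroups: the scalar case
-/

set_option autoImplicit false

namespace Pool.H95I

open scoped commutatorElement

section

variable {Γ B : Type} [Group Γ] [CommGroup B]

/-- The automorphisms of `B` given by powers. -/
def powAct {V : Type} [Group V] (κ : V → ℕ) (h1 : ∀ b : B, b ^ κ 1 = b)
    (hm : ∀ (v w : V) (b : B), b ^ κ (v * w) = (b ^ κ w) ^ κ v) : V →* MulAut B where
  toFun v :=
    { toFun := fun b => b ^ κ v
      invFun := fun b => b ^ κ v⁻¹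
      left_inv := fun b => by
        change (b ^ κ v) ^ κ v⁻¹ = b
        rw [← hm, inv_mul_cancel, h1]
      right_inv := fun b => by
        change (b ^ κ v⁻¹) ^ κ v = b
        rw [← hm, mul_inv_cancel, h1]
      map_mul' := fun a b => mul_pow a b _ }
  map_one' := by
    ext b
    exact h1 b
  map_mul' v w := by
    ext b
    exact hm v w b

theorem powAct_apply {V : Type} [Group V] (κ : V → ℕ) (h1 : ∀ b : B, b ^ κ 1 = b)
    (hm : ∀ (v w : V) (b : B), b ^ κ (v * w) = (b ^ κ w) ^ κ v) (v : V) (b : B) :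
    powAct κ h1 hm v b = b ^ κ v := rfl

/-- The scalar case. -/
theorem lifts_of_scalar (p e : ℕ) (hp : p.Prime) (ρ : B →* Γ) (hρ : ρ.range = commutator Γ)
    (hB : ∀ b : B, b ^ p ^ e = 1)
    (hs : ∀ γ : Γ, ∃ k : ℕ, ∀ b, γ * ρ b * γ⁻¹ = ρ b ^ k)
    (hf : ∃ (f : Γ) (k : ℕ), (∀ b, f * ρ b * f⁻¹ = ρ b ^ k) ∧ ¬ k ≡ 1 [MOD p]) :
    Lifts Γ B ρ := by
  by_cases htriv : ∀ b : B, ρ b = 1
  · exact lifts_of_central ρ hρ (fun b γ => by rw [htriv b, one_mul, mul_one])
  push Not at htriv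
  obtain ⟨b1, hb1⟩ := htriv
  obtain ⟨f, kf, hkf, hkf1⟩ := hf
  set P : ℕ := p ^ e with hP
  have hP0 : P ≠ 0 := (pow_pos hp.pos e).ne'
  have : NeZero P := ⟨hP0⟩
  have hρP : ∀ b, ρ b ^ P = 1 := fun b => by rw [← map_pow, hB, map_one]
  -- the exponents are prime to `p`
  have hcopk : ∀ (γ : Γ) (k : ℕ), (∀ b, γ * ρ b * γ⁻¹ = ρ b ^ k) → Nat.Coprime k P := by
    intro γ k hk
    have h1 : Nat.Coprime k p := by
      rw [Nat.coprime_comm, Nat.Prime.coprime_iff_not_dvd hp]
      intro hdvd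
      obtain ⟨m, hm⟩ := hdvd
      -- the image of `ρ` has an element of order `p`
      have h2 : ∀ i, (∃ b, ρ b ≠ 1 ∧ ρ b ^ p ^ i = 1) → ∃ b, ρ b ≠ 1 ∧ ρ b ^ p = 1 := by
        intro i
        induction i with
        | zero =>
          rintro ⟨b, hb, hb'⟩
          rw [pow_zero, pow_one] at hb'
          exact absurd hb' hb
        | succ i ih =>
          rintro ⟨b, hb, hb'⟩
          by_cases h3 : ρ b ^ p = 1
          · exact ⟨b, hb, h3⟩
          · apply ih
            refine ⟨b ^ p, by rwa [map_pow], ?_⟩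
            rw [map_pow, ← pow_mul, ← pow_succ']
            exact hb'
      obtain ⟨b, hb, hb'⟩ := h2 e ⟨b1, hb1, hρP b1⟩
      have h3 := hk b
      rw [hm, pow_mul, hb', one_pow] at h3
      apply hb
      have h4 : γ * ρ b = γ := by
        have := mul_inv_eq_one.1 h3
        exact this
      exact mul_eq_left.1 h4
    exact Nat.Coprime.pow_right e h1
  let U : Type := (ZMod P)ˣ
  let κ : U → ℕ := fun u => (Units.val u : ZMod P).val
  have hBpow : ∀ {i j : ℕ}, i ≡ j [MOD P] → ∀ b : B, b ^ i = b ^ j := fun h b =>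
    pow_eq_pow_of_modEq h (hB b)
  have hκ1 : ∀ b : B, b ^ κ 1 = b := by
    intro b
    have h1 : κ 1 ≡ 1 [MOD P] := by
      have h2 : κ 1 = 1 % P := ZMod.val_one_eq_one_mod P
      rw [h2]
      exact Nat.mod_modEq 1 P
    rw [hBpow h1, pow_one]
  have hκm : ∀ (v w : U) (b : B), b ^ κ (v * w) = (b ^ κ w) ^ κ v := by
    intro v w b
    have h1 : κ (v * w) ≡ κ w * κ v [MOD P] := by
      have h2 : κ (v * w) = (κ v * κ w) % P := ZMod.val_mul _ _
      rw [h2, mul_comm (κ w)]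
      exact Nat.mod_modEq _ _
    rw [hBpow h1, pow_mul]
  let act : U →* MulAut B := powAct κ hκ1 hκm
  have hact : ∀ (u : U) (b : B), act u b = b ^ κ u := fun v b => rfl
  have hunit : ∀ (k : ℕ), Nat.Coprime k P → ∃ u : U, ∀ b : B, act u b = b ^ k := by
    intro k hk
    refine ⟨ZMod.unitOfCoprime k hk, fun b => ?_⟩
    rw [hact]
    apply hBpow
    have h1 : κ (ZMod.unitOfCoprime k hk) = k % P := by
      change ((ZMod.unitOfCoprime k hk : (ZMod P)ˣ) : ZMod P).val = k % P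
      rw [ZMod.coe_unitOfCoprime, ZMod.val_natCast]
    rw [h1]
    exact Nat.mod_modEq _ _
  let V : Subgroup Γ := Subgroup.centralizer {f}
  have hV : ∀ v : Γ, v ∈ V ↔ f * v = v * f := by
    intro v
    rw [Subgroup.mem_centralizer_iff]
    simp
  have hcop : IsCoprime ((kf : ℤ) - 1) ((P : ℕ) : ℤ) := by
    rw [hP, Nat.cast_pow]
    apply IsCoprime.pow_right
    apply IsCoprime.symm
    have h1 := (Nat.prime_iff_prime_int.1 hp).irreducible
    rw [h1.coprime_iff_not_dvd]
    intro h2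
    apply hkf1
    apply Nat.ModEq.symm
    rw [Nat.modEq_iff_dvd]
    exact_mod_cast h2
  obtain ⟨u, w, huw⟩ := hcop
  have hzB : ∀ (b : B) (z : ℤ), b ^ (((P : ℕ) : ℤ) * z) = 1 := by
    intro b z
    rw [zpow_mul, zpow_natCast, hB, one_zpow]
  have hfix : ∀ b, f * ρ b = ρ b * f → ρ b = 1 := by
    intro b hb
    have h1 := hkf b
    rw [hb, mul_inv_cancel_right] at h1
    have h2 : b = (b ^ kf * b⁻¹) ^ u := by
      rw [← zpow_natCast, ← zpow_neg_one, ← zpow_add, ← zpow_mul]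
      have h3 : ((kf : ℤ) + -1) * u = 1 + ((P : ℕ) : ℤ) * (-w) := by linear_combination huw
      rw [h3, zpow_add, zpow_one, hzB, mul_one]
    rw [h2, map_zpow, map_mul, map_pow, ← h1, ← map_mul, mul_inv_cancel, map_one, one_zpow]
  have hVcomm : ∀ v w : Γ, v ∈ V → w ∈ V → ⁅v, w⁆ = 1 := by
    intro v w hv hw
    have h2 : ⁅v, w⁆ ∈ ρ.range := by
      rw [hρ]
      exact Subgroup.commutator_mem_commutator (Subgroup.mem_top _) (Subgroup.mem_top _)
    obtain ⟨b, hb⟩ := h2
    have h3 : ρ b ∈ V := by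
      rw [hb, commutatorElement_def]
      exact V.mul_mem (V.mul_mem (V.mul_mem hv hw) (V.inv_mem hv)) (V.inv_mem hw)
    rw [← hb]
    exact hfix b ((hV _).1 h3)
  have hsurj : ∀ γ : Γ, ∃ a : B, (ρ a)⁻¹ * γ ∈ V := by
    intro γ
    have h1 : ⁅γ, f⁆ ∈ ρ.range := by
      rw [hρ]
      exact Subgroup.commutator_mem_commutator (Subgroup.mem_top _) (Subgroup.mem_top _)
    obtain ⟨b0, hb0⟩ := h1
    let a : B := b0 ^ (-u)
    have ha : ρ b0 * ρ a ^ kf = ρ a := by
      rw [← map_pow, ← map_mul]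
      congr 1
      change b0 * (b0 ^ (-u)) ^ kf = b0 ^ (-u)
      rw [← zpow_natCast, ← zpow_mul]
      have h3 : b0 * b0 ^ (-u * (kf : ℤ)) = b0 ^ (1 + -u * (kf : ℤ)) := by
        rw [zpow_add, zpow_one]
      rw [h3]
      have h4 : (1 : ℤ) + -u * (kf : ℤ) = -u + ((P : ℕ) : ℤ) * w := by
        linear_combination -huw
      rw [h4, zpow_add, hzB, mul_one]
    refine ⟨a, ?_⟩
    rw [hV]
    have h2 : γ * f = ρ b0 * f * γ := by
      rw [hb0, commutatorElement_def]
      group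
    have h3 : f * ρ a = ρ a ^ kf * f := by
      rw [← hkf]; group
    have h4 : ρ a * f = ρ b0 * (f * ρ a) := by
      rw [h3, ← mul_assoc, ha]
    have h5 : (ρ a)⁻¹ * ρ b0 * f = f * (ρ a)⁻¹ := by
      have h6 : ρ a * (f * (ρ a)⁻¹) = ρ b0 * f := by
        rw [← mul_assoc, h4]; group
      rw [mul_assoc, ← h6, inv_mul_cancel_left]
    calc f * ((ρ a)⁻¹ * γ) = (f * (ρ a)⁻¹) * γ := by group
      _ = (ρ a)⁻¹ * ρ b0 * f * γ := by rw [h5]
      _ = (ρ a)⁻¹ * (ρ b0 * f * γ) := by group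
      _ = (ρ a)⁻¹ * γ * f := by rw [← h2]; group
  let T : Type := (B ⋊[act] U) × Γ
  let Q : Subgroup T :=
    { carrier := {t | (∀ b, ρ (act t.1.right b) = t.2 * ρ b * t.2⁻¹) ∧ (ρ t.1.left)⁻¹ * t.2 ∈ V}
      one_mem' := by
        refine ⟨fun b => ?_, ?_⟩
        · change ρ (act 1 b) = 1 * ρ b * 1⁻¹
          rw [map_one act, MulAut.one_apply]
          simp
        · change (ρ 1)⁻¹ * 1 ∈ V
          rw [map_one, inv_one, one_mul]
          exact V.one_mem
      mul_mem' := by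
        rintro ⟨x, γ⟩ ⟨y, δ⟩ ⟨hx1, hx2⟩ ⟨hy1, hy2⟩
        simp only at hx1 hx2 hy1 hy2
        refine ⟨fun b => ?_, ?_⟩
        · change ρ (act (x.right * y.right) b) = (γ * δ) * ρ b * (γ * δ)⁻¹
          rw [map_mul act, MulAut.mul_apply, hx1, hy1]
          group
        · change (ρ (x.left * act x.right y.left))⁻¹ * (γ * δ) ∈ V
          have h1 : (ρ (x.left * act x.right y.left))⁻¹ * (γ * δ) =
              ((ρ x.left)⁻¹ * γ) * ((ρ y.left)⁻¹ * δ) := by
            have h2 : ρ (x.left * act x.right y.left) = ρ (act x.right y.left) * ρ x.left := by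
              rw [← map_mul, mul_comm]
            rw [h2, mul_inv_rev, hx1]
            group
          rw [h1]
          exact V.mul_mem hx2 hy2
      inv_mem' := by
        rintro ⟨x, γ⟩ ⟨hx1, hx2⟩
        simp only at hx1 hx2
        have hinv : ∀ b, ρ (act x.right⁻¹ b) = γ⁻¹ * ρ b * γ := by
          intro b
          have h1 := hx1 (act x.right⁻¹ b)
          rw [← MulAut.mul_apply, ← map_mul act, mul_inv_cancel, map_one act,
            MulAut.one_apply] at h1
          rw [h1]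
          group
        refine ⟨fun b => ?_, ?_⟩
        · change ρ (act x.right⁻¹ b) = γ⁻¹ * ρ b * (γ⁻¹)⁻¹
          rw [hinv, inv_inv]
        · change (ρ (act x.right⁻¹ x.left⁻¹))⁻¹ * γ⁻¹ ∈ V
          have h1 : (ρ (act x.right⁻¹ x.left⁻¹))⁻¹ * γ⁻¹ = ((ρ x.left)⁻¹ * γ)⁻¹ := by
            rw [hinv, map_inv]
            group
          rw [h1]
          exact V.inv_mem hx2 }
  have hQ : ∀ t : T, t ∈ Q ↔ (∀ b, ρ (act t.1.right b) = t.2 * ρ b * t.2⁻¹) ∧
      (ρ t.1.left)⁻¹ * t.2 ∈ V := fun _ => Iff.rfl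
  let j : B →* T := MonoidHom.prod SemidirectProduct.inl ρ
  have hj : ∀ b, j b = (SemidirectProduct.inl b, ρ b) := fun _ => rfl
  have hjQ : ∀ b, j b ∈ Q := by
    intro b
    refine ⟨fun c => ?_, ?_⟩
    · change ρ (act 1 c) = ρ b * ρ c * (ρ b)⁻¹
      rw [map_one act, MulAut.one_apply, ← map_mul, mul_comm, map_mul, mul_inv_cancel_right]
    · change (ρ b)⁻¹ * ρ b ∈ V
      rw [inv_mul_cancel]
      exact V.one_mem
  have hD : ⁅Q, Q⁆ = j.range := by
    apply le_antisymm
    · rw [Subgroup.commutator_le]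
      intro s hs t ht
      have h1 : ⁅s, t⁆ ∈ Q := by
        rw [commutatorElement_def]
        exact Q.mul_mem (Q.mul_mem (Q.mul_mem hs ht) (Q.inv_mem hs)) (Q.inv_mem ht)
      have h2 : (⁅s, t⁆ : T).1.right = 1 := by
        have h3 : (SemidirectProduct.rightHom : B ⋊[act] U →* U) (⁅s, t⁆ : T).1 = 1 := by
          have h4 : (⁅s, t⁆ : T).1 = ⁅s.1, t.1⁆ := rfl
          rw [h4, map_commutatorElement, commutatorElement_eq_one_iff_mul_comm]
          exact mul_comm _ _
        exact h3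
      -- modulo the image of `ρ` the elements of `V` commute
      have h5 : ρ (⁅s, t⁆ : T).1.left = (⁅s, t⁆ : T).2 := by
        have h6 := ((hQ _).1 h1).2
        have h7 : (⁅s, t⁆ : T).2 ∈ ρ.range := by
          rw [hρ]
          exact Subgroup.commutator_mem_commutator (Subgroup.mem_top _) (Subgroup.mem_top _)
        obtain ⟨c, hc⟩ := h7
        rw [← hc] at h6 ⊢
        have h8 : (ρ (⁅s, t⁆ : T).1.left)⁻¹ * ρ c = ρ ((⁅s, t⁆ : T).1.left⁻¹ * c) := by
          rw [map_mul, map_inv]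
        rw [h8, hV] at h6
        have h9 := hfix _ h6
        rw [map_mul, map_inv] at h9
        exact inv_mul_eq_one.1 h9
      refine ⟨(⁅s, t⁆ : T).1.left, ?_⟩
      rw [hj]
      apply Prod.ext
      · apply SemidirectProduct.ext
        · rfl
        · exact h2.symm
      · exact h5
    · rintro _ ⟨b, rfl⟩
      obtain ⟨uf, huf⟩ := hunit kf (hcopk f kf hkf)
      have hfQ : ((SemidirectProduct.inr uf, f) : T) ∈ Q := by
        refine ⟨fun c => ?_, ?_⟩
        · change ρ (act uf c) = f * ρ c * f⁻¹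
          rw [huf, map_pow, hkf]
        · change (ρ 1)⁻¹ * f ∈ V
          rw [map_one, inv_one, one_mul, hV]
      have h1 : ⁅((SemidirectProduct.inr uf, f) : T), j (b ^ u)⁆ = j b := by
        have h0 : b = (b ^ u) ^ kf * (b ^ u)⁻¹ := by
          rw [← zpow_natCast, ← zpow_mul, ← zpow_neg, ← zpow_add]
          have h4 : u * (kf : ℤ) + -u = 1 + ((P : ℕ) : ℤ) * (-w) := by linear_combination huw
          rw [h4, zpow_add, zpow_one, hzB, mul_one]
        have h2 : ⁅((SemidirectProduct.inr uf, f) : T), j (b ^ u)⁆ =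
            (⁅(SemidirectProduct.inr uf : B ⋊[act] U),
              (SemidirectProduct.inl (b ^ u) : B ⋊[act] U)⁆, ⁅f, ρ (b ^ u)⁆) := rfl
        rw [h2, hj]
        apply Prod.ext
        · change ⁅(SemidirectProduct.inr uf : B ⋊[act] U),
              (SemidirectProduct.inl (b ^ u) : B ⋊[act] U)⁆ = SemidirectProduct.inl b
          have h3 : (SemidirectProduct.inr uf : B ⋊[act] U) * SemidirectProduct.inl (b ^ u) *
              (SemidirectProduct.inr uf)⁻¹ = SemidirectProduct.inl (act uf (b ^ u)) := by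
            rw [SemidirectProduct.inl_aut, map_inv]
          rw [commutatorElement_def, h3, huf,
            ← map_inv (SemidirectProduct.inl : B →* B ⋊[act] U), ← map_mul, ← h0]
        · change ⁅f, ρ (b ^ u)⁆ = ρ b
          rw [commutatorElement_def, hkf, ← map_pow, ← map_inv, ← map_mul, ← h0]
      rw [← h1]
      exact Subgroup.commutator_mem_commutator hfQ (hjQ _)
  refine ⟨Q, inferInstance, (MonoidHom.snd (B ⋊[act] U) Γ).comp Q.subtype, j.codRestrict Q hjQ,
    ?_, ?_, ?_, ?_⟩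
  · intro γ
    obtain ⟨a, ha⟩ := hsurj γ
    obtain ⟨k, hk⟩ := hs γ
    obtain ⟨v, hv⟩ := hunit k (hcopk γ k hk)
    refine ⟨⟨((⟨a, v⟩ : B ⋊[act] U), γ), ⟨fun b => ?_, ha⟩⟩, rfl⟩
    change ρ (act v b) = γ * ρ b * γ⁻¹
    rw [hv, map_pow, hk]
  · intro b c hbc
    have h1 : j b = j c := congrArg Subtype.val hbc
    exact SemidirectProduct.inl_injective (congrArg Prod.fst h1)
  · apply Subgroup.map_injective Q.subtype_injective
    rw [Subgroup.map_subtype_commutator, hD]
    ext x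
    constructor
    · rintro ⟨_, ⟨b, rfl⟩, rfl⟩
      exact ⟨b, rfl⟩
    · rintro ⟨b, rfl⟩
      exact ⟨_, ⟨b, rfl⟩, rfl⟩
  · rfl

end

end Pool.H95I
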