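import Mathlib

set_option autoImplicit false

/-!
# Independent sets in the odd strong powers of the 5-cycle

The strong power is written in the words of the problem: the vertices are the words of length `n`
over `ZMod 5` and two distinct words are adjacent iff they differ by `0`, `1` or `-1` in every
coordinate.
-/

namespace Pool.Agent.Lib.H95I.StrongFive

/-- The `n`-th strong power of the 5-cycle: the vertices are the words in `(ZMod 5)^n`, and two
distinct words are adjacent iff they differ by `0` or `1` or `-1` in every coordinate. -/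
def strongPower (n : ℕ) : SimpleGraph (Fin n → ZMod 5) where
  Adj x y := x ≠ y ∧ ∀ i, x i - y i = 0 ∨ x i - y i = 1 ∨ x i - y i = -1
  symm := ⟨by
    rintro x y ⟨h1, h2⟩
    refine ⟨h1.symm, fun i => ?_⟩
    rcases h2 i with h | h | h
    · left; rw [← neg_sub, h, neg_zero]
    · right; right; rw [← neg_sub, h]
    · right; left; rw [← neg_sub, h, neg_neg]⟩
  loopless := ⟨fun x h => h.1 rfl⟩

lemma adj_iff {n : ℕ} {x y : Fin n → ZMod 5} : (strongPower n).Adj x y ↔
    x ≠ y ∧ ∀ i, x i - y i = 0 ∨ x i - y i = 1 ∨ x i - y i = -1 := Iff.rfl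

/-- Two letters at distance two. -/
def Far (a b : ZMod 5) : Prop := ¬ (a - b = 0 ∨ a - b = 1 ∨ a - b = -1)

instance (a b : ZMod 5) : Decidable (Far a b) := inferInstanceAs (Decidable (¬ _))

/-- A set of words is independent as soon as two distinct words are far in some coordinate. -/
lemma isIndepSet_of_far {n : ℕ} {S : Set (Fin n → ZMod 5)}
    (h : ∀ x ∈ S, ∀ y ∈ S, x ≠ y → ∃ i, Far (x i) (y i)) : (strongPower n).IsIndepSet S := by
  intro x hx y hy hxy hadj
  obtain ⟨i, hi⟩ := h x hx y hy hxy
  exact hi (hadj.2 i)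

lemma far_of_isIndepSet {n : ℕ} {S : Set (Fin n → ZMod 5)} (h : (strongPower n).IsIndepSet S)
    {x y : Fin n → ZMod 5} (hx : x ∈ S) (hy : y ∈ S) (hxy : x ≠ y) : ∃ i, Far (x i) (y i) := by
  by_contra hcon
  push Not at hcon
  exact h hx hy hxy ⟨hxy, fun i => not_not.1 (hcon i)⟩

lemma far_double : ∀ a b : ZMod 5, a ≠ b → Far a b ∨ Far (2 * a) (2 * b) := by decide

/-- Two more coordinates multiply the independence number by at least five. -/
theorem five_mul_le (n : ℕ) :
    5 * (strongPower n).indepNum ≤ (strongPower (n + 2)).indepNum := by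
  classical
  obtain ⟨S, hS⟩ := (strongPower n).exists_isNIndepSet_indepNum
  set f : ZMod 5 × (Fin n → ZMod 5) → (Fin (n + 2) → ZMod 5) := fun p =>
    Fin.cons p.1 (Fin.cons (2 * p.1) p.2 : Fin (n + 1) → ZMod 5) with hf
  have hfinj : Function.Injective f := by
    rintro ⟨a, x⟩ ⟨b, y⟩ h
    have h1 := Fin.cons_inj.1 h
    have h2 := Fin.cons_inj.1 h1.2
    rw [Prod.mk.injEq]
    exact ⟨h1.1, h2.2⟩
  have hind : (strongPower (n + 2)).IsIndepSet
      (((Finset.univ ×ˢ S).image f : Finset (Fin (n + 2) → ZMod 5)) : Set _) := by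
    refine isIndepSet_of_far ?_
    intro u hu v hv huv
    simp only [Finset.coe_image, Set.mem_image, Finset.mem_coe, Finset.mem_product,
      Finset.mem_univ, true_and] at hu hv
    obtain ⟨⟨a, x⟩, hx, rfl⟩ := hu
    obtain ⟨⟨b, y⟩, hy, rfl⟩ := hv
    by_cases hab : a = b
    · have hxy : x ≠ y := fun h => huv (by rw [hab, h])
      obtain ⟨i, hi⟩ := far_of_isIndepSet hS.1 (Finset.mem_coe.2 hx) (Finset.mem_coe.2 hy) hxy
      refine ⟨i.succ.succ, ?_⟩
      simpa [hf] using hi
    · rcases far_double a b hab with h | h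
      · refine ⟨0, ?_⟩
        simpa [hf] using h
      · refine ⟨(0 : Fin (n + 1)).succ, ?_⟩
        simpa [hf] using h
  have hle := hind.card_le_indepNum
  rw [Finset.card_image_of_injective _ hfinj, Finset.card_product, hS.2] at hle
  simpa [ZMod.card] using hle

/-- The word of length five whose letters are the digits of `x` in base five. -/
def word (x : ℕ) : Fin 5 → ZMod 5 := fun i => ((x / 5 ^ (i : ℕ) : ℕ) : ZMod 5)

/-- Codes (in base five) of the 51 words: the word 11111 and ten orbits of the cyclic shift. -/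
def codes : List ℕ := [71, 141, 249, 263, 304, 327, 355, 401, 512, 598, 639, 653, 705, 781, 813,
  941, 1064, 1212, 1245, 1315, 1352, 1492, 1520, 1548, 1581, 1599, 1608, 1635, 1657, 1747, 1775,
  1792, 1927, 1994, 2005, 2037, 2184, 2196, 2454, 2487, 2549, 2560, 2627, 2712, 2819, 2898, 2936,
  2990, 3009, 3063, 3101]

/-- In some coordinate the two words differ by two or three modulo five. -/
def far (x y : ℕ) : Bool := (List.range 5).any fun i =>
  (x / 5 ^ i + 4 * (y / 5 ^ i)) % 5 == 2 || (x / 5 ^ i + 4 * (y / 5 ^ i)) % 5 == 3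

lemma codes_far : ∀ x ∈ codes, ∀ y ∈ codes, x = y ∨ far x y = true := by decide +kernel

lemma codes_card : codes.toFinset.card = 51 := by decide +kernel

lemma far_spec {x y : ℕ} (h : far x y = true) : ∃ i : Fin 5, Far (word x i) (word y i) := by
  simp only [far, List.any_eq_true, List.mem_range, Bool.or_eq_true, beq_iff_eq] at h
  obtain ⟨i, hi, h⟩ := h
  refine ⟨⟨i, hi⟩, ?_⟩
  have key : word x ⟨i, hi⟩ - word y ⟨i, hi⟩ = (((x / 5 ^ i + 4 * (y / 5 ^ i)) % 5 : ℕ) : ZMod 5) := by
    rw [ZMod.natCast_mod]
    simp only [word]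
    push_cast
    have : (4 : ZMod 5) = -1 := by decide
    rw [this]; ring
  unfold Far
  rw [key]
  rcases h with h | h <;> rw [h] <;> decide

lemma word_inj {x y : ℕ} (hx : x ∈ codes) (hy : y ∈ codes) (h : word x = word y) : x = y := by
  rcases codes_far x hx y hy with h1 | h1
  · exact h1
  · obtain ⟨i, hi⟩ := far_spec h1
    exact absurd (Or.inl (by rw [h, sub_self])) hi

/-- The fifth strong power of the 5-cycle has an independent set of 51 words. -/
theorem fiftyone_le : 51 ≤ (strongPower 5).indepNum := by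
  have hind : (strongPower 5).IsIndepSet
      ((codes.toFinset.image word : Finset (Fin 5 → ZMod 5)) : Set _) := by
    refine isIndepSet_of_far ?_
    intro u hu v hv huv
    simp only [Finset.coe_image, Set.mem_image, Finset.mem_coe, List.mem_toFinset] at hu hv
    obtain ⟨x, hx, rfl⟩ := hu
    obtain ⟨y, hy, rfl⟩ := hv
    exact far_spec ((codes_far x hx y hy).resolve_left fun h => huv (by rw [h]))
  have hle := hind.card_le_indepNum
  rwa [Finset.card_image_of_injOn, codes_card] at hle
  intro x hx y hy h
  simp only [Finset.mem_coe, List.mem_toFinset] at hx hy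
  exact word_inj hx hy h

/-- Every odd power from the fifth on. -/
theorem odd_power (k : ℕ) : 51 * 5 ^ k ≤ (strongPower (5 + 2 * k)).indepNum := by
  induction k with
  | zero => simpa using fiftyone_le
  | succ k ih =>
    have h1 := five_mul_le (5 + 2 * k)
    have h2 : 51 * 5 ^ (k + 1) = 5 * (51 * 5 ^ k) := by ring
    rw [h2]
    exact (Nat.mul_le_mul_left 5 ih).trans h1

end Pool.Agent.Lib.H95I.StrongFive
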