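import Pool.Agent.Lib.H95I.Cover

/-!
# Groups with cyclic Sylow subgroups
-/

set_option autoImplicit false

namespace Pool.H95I

open scoped commutatorElement

/-- In a group with cyclic Sylow subgroups some element acts on the `p`-part of the derived subgroup
as a power map with exponent not congruent to `1`. -/
theorem exists_ne_one_mod {G : Type} [Group G] [Finite G] [IsZGroup G] {p : ℕ} (hp : p.Prime)
    (hd : p ∣ Nat.card (commutator G)) :
    (∀ g : G, ∃ k : ℕ, ∀ d ∈ commutator G, g * d * g⁻¹ = d ^ k) ∧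
      ∃ (g : G) (k : ℕ), (∀ d ∈ commutator G, g * d * g⁻¹ = d ^ k) ∧ ¬ k ≡ 1 [MOD p] := by
  have hcyc : IsCyclic (commutator G) := IsZGroup.isCyclic_commutator G
  have hcomm : ∀ a ∈ commutator G, ∀ b ∈ commutator G, a * b = b * a := by
    intro a ha b hb
    have h1 := (IsCyclic.commGroup (α := commutator G)).mul_comm ⟨a, ha⟩ ⟨b, hb⟩
    exact congrArg Subtype.val h1
  have hc0 : (Nat.card (commutator G) : ℤ) ≠ 0 := by
    exact_mod_cast (Nat.card_pos (α := commutator G)).ne'
  have hpow : ∀ g : G, ∃ k : ℕ, ∀ d ∈ commutator G, g * d * g⁻¹ = d ^ k := by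
    intro g
    obtain ⟨z, hz⟩ := MonoidHom.map_cyclic
      ((MulAut.conjNormal g : MulAut (commutator G)).toMonoidHom)
    refine ⟨(z % Nat.card (commutator G)).toNat, ?_⟩
    intro a ha
    have h1 := hz ⟨a, ha⟩
    have h2 : (⟨a, ha⟩ : commutator G) ^ z =
        (⟨a, ha⟩ : commutator G) ^ (z % Nat.card (commutator G)).toNat := by
      rw [← zpow_natCast, Int.toNat_of_nonneg (Int.emod_nonneg _ hc0)]
      rw [← zpow_mod_natCard]
    rw [h2] at h1
    have h3 := congrArg (fun t : commutator G => (t : G)) h1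
    change ((MulAut.conjNormal g (⟨a, ha⟩ : commutator G) : commutator G) : G) = a ^ _ at h3
    rw [MulAut.conjNormal_apply] at h3
    exact h3
  refine ⟨hpow, ?_⟩
  by_contra hcon
  push Not at hcon
  let P : Subgroup G :=
    { carrier := {x | ∃ d ∈ commutator G, d ^ p = x}
      one_mem' := ⟨1, (commutator G).one_mem, one_pow p⟩
      mul_mem' := by
        rintro _ _ ⟨a, ha, rfl⟩ ⟨b, hb, rfl⟩
        exact ⟨a * b, (commutator G).mul_mem ha hb, (show Commute a b from hcomm a ha b hb).mul_pow p⟩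
      inv_mem' := by
        rintro _ ⟨a, ha, rfl⟩
        exact ⟨a⁻¹, (commutator G).inv_mem ha, inv_pow a p⟩ }
  have hP : ∀ x, x ∈ P ↔ ∃ d ∈ commutator G, d ^ p = x := fun _ => Iff.rfl
  have hPn : P.Normal := by
    refine ⟨?_⟩
    rintro _ ⟨a, ha, rfl⟩ g
    exact ⟨g * a * g⁻¹, (inferInstance : (commutator G).Normal).conj_mem a ha g, conj_pow⟩
  have hD : (commutator G).map (QuotientGroup.mk' P) = commutator (G ⧸ P) := by
    have h2 := Subgroup.map_commutator (⊤ : Subgroup G) ⊤ (QuotientGroup.mk' P)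
    rw [Subgroup.map_top_of_surjective _ (QuotientGroup.mk'_surjective P)] at h2
    exact h2
  have hcen : commutator (G ⧸ P) ≤ Subgroup.center (G ⧸ P) := by
    rw [← hD]
    rintro _ ⟨d, hd', rfl⟩
    rw [Subgroup.mem_center_iff]
    intro y
    obtain ⟨g, rfl⟩ := QuotientGroup.mk'_surjective P y
    obtain ⟨k, hk⟩ := hpow g
    have h1 := hcon g k hk
    have h2 : QuotientGroup.mk' P (d ^ k) = QuotientGroup.mk' P d := by
      rcases Nat.lt_or_ge k 1 with hk0 | hk1
      · exfalso
        have hk0' : k = 0 := by omega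
        rw [hk0'] at h1
        have h3 := (Nat.modEq_iff_dvd' (Nat.zero_le 1)).1 h1
        exact hp.one_lt.ne' (Nat.dvd_one.1 h3)
      · obtain ⟨t, ht⟩ := (Nat.modEq_iff_dvd' hk1).1 h1.symm
        have h3 : k = 1 + p * t := by omega
        rw [h3, pow_add, pow_one, map_mul]
        have h4 : QuotientGroup.mk' P (d ^ (p * t)) = 1 := by
          rw [← MonoidHom.mem_ker, QuotientGroup.ker_mk', mul_comm, pow_mul]
          exact ⟨d ^ t, (commutator G).pow_mem hd' t, rfl⟩
        rw [h4, mul_one]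
    rw [← hk d hd', map_mul, map_mul, map_inv, mul_inv_eq_iff_eq_mul] at h2
    exact h2
  have hnil : Group.IsNilpotent (G ⧸ P) := by
    refine Subgroup.isNilpotent_of_ker_le_center (Abelianization.of : G ⧸ P →* _) ?_
    rw [Abelianization.ker_of]
    exact hcen
  have hcyc2 : IsCyclic (G ⧸ P) := inferInstance
  have hle : commutator G ≤ P := by
    rw [commutator_def, Subgroup.commutator_le]
    intro a _ b _
    have h1 := (IsCyclic.commGroup (α := G ⧸ P)).mul_comm (QuotientGroup.mk' P a)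
      (QuotientGroup.mk' P b)
    have h2 : QuotientGroup.mk' P ⁅a, b⁆ = 1 := by
      rw [map_commutatorElement, commutatorElement_eq_one_iff_mul_comm]
      exact h1
    rwa [← MonoidHom.mem_ker, QuotientGroup.ker_mk'] at h2
  have hsurj : Function.Surjective fun d : commutator G => d ^ p := by
    rintro ⟨x, hx⟩
    obtain ⟨d, hd', hdx⟩ := hle hx
    exact ⟨⟨d, hd'⟩, Subtype.ext hdx⟩
  have hinj : Function.Injective fun d : commutator G => d ^ p :=
    Finite.injective_iff_surjective.2 hsurj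
  have : Fact p.Prime := ⟨hp⟩
  obtain ⟨x, hx⟩ := exists_prime_orderOf_dvd_card' p hd
  have h1 : x ^ p = 1 := by rw [← hx, pow_orderOf_eq_one]
  have h2 : x = 1 := hinj (by simp only [h1, one_pow])
  rw [h2, orderOf_one] at hx
  exact hp.one_lt.ne hx

section

variable {Δ : Type} [Group Δ]

/-- For a group `N` with cyclic Sylow subgroups all local conditions hold. -/
theorem pcond_of_isZGroup {A N : Subgroup Δ} [Finite N] (hN : ⁅N, N⁆ = A) (hz : IsZGroup N)
    {p : ℕ} (hp : p.Prime) : PCond A N p := by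
  have hA : (commutator N).map N.subtype = A := by
    rw [Subgroup.map_subtype_commutator, hN]
  have hmem : ∀ a ∈ A, ∃ d : N, d ∈ commutator N ∧ (d : Δ) = a := by
    intro a ha
    rw [← hA] at ha
    obtain ⟨d, hd, rfl⟩ := ha
    exact ⟨d, hd, rfl⟩
  by_cases hd : p ∣ Nat.card (commutator N)
  · right
    obtain ⟨h1, g, k, hk, hk1⟩ := exists_ne_one_mod hp hd
    refine ⟨?_, (g : Δ), g.2, k, ?_, hk1⟩
    · intro n hn
      obtain ⟨k', hk'⟩ := h1 ⟨n, hn⟩
      refine ⟨k', fun a ha _ => ?_⟩
      obtain ⟨d, hd', rfl⟩ := hmem a ha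
      exact congrArg Subtype.val (hk' d hd')
    · intro a ha _
      obtain ⟨d, hd', rfl⟩ := hmem a ha
      exact congrArg Subtype.val (hk d hd')
  · left
    rintro n hn a ha ⟨r, hr⟩
    obtain ⟨d, hd', rfl⟩ := hmem a ha
    have h1 : orderOf (⟨d, hd'⟩ : commutator N) ∣ p ^ r := by
      rw [orderOf_dvd_iff_pow_eq_one]
      apply Subtype.ext
      apply Subtype.ext
      exact hr
    have h2 : orderOf (⟨d, hd'⟩ : commutator N) ∣ Nat.card (commutator N) :=
      orderOf_dvd_natCard _
    have h3 : orderOf (⟨d, hd'⟩ : commutator N) = 1 :=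
      Nat.eq_one_of_dvd_coprimes (Nat.Coprime.pow_left r ((Nat.Prime.coprime_iff_not_dvd hp).2 hd))
        h1 h2
    rw [orderOf_eq_one_iff] at h3
    have h4 : d = 1 := congrArg Subtype.val h3
    rw [h4]
    change n * 1 = 1 * n
    rw [mul_one, one_mul]

/-- If the Sylow subgroups of `Δ` are cyclic the covering property is the property of being a
derived subgroup. -/
theorem coverLifts_iff_of_isZGroup [Finite Δ] (hz : IsZGroup Δ) {A : Subgroup Δ}
    (hA : ∀ a ∈ A, ∀ b ∈ A, a * b = b * a) :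
    CoverLifts A ↔ ∃ N : Subgroup Δ, ⁅N, N⁆ = A :=
  ⟨fun h => h.exists_derived hA,
    fun ⟨_, hN⟩ => coverLifts_of_pcond hN fun _ hp => pcond_of_isZGroup hN inferInstance hp⟩

end

end Pool.H95I
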