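import Pool.Agent.Lib.H95I.ZGrp

/-!
# Derived subgroups in groups with cyclic Sylow subgroups
-/

set_option autoImplicit false

namespace Pool.H95I

open scoped commutatorElement

variable {Δ : Type} [Group Δ] [Finite Δ]

/-- In a group with cyclic Sylow subgroups every subgroup of the derived subgroup is the derived
subgroup of a subgroup. -/
theorem exists_derived_of_isZGroup (hz : IsZGroup Δ) {A : Subgroup Δ} (hAD : A ≤ commutator Δ) :
    ∃ N : Subgroup Δ, ⁅N, N⁆ = A := by
  have hcyc : IsCyclic (commutator Δ) := IsZGroup.isCyclic_commutator Δ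
  have hcomm : ∀ a ∈ commutator Δ, ∀ b ∈ commutator Δ, a * b = b * a := by
    intro a ha b hb
    have h1 := (IsCyclic.commGroup (α := commutator Δ)).mul_comm ⟨a, ha⟩ ⟨b, hb⟩
    exact congrArg Subtype.val h1
  have hc0 : (Nat.card (commutator Δ) : ℤ) ≠ 0 := by
    exact_mod_cast (Nat.card_pos (α := commutator Δ)).ne'
  have hzpow : ∀ g : Δ, ∃ z : ℤ, ∀ d ∈ commutator Δ, g * d * g⁻¹ = d ^ z := by
    intro g
    obtain ⟨z, hz⟩ := MonoidHom.map_cyclic
      ((MulAut.conjNormal g : MulAut (commutator Δ)).toMonoidHom)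
    refine ⟨z, ?_⟩
    intro a ha
    have h3 := congrArg (fun t : commutator Δ => (t : Δ)) (hz ⟨a, ha⟩)
    change ((MulAut.conjNormal g (⟨a, ha⟩ : commutator Δ) : commutator Δ) : Δ) = a ^ z at h3
    rw [MulAut.conjNormal_apply] at h3
    exact h3
  have hAn : A.Normal := by
    refine ⟨fun a ha g => ?_⟩
    obtain ⟨z, hz⟩ := hzpow g
    rw [hz a (hAD ha)]
    exact A.zpow_mem ha z
  obtain ⟨C, hC⟩ := Subgroup.exists_right_complement'_of_coprime
    (IsZGroup.coprime_commutator_index Δ)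
  have hCC : ⁅C, C⁆ = ⊥ := by
    rw [eq_bot_iff]
    have h1 : ⁅C, C⁆ ≤ commutator Δ ⊓ C :=
      le_inf (Subgroup.commutator_mono le_top le_top) (Subgroup.commutator_le_self C)
    exact h1.trans hC.disjoint.le_bot
  refine ⟨A ⊔ C, le_antisymm ?_ ?_⟩
  · have h1 : (⁅A ⊔ C, A ⊔ C⁆).map (QuotientGroup.mk' A) = ⊥ := by
      rw [Subgroup.map_commutator, Subgroup.map_sup]
      have h2 : A.map (QuotientGroup.mk' A) = ⊥ := by
        rw [Subgroup.map_eq_bot_iff, QuotientGroup.ker_mk']
      rw [h2, bot_sup_eq, ← Subgroup.map_commutator, hCC, Subgroup.map_bot]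
    rw [Subgroup.map_eq_bot_iff, QuotientGroup.ker_mk'] at h1
    exact h1
  · by_contra hle
    let W : Subgroup Δ := ⁅A ⊔ C, A ⊔ C⁆
    have hWn : (W.subgroupOf A).Normal := by
      refine ⟨fun w hw a => ?_⟩
      have h1 : a * w * a⁻¹ = w := by
        apply Subtype.ext
        change (a : Δ) * w * (a : Δ)⁻¹ = w
        rw [hcomm a (hAD a.2) w (hAD w.2), mul_inv_cancel_right]
      rw [h1]
      exact hw
    have hidx : Nat.card (A ⧸ W.subgroupOf A) ≠ 1 := by
      intro h1
      apply hle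
      have h2 : (W.subgroupOf A).index = 1 := h1
      rw [Subgroup.index_eq_one, Subgroup.subgroupOf_eq_top] at h2
      exact h2
    obtain ⟨p, hp, hpd⟩ := Nat.exists_prime_and_dvd hidx
    have hfact : Fact p.Prime := ⟨hp⟩
    obtain ⟨x, hx⟩ := exists_prime_orderOf_dvd_card' p hpd
    have hpD : p ∣ Nat.card (commutator Δ) := by
      have h1 : Nat.card (A ⧸ W.subgroupOf A) ∣ Nat.card A :=
        Subgroup.index_dvd_card (W.subgroupOf A)
      exact (hpd.trans h1).trans (Subgroup.card_dvd_of_le hAD)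
    obtain ⟨-, g, k, hk, hk1⟩ := exists_ne_one_mod hp hpD
    have hg : g ∈ commutator Δ ⊔ C := by
      rw [hC.sup_eq_top]
      exact Subgroup.mem_top g
    obtain ⟨d, hd, c, hc, rfl⟩ := Subgroup.mem_sup_of_normal_left.1 hg
    obtain ⟨a, rfl⟩ := QuotientGroup.mk'_surjective _ x
    have h1 : c * (a : Δ) * c⁻¹ = (a : Δ) ^ k := by
      have h2 := hk a (hAD a.2)
      have h3 : c * (a : Δ) * c⁻¹ ∈ commutator Δ :=
        (inferInstance : (commutator Δ).Normal).conj_mem _ (hAD a.2) c
      have h4 := hcomm d hd _ h3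
      calc c * (a : Δ) * c⁻¹ = d * (c * (a : Δ) * c⁻¹) * d⁻¹ := by
            rw [h4, mul_inv_cancel_right]
        _ = d * c * (a : Δ) * (d * c)⁻¹ := by group
        _ = (a : Δ) ^ k := h2
    have h2 : a ^ k * a⁻¹ ∈ W.subgroupOf A := by
      rw [Subgroup.mem_subgroupOf]
      change (a : Δ) ^ k * (a : Δ)⁻¹ ∈ W
      rw [← h1, ← commutatorElement_def]
      exact Subgroup.commutator_mem_commutator (Subgroup.mem_sup_right hc)
        (Subgroup.mem_sup_left a.2)
    have h3 : (QuotientGroup.mk' (W.subgroupOf A) a) ^ k =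
        (QuotientGroup.mk' (W.subgroupOf A) a) ^ 1 := by
      rw [pow_one, ← mul_inv_eq_one, ← map_pow, ← map_inv, ← map_mul, ← MonoidHom.mem_ker,
        QuotientGroup.ker_mk']
      exact h2
    rw [pow_eq_pow_iff_modEq, hx] at h3
    exact hk1 h3

/-- If the Sylow subgroups of `Δ` are cyclic then `A` has the covering property if and only if it
lies in the derived subgroup. -/
theorem coverLifts_iff_le_of_isZGroup (hz : IsZGroup Δ) {A : Subgroup Δ}
    (hA : ∀ a ∈ A, ∀ b ∈ A, a * b = b * a) :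
    CoverLifts A ↔ A ≤ commutator Δ := by
  rw [coverLifts_iff_of_isZGroup hz hA]
  constructor
  · rintro ⟨N, rfl⟩
    exact Subgroup.commutator_mono le_top le_top
  · exact exists_derived_of_isZGroup hz

end Pool.H95I
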