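import Pool.Agent.Lib.H95I.Equi

/-!
# Automorphisms of groups whose centre meets the derived subgroup trivially
-/

set_option autoImplicit false

namespace Pool.H95I

open scoped commutatorElement

section

variable {H : Type} [Group H]

/-- The centre of the derived subgroup. -/
def zd (H : Type) [Group H] : Subgroup H :=
  commutator H ⊓ Subgroup.centralizer (commutator H : Set H)

theorem mem_zd {z : H} : z ∈ zd H ↔ z ∈ commutator H ∧ ∀ d ∈ commutator H, d * z = z * d := by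
  rw [zd, Subgroup.mem_inf, Subgroup.mem_centralizer_iff]
  exact Iff.rfl

instance zdComm : CommGroup (zd H) :=
  { (inferInstance : Group (zd H)) with
    mul_comm := fun a b => Subtype.ext ((mem_zd.1 b.2).2 a (mem_zd.1 a.2).1) }

theorem conj_mem_comm (h : H) {d : H} (hd : d ∈ commutator H) : h * d * h⁻¹ ∈ commutator H :=
  (inferInstance : (commutator H).Normal).conj_mem d hd h

theorem conj_mem_zd (h : H) {z : H} (hz : z ∈ zd H) : h * z * h⁻¹ ∈ zd H := by
  rw [mem_zd] at hz ⊢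
  refine ⟨conj_mem_comm h hz.1, ?_⟩
  intro d hd
  have h1 := hz.2 (h⁻¹ * d * h) (by
    have := conj_mem_comm h⁻¹ hd
    rwa [inv_inv] at this)
  calc d * (h * z * h⁻¹) = h * (h⁻¹ * d * h * z) * h⁻¹ := by group
    _ = h * (z * (h⁻¹ * d * h)) * h⁻¹ := by rw [h1]
    _ = h * z * h⁻¹ * d := by group

/-- Conjugation on the centre of the derived subgroup. -/
def cj (h : H) : zd H →* zd H where
  toFun z := ⟨h * z * h⁻¹, conj_mem_zd h z.2⟩
  map_one' := by
    apply Subtype.ext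
    change h * 1 * h⁻¹ = 1
    rw [mul_one, mul_inv_cancel]
  map_mul' a b := by
    apply Subtype.ext
    change h * ((a : H) * b) * h⁻¹ = (h * a * h⁻¹) * (h * b * h⁻¹)
    group

theorem cj_coe (h : H) (z : zd H) : ((cj h z : zd H) : H) = h * z * h⁻¹ := rfl

theorem cj_mul (a b : H) (z : zd H) : cj (a * b) z = cj a (cj b z) := by
  apply Subtype.ext
  rw [cj_coe, cj_coe, cj_coe]
  group

theorem cj_of_mem {d : H} (hd : d ∈ commutator H) (z : zd H) : cj d z = z := by
  apply Subtype.ext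
  rw [cj_coe, (mem_zd.1 z.2).2 d hd, mul_inv_cancel_right]

theorem cj_comm (a b : H) (z : zd H) : cj a (cj b z) = cj b (cj a z) := by
  have h1 : a * b = ⁅a, b⁆ * (b * a) := by
    rw [commutatorElement_def]
    group
  have h2 : ⁅a, b⁆ ∈ commutator H :=
    Subgroup.commutator_mem_commutator (Subgroup.mem_top a) (Subgroup.mem_top b)
  rw [← cj_mul, h1, cj_mul, cj_of_mem h2, cj_mul]

theorem cj_comm' : ∀ g ∈ Set.range (cj (H := H)), ∀ g' ∈ Set.range (cj (H := H)), ∀ v,
    g (g' v) = g' (g v) := by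
  rintro _ ⟨a, rfl⟩ _ ⟨b, rfl⟩ v
  exact cj_comm a b v

theorem fix_eq_one (hZ : Subgroup.center H ⊓ commutator H = ⊥) (v : zd H)
    (hv : ∀ g ∈ Set.range (cj (H := H)), g v = v) : v = 1 := by
  have h1 : (v : H) ∈ Subgroup.center H ⊓ commutator H := by
    refine Subgroup.mem_inf.2 ⟨?_, (mem_zd.1 v.2).1⟩
    rw [Subgroup.mem_center_iff]
    intro h
    have h2 := congrArg Subtype.val (hv _ ⟨h, rfl⟩)
    rw [cj_coe, mul_inv_eq_iff_eq_mul] at h2
    exact h2
  rw [hZ, Subgroup.mem_bot] at h1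
  exact Subtype.ext h1

/-- An automorphism that is trivial on the derived subgroup and on the quotient is inner. -/
theorem exists_conj_of_trivial [Finite H] (hZ : Subgroup.center H ⊓ commutator H = ⊥)
    (θ : MulAut H) (hθ : ∀ d ∈ commutator H, θ d = d)
    (hθ' : ∀ h, θ h * h⁻¹ ∈ commutator H) : ∃ u ∈ zd H, θ = MulAut.conj u := by
  have hz : ∀ h, θ h * h⁻¹ ∈ zd H := by
    intro h
    rw [mem_zd]
    refine ⟨hθ' h, ?_⟩
    intro d hd
    have h1 := hθ (h⁻¹ * d * h) (by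
      have := conj_mem_comm h⁻¹ hd
      rwa [inv_inv] at this)
    rw [map_mul, map_mul, map_inv, hθ d hd] at h1
    have h2 : d * θ h = θ h * (h⁻¹ * d * h) := by
      rw [← h1]
      group
    calc d * (θ h * h⁻¹) = (d * θ h) * h⁻¹ := by group
      _ = θ h * (h⁻¹ * d * h) * h⁻¹ := by rw [h2]
      _ = θ h * h⁻¹ * d := by group
  let z : H → zd H := fun h => ⟨θ h * h⁻¹, hz h⟩
  have hzc : ∀ h, (z h : H) = θ h * h⁻¹ := fun _ => rfl
  have hz1 : ∀ a b, z (a * b) = z a * cj a (z b) := by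
    intro a b
    apply Subtype.ext
    rw [Subgroup.coe_mul, cj_coe, hzc, hzc, hzc, map_mul]
    group
  have hz2 : ∀ d ∈ commutator H, ∀ x, z (d * x) = z x := by
    intro d hd x
    have h1 : z d = 1 := by
      apply Subtype.ext
      rw [hzc, hθ d hd, mul_inv_cancel]
      rfl
    rw [hz1, h1, one_mul, cj_of_mem hd]
  have hz3 : ∀ s h, z s * cj s (z h) = z h * cj h (z s) := by
    intro s h
    have h1 : s * h = ⁅s, h⁆ * (h * s) := by
      rw [commutatorElement_def]
      group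
    have h2 : ⁅s, h⁆ ∈ commutator H :=
      Subgroup.commutator_mem_commutator (Subgroup.mem_top s) (Subgroup.mem_top h)
    rw [← hz1, h1, hz2 _ h2, hz1]
  obtain ⟨u, hu⟩ := id_mem_of_ideal (Set.range (cj (H := H))) cj_comm' (fix_eq_one hZ)
    (fun ψ => ∃ u : zd H, ∀ h, ψ (z h) = u * (cj h u)⁻¹)
    ⟨1, fun h => by rw [map_one, inv_one, mul_one]; rfl⟩
    (by
      rintro a b ⟨u, hu⟩ ⟨w, hw⟩
      refine ⟨u * w, fun h => ?_⟩
      rw [MonoidHom.mul_apply, hu, hw, map_mul, mul_inv, mul_mul_mul_comm])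
    (by
      rintro ψ j hψ ⟨u, hu⟩
      refine ⟨ψ u, fun h => ?_⟩
      rw [MonoidHom.comp_apply, hu, map_mul, map_inv, hψ _ ⟨h, rfl⟩])
    (by
      rintro _ ⟨s, rfl⟩
      refine ⟨(z s)⁻¹, fun h => ?_⟩
      rw [dif_apply, map_inv, inv_inv, mul_inv_eq_iff_eq_mul, eq_comm, mul_assoc,
        inv_mul_eq_iff_eq_mul, mul_comm (cj h (z s)) (z h)]
      exact (hz3 s h).symm)
  refine ⟨u, u.2, ?_⟩
  ext h
  have h1 := congrArg Subtype.val (hu h)
  change θ h * h⁻¹ = (u : H) * (h * u * h⁻¹)⁻¹ at h1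
  rw [MulAut.conj_apply, mul_inv_eq_iff_eq_mul.1 h1]
  group

/-- The centralizer of the derived subgroup is the product of its centre and the centre. -/
theorem exists_of_centralizes [Finite H] (hZ : Subgroup.center H ⊓ commutator H = ⊥) (c : H)
    (hc : ∀ d ∈ commutator H, c * d = d * c) :
    ∃ u ∈ zd H, MulAut.conj c = MulAut.conj u := by
  apply exists_conj_of_trivial hZ
  · intro d hd
    rw [MulAut.conj_apply, hc d hd, mul_inv_cancel_right]
  · intro h
    rw [MulAut.conj_apply, ← commutatorElement_def]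
    exact Subgroup.commutator_mem_commutator (Subgroup.mem_top c) (Subgroup.mem_top h)

end

section

variable {H : Type} [Group H]

/-- The action on the derived subgroup. -/
abbrev cn (H : Type) [Group H] : H →* MulAut (commutator H) := MulAut.conjNormal

theorem cn_coe (h : H) (d : commutator H) : ((cn H h d : commutator H) : H) = h * d * h⁻¹ :=
  MulAut.conjNormal_apply h d

theorem mem_zd_of_cn {y : H} (hy : y ∈ commutator H) (h : cn H y = 1) : y ∈ zd H := by
  rw [mem_zd]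
  refine ⟨hy, fun d hd => ?_⟩
  have h1 := cn_coe y ⟨d, hd⟩
  rw [h] at h1
  change d = y * d * y⁻¹ at h1
  rw [eq_mul_inv_iff_mul_eq] at h1
  exact h1

theorem cn_of_mem_zd {y : H} (hy : y ∈ zd H) : cn H y = 1 := by
  ext d
  rw [cn_coe]
  change y * d * y⁻¹ = d
  rw [mul_inv_eq_iff_eq_mul]
  exact ((mem_zd.1 hy).2 d d.2).symm

theorem cn_alpha (α : MulAut (commutator H)) (d : commutator H) :
    cn H ((α d : commutator H) : H) = α * cn H (d : H) * α⁻¹ := by
  ext x
  rw [cn_coe]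
  have h1 : (α * cn H (d : H) * α⁻¹) x = α (cn H (d : H) (α⁻¹ x)) := rfl
  have h2 : cn H (d : H) (α⁻¹ x) = d * α⁻¹ x * d⁻¹ := by
    apply Subtype.ext
    rw [cn_coe]
    rfl
  have h3 : α (α⁻¹ x) = x := by
    change (α * α⁻¹) x = x
    rw [mul_inv_cancel]
    rfl
  rw [h1, h2, map_mul, map_mul, map_inv, h3]
  rfl

theorem of_eq_one_iff (h : H) : Abelianization.of h = 1 ↔ h ∈ commutator H := by
  rw [← MonoidHom.mem_ker, Abelianization.ker_of]

/-- Compatible automorphisms of the derived subgroup and of the quotient come from an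
automorphism. -/
theorem exists_aut [Finite H] (hZ : Subgroup.center H ⊓ commutator H = ⊥)
    (α : MulAut (commutator H)) (β : Abelianization H →* Abelianization H)
    (hβ : Function.Injective β)
    (hc : ∀ h₁, ∃ h₂, Abelianization.of h₂ = β (Abelianization.of h₁) ∧
      α * cn H h₁ = cn H h₂ * α) :
    ∃ θ : MulAut H, (∀ d : commutator H, θ d = α d) ∧
      ∀ h, Abelianization.of (θ h) = β (Abelianization.of h) := by
  have hfin : Finite (Abelianization H) := Finite.of_surjective _ (QuotientGroup.mk_surjective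
    (s := commutator H))
  have hβs : Function.Surjective β := Finite.surjective_of_injective hβ
  have hofs : ∀ b : Abelianization H, ∃ h, Abelianization.of h = b := fun b =>
    QuotientGroup.mk_surjective b
  let P : Subgroup (H × H) :=
    { carrier := {t | Abelianization.of t.2 = β (Abelianization.of t.1) ∧
        α * cn H t.1 = cn H t.2 * α}
      one_mem' := ⟨by
        change Abelianization.of 1 = β (Abelianization.of 1)
        rw [map_one, map_one], by
        change α * cn H 1 = cn H 1 * α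
        rw [map_one, mul_one, one_mul]⟩
      mul_mem' := fun {a b} ha hb => ⟨by
        change Abelianization.of (a.2 * b.2) = β (Abelianization.of (a.1 * b.1))
        rw [map_mul, map_mul, map_mul, ha.1, hb.1], by
        change α * cn H (a.1 * b.1) = cn H (a.2 * b.2) * α
        rw [map_mul, map_mul, ← mul_assoc, ha.2, mul_assoc, hb.2, mul_assoc]⟩
      inv_mem' := fun {a} ha => ⟨by
        change Abelianization.of a.2⁻¹ = β (Abelianization.of a.1⁻¹)
        rw [map_inv, map_inv, map_inv, ha.1], by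
        change α * cn H a.1⁻¹ = cn H a.2⁻¹ * α
        rw [map_inv, map_inv, mul_inv_eq_iff_eq_mul, mul_assoc, ha.2, inv_mul_cancel_left]⟩ }
  have hP : ∀ t : H × H, t ∈ P ↔ Abelianization.of t.2 = β (Abelianization.of t.1) ∧
        α * cn H t.1 = cn H t.2 * α := fun _ => Iff.rfl
  have hcm : ∀ a b : H, ⁅a, b⁆ ∈ commutator H := fun a b =>
    Subgroup.commutator_mem_commutator (Subgroup.mem_top a) (Subgroup.mem_top b)
  -- the relation between `α` and conjugation
  have hconj : ∀ x : H × H, x ∈ P → ∀ d : commutator H,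
      ((α (cn H x.1 d) : commutator H) : H) = x.2 * (α d : commutator H) * x.2⁻¹ := by
    intro x hx d
    have h1 : (α * cn H x.1) d = (cn H x.2 * α) d := by rw [((hP x).1 hx).2]
    have h2 : α (cn H x.1 d) = cn H x.2 (α d) := h1
    rw [h2, cn_coe]
  have hFm : ∀ s x : H × H, s ∈ P → x ∈ P →
      ⁅s.2, x.2⁆ * ((α ⟨⁅s.1, x.1⁆, hcm _ _⟩ : commutator H) : H)⁻¹ ∈ zd H := by
    intro s x hs hx
    apply mem_zd_of_cn ((commutator H).mul_mem (hcm _ _) ((commutator H).inv_mem (Subtype.mem _)))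
    have h1 : cn H s.2 = α * cn H s.1 * α⁻¹ := eq_mul_inv_of_mul_eq ((hP s).1 hs).2.symm
    have h2 : cn H x.2 = α * cn H x.1 * α⁻¹ := eq_mul_inv_of_mul_eq ((hP x).1 hx).2.symm
    rw [map_mul, map_inv, cn_alpha, mul_inv_eq_one, map_commutatorElement, h1, h2]
    change _ = α * cn H ⁅s.1, x.1⁆ * α⁻¹
    rw [map_commutatorElement, commutatorElement_def, commutatorElement_def]
    group
  let F : ∀ s x : H × H, s ∈ P → x ∈ P → zd H := fun s x hs hx =>
    ⟨⁅s.2, x.2⁆ * ((α ⟨⁅s.1, x.1⁆, hcm _ _⟩ : commutator H) : H)⁻¹, hFm s x hs hx⟩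
  have hFc : ∀ s x hs hx, (F s x hs hx : H) =
      ⁅s.2, x.2⁆ * ((α ⟨⁅s.1, x.1⁆, hcm _ _⟩ : commutator H) : H)⁻¹ := fun _ _ _ _ => rfl
  have hFmul : ∀ s x y hs hx hy hxy, F s (x * y) hs hxy = F s x hs hx * cj x.2 (F s y hs hy) := by
    intro s x y hs hx hy hxy
    apply Subtype.ext
    rw [Subgroup.coe_mul, cj_coe]
    have h1 : (⟨⁅s.1, (x * y).1⁆, hcm _ _⟩ : commutator H) =
        ⟨⁅s.1, x.1⁆, hcm _ _⟩ * cn H x.1 ⟨⁅s.1, y.1⁆, hcm _ _⟩ := by
      apply Subtype.ext
      rw [Subgroup.coe_mul, cn_coe]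
      change ⁅s.1, x.1 * y.1⁆ = ⁅s.1, x.1⁆ * (x.1 * ⁅s.1, y.1⁆ * x.1⁻¹)
      rw [commutatorElement_def, commutatorElement_def, commutatorElement_def]
      group
    have h2 : ⁅s.2, (x * y).2⁆ = ⁅s.2, x.2⁆ * (x.2 * ⁅s.2, y.2⁆ * x.2⁻¹) := by
      change ⁅s.2, x.2 * y.2⁆ = _
      rw [commutatorElement_def, commutatorElement_def, commutatorElement_def]
      group
    have h3 : x.2 * (F s y hs hy : H) * x.2⁻¹ ∈ zd H := conj_mem_zd x.2 (F s y hs hy).2
    have h4 := (mem_zd.1 h3).2 ((α ⟨⁅s.1, x.1⁆, hcm _ _⟩ : commutator H) : H)⁻¹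
      ((commutator H).inv_mem (Subtype.mem _))
    rw [hFc s x hs hx, mul_assoc (⁅s.2, x.2⁆), h4, hFc s (x * y) hs hxy, h1, h2, map_mul,
      Subgroup.coe_mul, hconj x hx, hFc s y hs hy]
    group
  have hFd : ∀ s hs (d : commutator H) hd, F s ((d : H), ((α d : commutator H) : H)) hs hd = 1 := by
    intro s hs d hd
    apply Subtype.ext
    rw [hFc _ _ hs hd]
    change ⁅s.2, ((α d : commutator H) : H)⁆ *
      ((α ⟨⁅s.1, (d : H)⁆, hcm _ _⟩ : commutator H) : H)⁻¹ = 1
    have h1 : (⟨⁅s.1, (d : H)⁆, hcm _ _⟩ : commutator H) = cn H s.1 d * d⁻¹ := by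
      apply Subtype.ext
      rw [Subgroup.coe_mul, cn_coe]
      rfl
    rw [h1, map_mul, Subgroup.coe_mul, hconj s hs, map_inv, mul_inv_eq_one]
    rfl
  have hzP : ∀ z : zd H, ((1 : H), (z : H)) ∈ P := by
    intro z
    rw [hP]
    refine ⟨?_, ?_⟩
    · change Abelianization.of (z : H) = β (Abelianization.of 1)
      rw [map_one, map_one, of_eq_one_iff]
      exact (mem_zd.1 z.2).1
    · change α * cn H 1 = cn H (z : H) * α
      rw [cn_of_mem_zd z.2, map_one, mul_one, one_mul]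
  have hdP : ∀ d : commutator H, ((d : H), ((α d : commutator H) : H)) ∈ P := by
    intro d
    rw [hP]
    refine ⟨?_, ?_⟩
    · change Abelianization.of ((α d : commutator H) : H) = β (Abelianization.of (d : H))
      rw [(of_eq_one_iff _).2 (α d).2, (of_eq_one_iff _).2 d.2, map_one]
    · change α * cn H (d : H) = cn H ((α d : commutator H) : H) * α
      rw [cn_alpha, inv_mul_cancel_right]
  have hFz : ∀ s hs (z : zd H) hz, F s ((1 : H), (z : H)) hs hz = dif (cj s.2) z := by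
    intro s hs z hz
    apply Subtype.ext
    rw [hFc _ _ hs hz, dif_apply, Subgroup.coe_mul, cj_coe]
    change ⁅s.2, (z : H)⁆ * ((α ⟨⁅s.1, (1 : H)⁆, hcm _ _⟩ : commutator H) : H)⁻¹ = _
    have h1 : (⟨⁅s.1, (1 : H)⁆, hcm _ _⟩ : commutator H) = 1 := by
      apply Subtype.ext
      exact commutatorElement_one_right _
    rw [h1, map_one]
    change ⁅s.2, (z : H)⁆ * 1⁻¹ = _
    rw [inv_one, mul_one]
    rfl
  obtain ⟨f, hf1, hf2, hf3⟩ := id_mem_of_ideal (Set.range (cj (H := H))) cj_comm' (fix_eq_one hZ)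
    (fun ψ => ∃ f : P → zd H, (∀ x y, f (x * y) = f x * cj (x : H × H).2 (f y)) ∧
      (∀ d : commutator H, f ⟨((d : H), ((α d : commutator H) : H)), hdP d⟩ = 1) ∧
      ∀ z : zd H, f ⟨((1 : H), (z : H)), hzP z⟩ = ψ z)
    ⟨fun _ => 1, fun x y => by rw [map_one, mul_one], fun _ => rfl, fun _ => rfl⟩
    (by
      rintro a b ⟨f, hf1, hf2, hf3⟩ ⟨g, hg1, hg2, hg3⟩
      refine ⟨fun x => f x * g x, fun x y => ?_, fun d => ?_, fun z => ?_⟩
      · change f (x * y) * g (x * y) = f x * g x * cj (x : H × H).2 (f y * g y)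
        rw [hf1, hg1, map_mul, mul_mul_mul_comm]
      · change f _ * g _ = 1
        rw [hf2, hg2, one_mul]
      · change f _ * g _ = _
        rw [hf3, hg3, MonoidHom.mul_apply])
    (by
      rintro ψ j hψ ⟨f, hf1, hf2, hf3⟩
      refine ⟨fun x => ψ (f x), fun x y => ?_, fun d => ?_, fun z => ?_⟩
      · change ψ (f (x * y)) = ψ (f x) * cj (x : H × H).2 (ψ (f y))
        rw [hf1, map_mul, hψ _ ⟨_, rfl⟩]
      · change ψ (f _) = 1
        rw [hf2, map_one]
      · change ψ (f _) = _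
        rw [hf3, MonoidHom.comp_apply])
    (by
      rintro _ ⟨h, rfl⟩
      obtain ⟨b, hb⟩ := hβs (Abelianization.of h)
      obtain ⟨s₁, hs₁⟩ := hofs b
      obtain ⟨s₂, hs₂, hs₃⟩ := hc s₁
      have hs : (s₁, s₂) ∈ P := ⟨hs₂, hs₃⟩
      refine ⟨fun x => F (s₁, s₂) x hs x.2,
        fun x y => hFmul _ _ _ hs x.2 y.2 (P.mul_mem x.2 y.2),
        fun d => hFd _ hs d (hdP d), fun z => ?_⟩
      change F (s₁, s₂) ((1 : H), (z : H)) hs (hzP z) = _
      rw [hFz _ hs z (hzP z)]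
      have h1 : h * s₂⁻¹ ∈ commutator H := by
        rw [← of_eq_one_iff, map_mul, map_inv, hs₂, hs₁, hb, mul_inv_cancel]
      have h2 : cj h z = cj s₂ z := by
        have h3 : h = h * s₂⁻¹ * s₂ := by group
        rw [h3, cj_mul, cj_of_mem h1]
      rw [dif_apply, dif_apply, h2])
  have huniq : ∀ (h₁ h₂ h₂' : H) (hx : (h₁, h₂) ∈ P) (hx' : (h₁, h₂') ∈ P),
      f ⟨(h₁, h₂), hx⟩ = 1 → f ⟨(h₁, h₂'), hx'⟩ = 1 → h₂ = h₂' := by
    intro h₁ h₂ h₂' hx hx' hfx hfx'
    have h1 : ((1 : H), h₂' * h₂⁻¹) ∈ P := by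
      have := P.mul_mem hx' (P.inv_mem hx)
      have h2 : (h₁, h₂') * (h₁, h₂)⁻¹ = ((1 : H), h₂' * h₂⁻¹) :=
        Prod.ext (mul_inv_cancel h₁) rfl
      rwa [h2] at this
    have h2 : h₂' * h₂⁻¹ ∈ zd H := by
      apply mem_zd_of_cn
      · rw [← of_eq_one_iff]
        have h3 := ((hP _).1 h1).1
        change Abelianization.of (h₂' * h₂⁻¹) = β (Abelianization.of 1) at h3
        rw [h3, map_one, map_one]
      · have h3 := ((hP _).1 h1).2
        change α * cn H 1 = cn H (h₂' * h₂⁻¹) * α at h3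
        rw [map_one, mul_one] at h3
        exact (eq_mul_inv_of_mul_eq h3.symm).trans (mul_inv_cancel α)
    have h3 : (⟨(h₁, h₂'), hx'⟩ : P) =
        ⟨((1 : H), ((⟨h₂' * h₂⁻¹, h2⟩ : zd H) : H)), hzP ⟨h₂' * h₂⁻¹, h2⟩⟩ * ⟨(h₁, h₂), hx⟩ := by
      apply Subtype.ext
      change (h₁, h₂') = ((1 : H) * h₁, h₂' * h₂⁻¹ * h₂)
      rw [one_mul, inv_mul_cancel_right]
    rw [h3, hf1, hf3, hfx, map_one, mul_one] at hfx'
    have h4 : h₂' * h₂⁻¹ = 1 := congrArg Subtype.val hfx'
    exact (mul_inv_eq_one.1 h4).symm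
  have hex : ∀ h₁, ∃ h₂, ∃ hx : (h₁, h₂) ∈ P, f ⟨(h₁, h₂), hx⟩ = 1 := by
    intro h₁
    obtain ⟨h₂, ha, hb⟩ := hc h₁
    have hx : (h₁, h₂) ∈ P := ⟨ha, hb⟩
    let w : zd H := (f ⟨(h₁, h₂), hx⟩)⁻¹
    have h1 : (h₁, (w : H) * h₂) ∈ P := by
      have := P.mul_mem (hzP w) hx
      have h2 : ((1 : H), (w : H)) * (h₁, h₂) = (h₁, (w : H) * h₂) :=
        Prod.ext (one_mul h₁) rfl
      rwa [h2] at this
    refine ⟨(w : H) * h₂, h1, ?_⟩
    have h3 : (⟨(h₁, (w : H) * h₂), h1⟩ : P) =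
        ⟨((1 : H), (w : H)), hzP w⟩ * ⟨(h₁, h₂), hx⟩ := by
      apply Subtype.ext
      change (h₁, (w : H) * h₂) = ((1 : H) * h₁, (w : H) * h₂)
      rw [one_mul]
    rw [h3, hf1, hf3]
    change w * cj (w : H) (f ⟨(h₁, h₂), hx⟩) = 1
    rw [cj_of_mem (mem_zd.1 w.2).1]
    exact inv_mul_cancel _
  choose t ht1 ht2 using hex
  let θ₀ : H →* H :=
    { toFun := t
      map_one' := by
        have h1 : ((1 : H), (1 : H)) ∈ P := P.one_mem
        refine huniq 1 (t 1) 1 (ht1 1) h1 (ht2 1) ?_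
        exact hf3 1
      map_mul' := by
        intro a b
        have h1 : (a * b, t a * t b) ∈ P := P.mul_mem (ht1 a) (ht1 b)
        refine huniq (a * b) (t (a * b)) (t a * t b) (ht1 _) h1 (ht2 _) ?_
        have h2 := hf1 ⟨(a, t a), ht1 a⟩ ⟨(b, t b), ht1 b⟩
        rw [ht2, ht2, map_one, mul_one] at h2
        exact h2 }
  have hθd : ∀ d : commutator H, θ₀ d = α d := by
    intro d
    exact huniq d (t d) (α d) (ht1 _) (hdP d) (ht2 _) (hf2 d)
  have hθo : ∀ h, Abelianization.of (θ₀ h) = β (Abelianization.of h) := fun h => (ht1 h).1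
  have hinj : Function.Injective θ₀ := by
    rw [injective_iff_map_eq_one]
    intro h hh
    have h1 := hθo h
    rw [hh, map_one] at h1
    have h2 : Abelianization.of h = 1 := by
      apply hβ
      rw [← h1, map_one]
    rw [of_eq_one_iff] at h2
    have h3 := hθd ⟨h, h2⟩
    rw [hh] at h3
    have h4 : α ⟨h, h2⟩ = 1 := Subtype.ext h3.symm
    have h5 : (⟨h, h2⟩ : commutator H) = 1 := by
      apply α.injective
      rw [h4, map_one]
    exact congrArg Subtype.val h5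
  exact ⟨MulEquiv.ofBijective θ₀ ⟨hinj, Finite.surjective_of_injective hinj⟩, hθd, hθo⟩

end

end Pool.H95I
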